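import Pool.Agent.Lib.H61E.Defs

/-!
# FL: flatness

PROOF.  FL_poly: Mathlib `AdicCompletion.flat_of_isNoetherian` for `MvPolynomial (Fin n) k` and the ideal
`MvPolynomial.idealOfVars`, and the isomorphism `MvPowerSeries.toAdicCompletionAlgEquiv (Fin n) k`, an
algebra isomorphism over `MvPolynomial (Fin n) k` (`Module.Flat.of_linearEquiv`).
FL_section: `A → C` etale, `A → P` flat, `C → P` over `A`.  `C' = P ⊗[A] C` is etale over `P`, `s : C' → P` the
`P`-algebra map induced by `C → P`.  With `P` as a `C'`-algebra via `s`, `P` is etale over `C'`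
(`Algebra.Etale.of_restrictScalars` for `P → C' → P`: `P` is etale over `P` and `C'` is (formally
unramified) etale over `P`), so flat over `C'` (`Smooth.flat`).  `C'` is flat over `C` (base change of the
flat `A → P`: `Module.Flat.baseChange`; `P ⊗[A] C` versus `C ⊗[A] P`).  Transitivity
(`Module.Flat.trans`).
-/

set_option autoImplicit false
open IsLocalRing

namespace Pool.Agent.Lib.H61E
universe u

theorem FL_poly (k : Type u) [Field k] (n : ℕ) :
    Module.Flat (MvPolynomial (Fin n) k) (MvPowerSeries (Fin n) k) := by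
  have h : Module.Flat (MvPolynomial (Fin n) k)
      (AdicCompletion (MvPolynomial.idealOfVars (Fin n) k) (MvPolynomial (Fin n) k)) :=
    AdicCompletion.flat_of_isNoetherian _
  exact Module.Flat.of_linearEquiv (MvPowerSeries.toAdicCompletionAlgEquiv (Fin n) k).toLinearEquiv

open scoped TensorProduct in
theorem FL_section (A C P : Type u) [CommRing A] [CommRing C] [CommRing P] [Algebra A C]
    [Algebra.Etale A C] [Algebra A P] [Module.Flat A P] [Algebra C P] [IsScalarTower A C P] :
    Module.Flat C P := by
  letI : Algebra P (C ⊗[A] P) := Algebra.TensorProduct.rightAlgebra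
  have hE : Algebra.Etale P (C ⊗[A] P) :=
    Algebra.Etale.of_equiv (Algebra.TensorProduct.commRight A P C)
  let s : C ⊗[A] P →ₐ[A] P :=
    Algebra.TensorProduct.productMap (IsScalarTower.toAlgHom A C P) (AlgHom.id A P)
  letI : Algebra (C ⊗[A] P) P := s.toRingHom.toAlgebra
  have hs : ∀ x, algebraMap (C ⊗[A] P) P x = s x := fun x => rfl
  have hT : IsScalarTower P (C ⊗[A] P) P := by
    refine IsScalarTower.of_algebraMap_eq fun x => ?_
    rw [hs]
    show x = s (1 ⊗ₜ x)
    simp [s]
  have hT2 : IsScalarTower C (C ⊗[A] P) P := by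
    refine IsScalarTower.of_algebraMap_eq fun x => ?_
    rw [hs]
    show algebraMap C P x = s (x ⊗ₜ 1)
    simp [s]
  have h1 : Algebra.Etale (C ⊗[A] P) P := Algebra.Etale.of_restrictScalars P (C ⊗[A] P) P
  have h2 : Module.Flat (C ⊗[A] P) P := inferInstance
  have h3 : Module.Flat C (C ⊗[A] P) := inferInstance
  exact Module.Flat.trans C (C ⊗[A] P) P

end Pool.Agent.Lib.H61E
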