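import Pool.Agent.Lib.H61E.Defs

/-!
# PA: approximation of polynomials

PROOF.  Index type `κ = Σ i : ι, Fin ((p i).natDegree + 1)` (finite; `AZ` is stated for `Fin N`, transfer by
`Finite.exists_equiv_fin` and `MvPolynomial.rename`; this is PA_fin).  Let `x (i, m) = (p i).coeff m`, `x'` the
approximation of `x` for `c`, and `p' i = ∑_m monomial m (x' (i, m))`.  Coefficients: in `E`; congruent
modulo `m^c` (both are `0` above `natDegree (p i)`).  Zero and one coefficients: `X` and `X - 1` are
polynomial relations over `ℤ`.  Relations: let `G i = ∑_m C (X (i, m)) * X^m`, a polynomial over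
`MvPolynomial κ ℤ`; specializing the coefficients at `x` gives `p i`, at `x'` gives `p' i`.  If
`aeval p F = 0` then for every `n` the coefficient `F_n := (aeval G F).coeff n ∈ MvPolynomial κ ℤ` satisfies
`aeval x F_n = (aeval p F).coeff n = 0` (the map `Polynomial.map (aeval x)` is a ring homomorphism sending
`aeval G F` to `aeval p F`), hence `aeval x' F_n = 0`, so `(aeval p' F).coeff n = 0`.
-/

set_option autoImplicit false
open IsLocalRing

namespace Pool.Agent.Lib.H61E
universe u

theorem PA_fin {P : Type u} [CommRing P] [IsLocalRing P] {E : Subring P} (hA : AZ P E)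
    {κ : Type} [Finite κ] (x : κ → P) (c : ℕ) :
    ∃ x' : κ → P, (∀ i, x' i ∈ E) ∧ Rel x x' ∧ Cg c x' x := by
  obtain ⟨N, ⟨e⟩⟩ := Finite.exists_equiv_fin κ
  obtain ⟨y', h1, h2, h3⟩ := hA N (fun j => x (e.symm j)) c
  refine ⟨fun i => y' (e i), fun i => h1 _, fun f hf => ?_, fun i => ?_⟩
  · have h4 := h2 (MvPolynomial.rename e f) (by
      rw [MvPolynomial.aeval_rename]
      have h5 : ((fun j => x (e.symm j)) ∘ e) = x := by
        funext i
        simp
      rw [h5]
      exact hf)
    rw [MvPolynomial.aeval_rename] at h4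
    exact h4
  · have h4 := h3 (e i)
    simpa using h4

theorem PA_map {A : Type*} {B : Type*} [CommRing A] [CommRing B] {ι : Type*} (φ : A →+* B)
    (y : ι → A) (F : MvPolynomial ι ℤ) :
    φ (MvPolynomial.aeval y F) = MvPolynomial.aeval (fun i => φ (y i)) F := by
  induction F using MvPolynomial.induction_on with
  | C a => simp
  | add p q hp hq => simp [hp, hq]
  | mul_X p i hp => simp [hp]

theorem PA_main {P : Type u} [CommRing P] [IsLocalRing P] {E : Subring P} (hA : AZ P E)
    {ι : Type} [Finite ι] (p : ι → Polynomial P) (c : ℕ) :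
    ∃ p' : ι → Polynomial P, (∀ i n, (p' i).coeff n ∈ E) ∧ Rel p p' ∧
      (∀ i n, (p' i).coeff n - (p i).coeff n ∈ maximalIdeal P ^ c) ∧
      (∀ i n, (p i).coeff n = 0 → (p' i).coeff n = 0) ∧
      (∀ i n, (p i).coeff n = 1 → (p' i).coeff n = 1) := by
  obtain ⟨x', h1, h2, h3⟩ := PA_fin hA
    (fun k : (Σ i : ι, Fin ((p i).natDegree + 1)) => (p k.1).coeff k.2) c
  have hco : ∀ (z : (Σ i : ι, Fin ((p i).natDegree + 1)) → P) (i : ι) (n : ℕ),
      (∑ m : Fin ((p i).natDegree + 1), Polynomial.monomial (m : ℕ) (z ⟨i, m⟩)).coeff n =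
        if h : n < (p i).natDegree + 1 then z ⟨i, ⟨n, h⟩⟩ else 0 := by
    intro z i n
    rw [Polynomial.finsetSum_coeff]
    split_ifs with h
    · rw [Finset.sum_eq_single (⟨n, h⟩ : Fin ((p i).natDegree + 1))]
      · simp
      · intro b _ hb
        rw [Polynomial.coeff_monomial, if_neg]
        intro h4
        exact hb (Fin.ext h4)
      · intro h4
        exact absurd (Finset.mem_univ _) h4
    · refine Finset.sum_eq_zero fun b _ => ?_
      rw [Polynomial.coeff_monomial, if_neg]
      intro h4
      have := b.2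
      omega
  have hp : ∀ i n, (p i).coeff n =
      if h : n < (p i).natDegree + 1 then (p i).coeff n else 0 := by
    intro i n
    split_ifs with h
    · rfl
    · exact Polynomial.coeff_eq_zero_of_natDegree_lt (by omega)
  let G : ι → Polynomial (MvPolynomial (Σ i : ι, Fin ((p i).natDegree + 1)) ℤ) := fun i =>
    ∑ m : Fin ((p i).natDegree + 1), Polynomial.monomial (m : ℕ) (MvPolynomial.X ⟨i, m⟩)
  have hG : ∀ (z : (Σ i : ι, Fin ((p i).natDegree + 1)) → P) (i : ι),
      Polynomial.mapRingHom (MvPolynomial.aeval z :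
        MvPolynomial (Σ i : ι, Fin ((p i).natDegree + 1)) ℤ →ₐ[ℤ] P).toRingHom (G i) =
        ∑ m : Fin ((p i).natDegree + 1), Polynomial.monomial (m : ℕ) (z ⟨i, m⟩) := by
    intro z i
    simp only [G, map_sum]
    refine Finset.sum_congr rfl fun m _ => ?_
    simp [Polynomial.map_monomial]
  refine ⟨fun i => ∑ m : Fin ((p i).natDegree + 1), Polynomial.monomial (m : ℕ) (x' ⟨i, m⟩),
    ?_, ?_, ?_, ?_, ?_⟩
  · intro i n
    rw [hco]
    split_ifs with h
    · exact h1 _
    · exact E.zero_mem
  · intro F hF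
    have hpG : p = fun i => Polynomial.mapRingHom (MvPolynomial.aeval
        (fun k : (Σ i : ι, Fin ((p i).natDegree + 1)) => (p k.1).coeff k.2) :
        MvPolynomial (Σ i : ι, Fin ((p i).natDegree + 1)) ℤ →ₐ[ℤ] P).toRingHom (G i) := by
      funext i
      rw [hG]
      ext n
      exact (hp i n).trans (hco (fun k => (p k.1).coeff k.2) i n).symm
    rw [hpG, ← PA_map] at hF
    have hpG' : (fun i => ∑ m : Fin ((p i).natDegree + 1),
        Polynomial.monomial (m : ℕ) (x' ⟨i, m⟩)) =
        fun i => Polynomial.mapRingHom (MvPolynomial.aeval x' :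
        MvPolynomial (Σ i : ι, Fin ((p i).natDegree + 1)) ℤ →ₐ[ℤ] P).toRingHom (G i) := by
      funext i
      rw [hG]
    rw [hpG', ← PA_map]
    ext n
    have h4 : (MvPolynomial.aeval (fun k : (Σ i : ι, Fin ((p i).natDegree + 1)) =>
        (p k.1).coeff k.2) : MvPolynomial (Σ i : ι, Fin ((p i).natDegree + 1)) ℤ →ₐ[ℤ] P)
        ((MvPolynomial.aeval G F).coeff n) = 0 := by
      have h5 := congrArg (fun r : Polynomial P => r.coeff n) hF
      simp only [Polynomial.coe_mapRingHom, Polynomial.coeff_map, Polynomial.coeff_zero] at h5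
      exact h5
    have h6 := h2 _ h4
    simp only [Polynomial.coe_mapRingHom, Polynomial.coeff_map, Polynomial.coeff_zero]
    exact h6
  · intro i n
    rw [hco]
    split_ifs with h
    · exact h3 ⟨i, ⟨n, h⟩⟩
    · rw [Polynomial.coeff_eq_zero_of_natDegree_lt (by omega : (p i).natDegree < n), sub_zero]
      exact Ideal.zero_mem _
  · intro i n h0
    rw [hco]
    split_ifs with h
    · have h4 := h2 (MvPolynomial.X ⟨i, ⟨n, h⟩⟩) (by simpa using h0)
      simpa using h4
    · rfl
  · intro i n h0
    rw [hco]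
    split_ifs with h
    · have h4 := h2 (MvPolynomial.X ⟨i, ⟨n, h⟩⟩ - 1) (by
        simp [h0])
      simpa [sub_eq_zero] using h4
    · rw [Polynomial.coeff_eq_zero_of_natDegree_lt (by omega : (p i).natDegree < n)] at h0
      exact absurd h0 (by
        intro h5
        exact one_ne_zero h5.symm)

end Pool.Agent.Lib.H61E
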