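import Pool.Agent.Lib.H61E.AP
import Pool.Agent.Lib.H61E.FL
import Pool.Agent.Lib.H61E.PA

/-!
# AA: approximation in a local ring essentially of finite type

PROOF.  `A = MvPolynomial (Fin n) k`, `P = MvPowerSeries (Fin n) k`.  AP_main with PA_fin: `y' : ι → P` with
members in `Eh A P`, `Rel y y'`, `Cg c y' y`.  EH2_common: `C` etale over `A`, `σ : C → P`, `z₀`, `σ (z₀ i) = y' i`.
`q = comap σ (maximalIdeal P)`, prime; `B = Localization.AtPrime q`; `σ` extends to `B → P`
(`IsLocalization.lift`; elements outside `q` go to units), local.  `B` is essentially of finite type over `k`: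
`C` is of finite presentation over `A`, `A` of finite type over `k`, `B` a localization
(`Algebra.EssFiniteType` API: `Algebra.EssFiniteType.comp`, `.of_isLocalization`).  `C → P` is flat
(FL_poly, FL_section), so `B → P` is flat (`Module.Flat.of_isLocalizedModule`, or
`IsLocalization.flat` style: a module over a localization which is flat over the base ring is flat over the
localization, `Module.flat_iff_of_isLocalization`), local, so faithfully flat
(`Module.FaithfullyFlat.of_flat_of_isLocalHom`), hence injective.  `z i` = image of `z₀ i`; if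
`aeval y f = 0` then the image of `aeval z f` in `P` is `aeval y' f = 0`, so `aeval z f = 0`.
-/

set_option autoImplicit false
open IsLocalRing

namespace Pool.Agent.Lib.H61E
universe u

theorem aa_aeval {R : Type u} [CommRing R] (i1 i2 : Algebra ℤ R) {ι : Type} (y : ι → R)
    (f : MvPolynomial ι ℤ) :
    @MvPolynomial.aeval ℤ R ι _ _ i1 y f = @MvPolynomial.aeval ℤ R ι _ _ i2 y f := by
  have h : i1 = i2 := Subsingleton.elim _ _
  rw [h]

theorem AA_main {k : Type u} [Field k] [CharZero k] (n : ℕ) {ι : Type} [Finite ι]
    (y : ι → MvPowerSeries (Fin n) k) (c : ℕ) :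
    ∃ (B : Type u) (_ : CommRing B) (_ : IsLocalRing B) (_ : Algebra k B)
      (_ : Algebra.EssFiniteType k B) (_ : Algebra B (MvPowerSeries (Fin n) k))
      (_ : Module.FaithfullyFlat B (MvPowerSeries (Fin n) k))
      (_ : IsLocalHom (algebraMap B (MvPowerSeries (Fin n) k))) (z : ι → B),
      (∀ f : MvPolynomial ι ℤ, MvPolynomial.aeval y f = 0 → MvPolynomial.aeval z f = 0) ∧
      Cg c (fun i => algebraMap B (MvPowerSeries (Fin n) k) (z i)) y := by
  obtain ⟨y', hy1, hy2, hy3⟩ := PA_fin (AP_main (k := k) n) y c
  obtain ⟨C, iC, iA, iE, σ, z0, hz0⟩ := EH2_common y' hy1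
  let _ : Algebra k C :=
    ((algebraMap (MvPolynomial (Fin n) k) C).comp (algebraMap k (MvPolynomial (Fin n) k))).toAlgebra
  have : IsScalarTower k (MvPolynomial (Fin n) k) C := IsScalarTower.of_algebraMap_eq fun x => rfl
  let _ : Algebra C (MvPowerSeries (Fin n) k) := σ.toRingHom.toAlgebra
  have : IsScalarTower (MvPolynomial (Fin n) k) C (MvPowerSeries (Fin n) k) :=
    IsScalarTower.of_algebraMap_eq fun x => (σ.commutes x).symm
  have : Module.Flat (MvPolynomial (Fin n) k) (MvPowerSeries (Fin n) k) := FL_poly k n
  have hflatCP : Module.Flat C (MvPowerSeries (Fin n) k) :=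
    FL_section (MvPolynomial (Fin n) k) C (MvPowerSeries (Fin n) k)
  let q : Ideal C := (maximalIdeal (MvPowerSeries (Fin n) k)).comap σ.toRingHom
  have : q.IsPrime := Ideal.IsPrime.comap _
  have hu : ∀ s : q.primeCompl, IsUnit (σ.toRingHom s) := by
    intro s
    by_contra h
    exact s.2 (Ideal.mem_comap.2 ((mem_maximalIdeal _).2 h))
  let τ : Localization.AtPrime q →+* MvPowerSeries (Fin n) k := IsLocalization.lift hu
  have hτ : ∀ x : C, τ (algebraMap C (Localization.AtPrime q) x) = σ x := fun x =>
    IsLocalization.lift_eq hu x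
  let _ : Algebra (Localization.AtPrime q) (MvPowerSeries (Fin n) k) := τ.toAlgebra
  have : IsScalarTower C (Localization.AtPrime q) (MvPowerSeries (Fin n) k) :=
    IsScalarTower.of_algebraMap_eq fun x => (hτ x).symm
  have hflatBP : Module.Flat (Localization.AtPrime q) (MvPowerSeries (Fin n) k) :=
    (Module.flat_iff_of_isLocalization (Localization.AtPrime q) q.primeCompl _).2 hflatCP
  have hloc : IsLocalHom (algebraMap (Localization.AtPrime q) (MvPowerSeries (Fin n) k)) := by
    refine ⟨fun b hb => ?_⟩
    obtain ⟨⟨x, s⟩, hxs⟩ := IsLocalization.surj q.primeCompl b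
    have h1 : τ b * σ s = σ x := by
      rw [← hτ, ← hτ, ← map_mul]
      exact congrArg τ hxs
    have h2 : IsUnit (σ x) := by
      rw [← h1]
      exact hb.mul (hu s)
    have h3 : x ∈ q.primeCompl := fun h => (mem_maximalIdeal _).1 (Ideal.mem_comap.1 h) h2
    have h4 : IsUnit (algebraMap C (Localization.AtPrime q) x) :=
      IsLocalization.map_units (Localization.AtPrime q) ⟨x, h3⟩
    rw [← hxs] at h4
    exact isUnit_of_mul_isUnit_left h4
  have hff : Module.FaithfullyFlat (Localization.AtPrime q) (MvPowerSeries (Fin n) k) :=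
    Module.FaithfullyFlat.of_flat_of_isLocalHom
  have : Algebra.FiniteType k C := Algebra.FiniteType.trans (S := MvPolynomial (Fin n) k)
    inferInstance inferInstance
  have hinj : Function.Injective (algebraMap (Localization.AtPrime q) (MvPowerSeries (Fin n) k)) :=
    FaithfulSMul.algebraMap_injective _ _
  refine ⟨Localization.AtPrime q, inferInstance, inferInstance, inferInstance, inferInstance,
    τ.toAlgebra, hff, hloc, fun i => algebraMap C (Localization.AtPrime q) (z0 i), ?_, ?_⟩
  · intro f hf
    apply hinj
    rw [map_zero]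
    have h1 := PA_map (algebraMap (Localization.AtPrime q) (MvPowerSeries (Fin n) k))
      (fun i => algebraMap C (Localization.AtPrime q) (z0 i)) f
    rw [h1]
    have h2 : (fun i => algebraMap (Localization.AtPrime q) (MvPowerSeries (Fin n) k)
        (algebraMap C (Localization.AtPrime q) (z0 i))) = y' := by
      funext i
      exact (hτ (z0 i)).trans (hz0 i)
    rw [h2]
    exact hy2 f ((aa_aeval _ _ y f).trans hf)
  · intro i
    have h2 : algebraMap (Localization.AtPrime q) (MvPowerSeries (Fin n) k)
        (algebraMap C (Localization.AtPrime q) (z0 i)) = y' i := (hτ (z0 i)).trans (hz0 i)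
    show algebraMap (Localization.AtPrime q) (MvPowerSeries (Fin n) k)
        (algebraMap C (Localization.AtPrime q) (z0 i)) - y i ∈ _
    rw [h2]
    exact hy3 i

end Pool.Agent.Lib.H61E
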