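import Pool.Agent.Lib.H61E.MX

/-!
# CC2: a line on which a nonzero series does not vanish

PROOF.  `f ≠ 0`: some coefficient at an exponent `e₀` is nonzero; put `d = |e₀|`.  Let
`F ∈ MvPolynomial (Fin n) k` be `∑ (coeff e f) * ∏_i X_i^(e i.succ)`, the sum over the exponents `e` of
`Fin (n+1)` with `|e| = d` (`Finset.antidiagonal`-like finite set, or the support of the polynomial of
MX_trunc).  `e ↦ (e i.succ)_i` is injective on `|e| = d` (since `e 0 = d - ∑ e i.succ`), so the coefficient of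
`F` at the image of `e₀` is nonzero and `F ≠ 0`.  `k` infinite: `∃ l, eval l F ≠ 0` (`MvPolynomial.funext`).
Let `ψ` be as in the statement.  By MX_trunc (`d + 1`), `f = p + r`, `r ∈ m^(d+1)`; `ψ(m) ⊂ (X)`:
`m = span (X_i)` (MX_max), so `coeff d (ψ r) = 0`.  `ψ p = ∑_e (coeff e p) ∏ l_i^(e i.succ) X^|e|`, so
`coeff d (ψ f) = coeff d (ψ p) = ∑_{|e| = d} (coeff e f) ∏ l_i^(e i.succ) = eval l F ≠ 0`.
-/

set_option autoImplicit false
open IsLocalRing

namespace Pool.Agent.Lib.H61E
universe u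

theorem CC2_hom {k : Type u} [Field k] {n : ℕ} (c : k) (μ : Fin n → k) (d : ℕ)
    (F : MvPolynomial (Fin n) k) (hF : F.IsHomogeneous d) :
    MvPolynomial.eval (fun i => c * μ i) F = c ^ d * MvPolynomial.eval μ F := by
  rw [MvPolynomial.eval_eq', MvPolynomial.eval_eq', Finset.mul_sum]
  refine Finset.sum_congr rfl fun e he => ?_
  have h1 : ∑ i, e i = d := by
    rw [← Finsupp.degree_eq_sum]
    by_contra hne
    exact (MvPolynomial.mem_support_iff.1 he) (hF.coeff_eq_zero hne)
  simp only [mul_pow]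
  rw [Finset.prod_mul_distrib, Finset.prod_pow_eq_pow_sum, h1]
  ring

theorem CC2_line {k : Type u} [Field k] [Infinite k] {n : ℕ} (d : ℕ)
    (F : MvPolynomial (Fin (n + 1)) k) (hF : F.IsHomogeneous d) (h0 : F ≠ 0) :
    ∃ l : Fin n → k, MvPolynomial.eval (Fin.cons 1 l : Fin (n + 1) → k) F ≠ 0 := by
  by_contra hcon
  push Not at hcon
  have h1 : F * MvPolynomial.X 0 ≠ 0 := mul_ne_zero h0 (MvPolynomial.X_ne_zero 0)
  apply h1
  refine MvPolynomial.funext fun μ => ?_
  rw [map_mul, MvPolynomial.eval_X, map_zero]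
  by_cases hμ : μ 0 = 0
  · rw [hμ, mul_zero]
  · have h2 := hcon fun i => (μ 0)⁻¹ * μ i.succ
    have h3 : (Fin.cons 1 fun i : Fin n => (μ 0)⁻¹ * μ i.succ : Fin (n + 1) → k) =
        fun i => (μ 0)⁻¹ * μ i := by
      funext s
      refine Fin.cases ?_ (fun i => ?_) s
      · rw [Fin.cons_zero, inv_mul_cancel₀ hμ]
      · rw [Fin.cons_succ]
    rw [h3, CC2_hom _ _ d F hF] at h2
    rcases mul_eq_zero.1 h2 with h4 | h4
    · exact absurd h4 (pow_ne_zero _ (inv_ne_zero hμ))
    · rw [h4, zero_mul]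

theorem CC2_coeff {k : Type u} [Field k] {n : ℕ} (c : Fin n → k) (d : ℕ)
    (p : MvPolynomial (Fin n) k) :
    PowerSeries.coeff d (MvPolynomial.aeval (R := k)
      (fun s => c s • (PowerSeries.X : PowerSeries k)) p) =
      MvPolynomial.eval c (MvPolynomial.homogeneousComponent d p) := by
  induction p using MvPolynomial.induction_on' with
  | monomial e a =>
    rw [MvPolynomial.homogeneousComponent_of_mem
      ((MvPolynomial.mem_homogeneousSubmodule _ _).2 (MvPolynomial.isHomogeneous_monomial a rfl)),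
      MvPolynomial.aeval_monomial]
    have h1 : (e.prod fun s m => (c s • (PowerSeries.X : PowerSeries k)) ^ m) =
        (∏ s, c s ^ e s) • (PowerSeries.X : PowerSeries k) ^ e.degree := by
      rw [Finsupp.prod_fintype _ _ (fun s => pow_zero _)]
      simp only [smul_pow]
      rw [Finset.prod_smul, Finset.prod_pow_eq_pow_sum, Finsupp.degree_eq_sum]
    rw [h1, mul_smul_comm, ← Algebra.smul_def, map_smul, map_smul, PowerSeries.coeff_X_pow]
    by_cases hd : d = e.degree
    · rw [if_pos hd, if_pos hd, MvPolynomial.eval_monomial, Finsupp.prod_fintype _ _ (fun s => pow_zero _)]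
      simp only [smul_eq_mul, mul_one]
      rw [mul_comm]
    · rw [if_neg hd, if_neg hd, smul_zero, smul_zero, map_zero]
  | add p q hp hq =>
    rw [map_add, map_add, map_add, map_add, hp, hq]

theorem CC2_main {k : Type u} [Field k] [Infinite k] {n : ℕ}
    (f : MvPowerSeries (Fin (n + 1)) k) (hf : f ≠ 0) :
    ∃ l : Fin n → k, ∀ ψ : MvPowerSeries (Fin (n + 1)) k →ₐ[k] PowerSeries k,
      ψ (MvPowerSeries.X 0) = PowerSeries.X →
      (∀ i : Fin n, ψ (MvPowerSeries.X i.succ) = l i • PowerSeries.X) → ψ f ≠ 0 := by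
  obtain ⟨e₀, he₀⟩ : ∃ e₀, MvPowerSeries.coeff e₀ f ≠ 0 := by
    by_contra hcon
    push Not at hcon
    exact hf (MvPowerSeries.ext fun e => by rw [hcon e, map_zero])
  obtain ⟨p, hp1, -, hp3⟩ := MX_trunc (e₀.degree + 1) f
  have hF : MvPolynomial.homogeneousComponent e₀.degree p ≠ 0 := by
    intro h0
    have h1 := congrArg (MvPolynomial.coeff e₀) h0
    rw [MvPolynomial.coeff_homogeneousComponent, if_pos rfl, MvPolynomial.coeff_zero,
      hp1 e₀ (Nat.lt_succ_self _)] at h1
    exact he₀ h1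
  obtain ⟨l, hl⟩ := CC2_line e₀.degree _
    (MvPolynomial.homogeneousComponent_isHomogeneous _ _) hF
  refine ⟨l, fun ψ h0 hs hψ => hl ?_⟩
  have hX : ∀ s, ψ (MvPowerSeries.X s) =
      (Fin.cons 1 l : Fin (n + 1) → k) s • (PowerSeries.X : PowerSeries k) := by
    intro s
    refine Fin.cases ?_ (fun i => ?_) s
    · rw [h0, Fin.cons_zero, one_smul]
    · rw [hs i, Fin.cons_succ]
  -- the polynomial part
  have hpoly : ψ (p : MvPowerSeries (Fin (n + 1)) k) = MvPolynomial.aeval (R := k)
      (fun s => (Fin.cons 1 l : Fin (n + 1) → k) s • (PowerSeries.X : PowerSeries k)) p := by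
    have h1 : ψ.comp (MvPolynomial.coeToMvPowerSeries.algHom (σ := Fin (n + 1)) (R := k) k) =
        MvPolynomial.aeval (R := k)
          (fun s => (Fin.cons 1 l : Fin (n + 1) → k) s • (PowerSeries.X : PowerSeries k)) := by
      refine MvPolynomial.algHom_ext fun s => ?_
      rw [AlgHom.comp_apply, MvPolynomial.aeval_X, ← hX s]
      simp
    rw [← h1, AlgHom.comp_apply]
    simp
  -- the remainder
  have hrem : PowerSeries.coeff e₀.degree (ψ (f - (p : MvPowerSeries (Fin (n + 1)) k))) = 0 := by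
    have h1 : (maximalIdeal (MvPowerSeries (Fin (n + 1)) k)).map ψ.toRingHom ≤
        Ideal.span {(PowerSeries.X : PowerSeries k)} := by
      rw [MX_max, Ideal.map_span, Ideal.span_le]
      rintro _ ⟨_, ⟨s, rfl⟩, rfl⟩
      have h2 := hX s
      change ψ (MvPowerSeries.X s) ∈ Ideal.span {(PowerSeries.X : PowerSeries k)}
      rw [h2, Algebra.smul_def]
      exact Ideal.mul_mem_left _ _ (Ideal.mem_span_singleton_self _)
    have h2 : ψ (f - (p : MvPowerSeries (Fin (n + 1)) k)) ∈
        Ideal.span {(PowerSeries.X : PowerSeries k) ^ (e₀.degree + 1)} := by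
      rw [← Ideal.span_singleton_pow]
      refine Ideal.pow_right_mono h1 _ ?_
      rw [← Ideal.map_pow]
      exact Ideal.mem_map_of_mem ψ.toRingHom hp3
    rw [Ideal.mem_span_singleton] at h2
    exact PowerSeries.X_pow_dvd_iff.1 h2 _ (Nat.lt_succ_self _)
  have h5 := congrArg (PowerSeries.coeff e₀.degree) hψ
  rw [← CC2_coeff, ← hpoly]
  have h6 : ψ f = ψ (f - (p : MvPowerSeries (Fin (n + 1)) k)) +
      ψ (p : MvPowerSeries (Fin (n + 1)) k) := by
    rw [← map_add, sub_add_cancel]
  rw [h6, map_add, hrem, zero_add, map_zero] at h5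
  exact h5

end Pool.Agent.Lib.H61E
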