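import Pool.Agent.Lib.H61E.EH2

/-!
# EH4: functoriality of `Eh`

PROOF.  `x = σ c`, `σ : C → P` over `A`, `C` etale.  Make `A'` an `A`-algebra by `α`; `C' = A' ⊗[A] C` is
etale over `A'` (Mathlib `Algebra.Etale.baseChange`).  Make `P'` an `A`-algebra by
`(algebraMap A' P').comp α = ρ.comp (algebraMap A P)`; `ρ ∘ σ` is an `A`-algebra map `C → P'`, and
`Algebra.TensorProduct.lift (Algebra.ofId A' P') (ρ ∘ σ)` (or `AlgHom.liftEquiv`) is an `A'`-algebra map
`C' → P'` sending `1 ⊗ c` to `ρ x`.
EH4_equiv: apply EH4_map to the two isomorphisms and to their inverses.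
-/

set_option autoImplicit false
open IsLocalRing

namespace Pool.Agent.Lib.H61E
universe u

open scoped TensorProduct in
theorem EH4_set {A P A' P' : Type u} [CommRing A] [CommRing P] [Algebra A P] [CommRing A']
    [CommRing P'] [Algebra A' P'] (α : A →+* A') (ρ : P →+* P')
    (h : ∀ a, ρ (algebraMap A P a) = algebraMap A' P' (α a)) {x : P} (hx : x ∈ EhSet A P) :
    ρ x ∈ EhSet A' P' := by
  obtain ⟨C, iC1, iC2, iC3, σ, c, rfl⟩ := hx
  letI : Algebra A A' := α.toAlgebra
  letI : Algebra A P' := ((algebraMap A' P').comp α).toAlgebra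
  haveI : IsScalarTower A A' P' := IsScalarTower.of_algebraMap_eq' rfl
  let σ' : C →ₐ[A] P' :=
    { ρ.comp (σ : C →+* P) with
      commutes' := by
        intro r
        show ρ (σ (algebraMap A C r)) = algebraMap A' P' (α r)
        rw [AlgHom.commutes, h] }
  refine ⟨A' ⊗[A] C, inferInstance, inferInstance, inferInstance,
    Algebra.TensorProduct.lift (Algebra.ofId A' P') σ' (fun _ _ => Commute.all _ _), 1 ⊗ₜ[A] c, ?_⟩
  rw [Algebra.TensorProduct.lift_tmul, map_one, one_mul]
  rfl

theorem EH4_map {A P A' P' : Type u} [CommRing A] [CommRing P] [Algebra A P] [CommRing A']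
    [CommRing P'] [Algebra A' P'] (α : A →+* A') (ρ : P →+* P')
    (h : ∀ a, ρ (algebraMap A P a) = algebraMap A' P' (α a)) {x : P} (hx : x ∈ Eh A P) :
    ρ x ∈ Eh A' P' := by
  have hle : Eh A P ≤ (Eh A' P').comap ρ := by
    refine Subring.closure_le.2 fun y hy => ?_
    exact Subring.subset_closure (EH4_set α ρ h hy)
  exact hle hx

theorem EH4_equiv {A P A' P' : Type u} [CommRing A] [CommRing P] [Algebra A P] [CommRing A']
    [CommRing P'] [Algebra A' P'] (α : A ≃+* A') (ρ : P ≃+* P')
    (h : ∀ a, ρ (algebraMap A P a) = algebraMap A' P' (α a)) (x : P) :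
    x ∈ Eh A P ↔ ρ x ∈ Eh A' P' := by
  constructor
  · intro hx
    exact EH4_map (α : A →+* A') (ρ : P →+* P') h hx
  · intro hx
    have h' : ∀ a, (ρ.symm : P' →+* P) (algebraMap A' P' a) =
        algebraMap A P ((α.symm : A' →+* A) a) := by
      intro a
      have h1 := h (α.symm a)
      rw [RingEquiv.apply_symm_apply] at h1
      show ρ.symm (algebraMap A' P' a) = algebraMap A P (α.symm a)
      rw [← h1, RingEquiv.symm_apply_apply]
    have h2 := EH4_map (α.symm : A' →+* A) (ρ.symm : P' →+* P) h' hx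
    have h3 : (ρ.symm : P' →+* P) (ρ x) = x := ρ.symm_apply_apply x
    rwa [h3] at h2

end Pool.Agent.Lib.H61E
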