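import Pool.Agent.Lib.H61E.CC1
import Pool.Agent.Lib.H61E.CC2
import Pool.Agent.Lib.H61E.EH4

/-!
# CC3: the coordinate change property for `k[[x_0, ..., x_n]] = k[[x_1, ..., x_n]]⟦X⟧`

Notation: `P = MvPowerSeries (Fin n) k`, `e = MvPowerSeries.finSuccEquiv` (sends `X 0` to `X` and `X i.succ` to
`C (X i)`), `E₁ = Eh (MvPolynomial (Fin (n+1)) k) (MvPowerSeries (Fin (n+1)) k)`, `E' = e(E₁)`.

PROOF.  Let `f ∈ P⟦X⟧`, `f ≠ 0`, `f₀ = e.symm f ≠ 0`, `l` from CC2_main for `f₀`, `θ`, `α` from CC1_main for `l`.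
`Θ = e.symm.trans (θ.trans e)` (as ring isomorphisms).  `x ∈ E' ↔ e.symm x ∈ E₁ ↔ θ (e.symm x) ∈ E₁`
(EH4_equiv with `α`, `θ`; the algebra map `MvPolynomial → MvPowerSeries` is the coercion) `↔ Θ x ∈ E'`.
`X`-regular: let `ψ : MvPowerSeries (Fin (n+1)) k → k⟦X⟧` be `θ`, then `e`, then
`PowerSeries.map (constantCoeff)`, a `k`-algebra homomorphism (as in the statement of CC2:
`ψ (X 0) = X`, `ψ (X i.succ) = 0 + l i • X`), so `ψ f₀ ≠ 0`.  `PowerSeries.map (residue P) (Θ f) ≠ 0`: the
constant coefficient `P → k` has the maximal ideal as kernel (`MvPowerSeries.isUnit_iff_constantCoeff`), so if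
all coefficients of `Θ f` were in the maximal ideal, `ψ f₀` would be `0`.
-/

set_option autoImplicit false
open IsLocalRing

namespace Pool.Agent.Lib.H61E
universe u

private noncomputable def CC3_cc (k : Type u) [Field k] (n : ℕ) :
    MvPowerSeries (Fin n) k →ₐ[k] k where
  toRingHom := MvPowerSeries.constantCoeff
  commutes' := fun r => by
    simp [MvPowerSeries.algebraMap_apply]

theorem CC3_main {k : Type u} [Field k] [Infinite k] (n : ℕ) :
    CCp ((Eh (MvPolynomial (Fin (n + 1)) k) (MvPowerSeries (Fin (n + 1)) k)).map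
      (MvPowerSeries.finSuccEquiv k n).toRingEquiv.toRingHom) := by
  intro f hf
  obtain ⟨e, he⟩ : ∃ e, e = MvPowerSeries.finSuccEquiv k n := ⟨_, rfl⟩
  have he0 : e (MvPowerSeries.X 0) = PowerSeries.X := by
    rw [he]; exact MvPowerSeries.finSuccEquiv_X_zero
  have hes : ∀ i : Fin n, e (MvPowerSeries.X i.succ) = PowerSeries.C (MvPowerSeries.X i) := by
    intro i; rw [he]; exact MvPowerSeries.finSuccEquiv_X_succ i
  rw [← he]
  have hf0 : e.symm f ≠ 0 := fun h => hf (by
    have h1 := congrArg e h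
    rwa [AlgEquiv.apply_symm_apply, map_zero] at h1)
  obtain ⟨l, hl⟩ := CC2_main (e.symm f) hf0
  obtain ⟨θ, α, hθα, hθ0, hθs⟩ := CC1_main l
  have hmem : ∀ x : PowerSeries (MvPowerSeries (Fin n) k),
      x ∈ (Eh (MvPolynomial (Fin (n + 1)) k) (MvPowerSeries (Fin (n + 1)) k)).map
        e.toRingEquiv.toRingHom ↔
      e.symm x ∈ Eh (MvPolynomial (Fin (n + 1)) k) (MvPowerSeries (Fin (n + 1)) k) := by
    intro x
    rw [Subring.mem_map]
    constructor
    · rintro ⟨y, hy, rfl⟩
      have h1 : e.symm (e.toRingEquiv.toRingHom y) = y := e.symm_apply_apply y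
      rw [h1]
      exact hy
    · intro h
      exact ⟨e.symm x, h, e.apply_symm_apply x⟩
  have hα : ∀ a : MvPolynomial (Fin (n + 1)) k,
      θ.toRingEquiv (algebraMap (MvPolynomial (Fin (n + 1)) k)
        (MvPowerSeries (Fin (n + 1)) k) a) =
      algebraMap (MvPolynomial (Fin (n + 1)) k) (MvPowerSeries (Fin (n + 1)) k)
        (α.toRingEquiv a) := by
    intro a
    have h1 : ∀ b : MvPolynomial (Fin (n + 1)) k, algebraMap (MvPolynomial (Fin (n + 1)) k)
        (MvPowerSeries (Fin (n + 1)) k) b = (b : MvPowerSeries (Fin (n + 1)) k) := by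
      intro b
      rw [MvPowerSeries.algebraMap_apply', Algebra.algebraMap_self, MvPowerSeries.map_id]
      rfl
    rw [h1, h1]
    exact hθα a
  refine ⟨(e.symm.toRingEquiv.trans θ.toRingEquiv).trans e.toRingEquiv, ?_, ?_⟩
  · intro x
    rw [hmem, hmem, EH4_equiv α.toRingEquiv θ.toRingEquiv hα (e.symm x)]
    have h1 : e.symm (((e.symm.toRingEquiv.trans θ.toRingEquiv).trans e.toRingEquiv) x) =
        θ.toRingEquiv (e.symm x) := e.symm_apply_apply _
    rw [h1]
  · obtain ⟨ψ, hψ⟩ : ∃ ψ : MvPowerSeries (Fin (n + 1)) k →ₐ[k] PowerSeries k, ψ =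
        (PowerSeries.mapAlgHom (CC3_cc k n)).comp (e.toAlgHom.comp θ.toAlgHom) := ⟨_, rfl⟩
    have hψa : ∀ x, ψ x = PowerSeries.map (CC3_cc k n).toRingHom (e (θ x)) := by
      intro x; rw [hψ]; rfl
    have h0 : ψ (MvPowerSeries.X 0) = PowerSeries.X := by
      rw [hψa, hθ0, he0, PowerSeries.map_X]
    have hs : ∀ i : Fin n, ψ (MvPowerSeries.X i.succ) = l i • PowerSeries.X := by
      intro i
      have h1 : ψ (MvPowerSeries.X i.succ) = (PowerSeries.mapAlgHom (CC3_cc k n))
          (e (θ (MvPowerSeries.X i.succ))) := by rw [hψ]; rfl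
      rw [h1, hθs, map_add, map_add, map_smul, map_smul, he0, hes]
      have h2 : (PowerSeries.mapAlgHom (CC3_cc k n)) PowerSeries.X = PowerSeries.X :=
        PowerSeries.map_X _
      have h3 : (PowerSeries.mapAlgHom (CC3_cc k n)) (PowerSeries.C (MvPowerSeries.X i)) = 0 := by
        have h4 : (PowerSeries.mapAlgHom (CC3_cc k n)) (PowerSeries.C (MvPowerSeries.X i)) =
            PowerSeries.C ((CC3_cc k n) (MvPowerSeries.X i)) := PowerSeries.map_C _ _
        rw [h4]
        have h5 : (CC3_cc k n) (MvPowerSeries.X i) = 0 := MvPowerSeries.constantCoeff_X i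
        rw [h5, map_zero]
      rw [h2, h3, zero_add]
    have hne := hl ψ h0 hs
    intro hreg
    apply hne
    rw [hψa]
    ext d
    rw [PowerSeries.coeff_map, map_zero]
    have h6 := congrArg (PowerSeries.coeff d) hreg
    rw [PowerSeries.coeff_map, map_zero, residue_eq_zero_iff] at h6
    by_contra h7
    have h8 : IsUnit (PowerSeries.coeff d (e (θ (e.symm f)))) := by
      rw [MvPowerSeries.isUnit_iff_constantCoeff]
      exact isUnit_iff_ne_zero.2 h7
    exact (mem_maximalIdeal _).1 h6 h8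

end Pool.Agent.Lib.H61E
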