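import Pool.Agent.Lib.H61E.EH2

/-!
# EH3: `Eh A P` is closed under inverses and simple roots

PROOF.  inv: `x = σ c`, `σ : C → P`; `Localization.Away c` is etale over `C`
(`Algebra.Etale.of_isLocalizationAway` or the instance), so over `A`; `σ` extends (`σ c` is a unit,
`IsLocalization.Away.lift`, or the `AlgHom` version `IsLocalization.liftAlgHom`) and the image of the
inverse of `c` is an inverse of `x`; inverses are unique.
root: let `n = g.natDegree`; EH2_common for the coefficients `g_i`, `i : Fin n`: `C`, `σ`, `z`.  Put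
`G = X^n + ∑ i : Fin n, C (z i) * X^i`, monic (`Polynomial.monic_X_pow_add`, degree of the sum `< n`), and
`G.map σ = g` (compare coefficients; `g` monic).  Take the standard etale pair over `C` with `f = G`,
`g = derivative G`, `cond = ⟨1, 0, 1, by simp⟩`; `S := Q.Ring` is etale over `C`
(Mathlib `StandardEtalePair`), hence over `A` (give `S` the `A`-algebra structure
`((algebraMap C S).comp (algebraMap A C)).toAlgebra`, `IsScalarTower.of_algebraMap_eq'`,
`Algebra.Etale.comp A C S`).  With `P` as a `C`-algebra via `σ`, `Q.HasMap t` holds: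
`aeval t G = eval t (G.map σ) = 0` and the same for the derivative (`Polynomial.derivative_map`), so
`Q.lift t _ : S →ₐ[C] P` maps `Q.X` to `t`; it is `A`-linear.
-/

set_option autoImplicit false
open IsLocalRing

namespace Pool.Agent.Lib.H61E
universe u

theorem EH3_inv {A P : Type u} [CommRing A] [CommRing P] [Algebra A P] (x : P)
    (hx : x ∈ Eh A P) (y : P) (h : x * y = 1) : y ∈ Eh A P := by
  obtain ⟨C, _, _, _, σ, c, rfl⟩ := EH2_mem.1 hx
  have hu : IsUnit (σ c) := IsUnit.of_mul_eq_one _ h
  have hu' : ∀ z : Submonoid.powers c, IsUnit (σ z) := by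
    rintro ⟨z, n, rfl⟩
    have h1 : σ (c ^ n) = σ c ^ n := map_pow σ c n
    change IsUnit (σ (c ^ n))
    rw [h1]
    exact hu.pow n
  let L := Localization.Away c
  have h2 : Algebra.Etale C L := Algebra.Etale.of_isLocalizationAway c
  have h3 : Algebra.Etale A L := Algebra.Etale.comp A C L
  let τ : L →ₐ[A] P := IsLocalization.liftAlgHom (M := Submonoid.powers c) (f := σ) hu'
  have h4 : τ (algebraMap C L c) = σ c := by
    change IsLocalization.lift (M := Submonoid.powers c) (g := (σ : C →+* P)) hu' (algebraMap C L c) = σ c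
    exact IsLocalization.lift_eq hu' c
  have h5 : algebraMap C L c * IsLocalization.Away.invSelf c = 1 :=
    IsLocalization.Away.mul_invSelf c
  have h6 : σ c * τ (IsLocalization.Away.invSelf c) = 1 := by
    rw [← h4, ← map_mul, h5, map_one]
  have h7 : y = τ (IsLocalization.Away.invSelf c) := by
    calc y = y * (σ c * τ (IsLocalization.Away.invSelf c)) := by rw [h6, mul_one]
      _ = σ c * y * τ (IsLocalization.Away.invSelf c) := by ring
      _ = τ (IsLocalization.Away.invSelf c) := by rw [h, one_mul]
  exact EH2_mem.2 ⟨L, inferInstance, inferInstance, h3, τ, _, h7.symm⟩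

/-- the monic polynomial with given lower coefficients -/
private theorem EH3_lift {C P : Type u} [CommRing C] [CommRing P] (σ : C →+* P) (g : Polynomial P)
    (hg : g.Monic) (z : Fin g.natDegree → C) (hz : ∀ i, σ (z i) = g.coeff i) :
    ∃ G : Polynomial C, G.Monic ∧ G.map σ = g := by
  refine ⟨Polynomial.X ^ g.natDegree +
    ∑ i : Fin g.natDegree, Polynomial.C (z i) * Polynomial.X ^ (i : ℕ), ?_, ?_⟩
  · refine Polynomial.monic_X_pow_add ?_
    refine (Polynomial.degree_sum_fin_lt z)
  · rw [Polynomial.map_add, Polynomial.map_pow, Polynomial.map_X, Polynomial.map_sum]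
    have h1 : (∑ i : Fin g.natDegree,
        Polynomial.map σ (Polynomial.C (z i) * Polynomial.X ^ (i : ℕ))) =
        ∑ i ∈ Finset.range g.natDegree, Polynomial.C (g.coeff i) * Polynomial.X ^ i := by
      rw [Finset.sum_range]
      refine Finset.sum_congr rfl fun i _ => ?_
      rw [Polynomial.map_mul, Polynomial.map_pow, Polynomial.map_X, Polynomial.map_C, hz]
    rw [h1]
    exact hg.as_sum.symm

theorem EH3_root {A P : Type u} [CommRing A] [CommRing P] [Algebra A P] (g : Polynomial P)
    (hg : g.Monic) (hc : ∀ i, g.coeff i ∈ Eh A P) (t : P) (ht : g.eval t = 0)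
    (hu : IsUnit (g.derivative.eval t)) : t ∈ Eh A P := by
  obtain ⟨C, _, _, _, σ, z, hz⟩ := EH2_common (fun i : Fin g.natDegree => g.coeff i)
    (fun i => hc i)
  obtain ⟨G, hG, hGm⟩ := EH3_lift (σ : C →+* P) g hg z hz
  let Q : StandardEtalePair C := ⟨G, hG, Polynomial.derivative G, 1, 0, 1, by simp⟩
  let _ : Algebra A Q.Ring := ((algebraMap C Q.Ring).comp (algebraMap A C)).toAlgebra
  have hT : IsScalarTower A C Q.Ring := IsScalarTower.of_algebraMap_eq' rfl
  have h1 : Algebra.Etale A Q.Ring := Algebra.Etale.comp A C Q.Ring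
  let _ : Algebra C P := (σ : C →+* P).toAlgebra
  have hT' : IsScalarTower A C P := IsScalarTower.of_algebraMap_eq' σ.comp_algebraMap.symm
  have h2 : Q.HasMap t := by
    constructor
    · change Polynomial.aeval t G = 0
      rw [Polynomial.aeval_def, ← Polynomial.eval_map]
      change (G.map (σ : C →+* P)).eval t = 0
      rw [hGm, ht]
    · change IsUnit (Polynomial.aeval t (Polynomial.derivative G))
      rw [Polynomial.aeval_def, ← Polynomial.eval_map]
      change IsUnit (((Polynomial.derivative G).map (σ : C →+* P)).eval t)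
      rw [← Polynomial.derivative_map, hGm]
      exact hu
  exact EH2_mem.2 ⟨Q.Ring, inferInstance, inferInstance, h1, (Q.lift t h2).restrictScalars A, Q.X,
    Q.lift_X t h2⟩

theorem EH3_hc (A P : Type u) [CommRing A] [CommRing P] [Algebra A P] : HC (Eh A P) :=
  ⟨EH3_inv, EH3_root⟩

end Pool.Agent.Lib.H61E
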