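import Pool.Agent.Lib.H61E.Defs

/-!
# HN1: Hensel's lemma for non-monic polynomials, with the root in `E`

PROOF.  Let `g = ∑ g_j T^j`, `g_j ∈ E`, `g_0 ∈ m`, `g_1` a unit with inverse `b ∈ E` (HC.inv), and let
`n = max (natDegree g) 2`.  Put `c_j = (-1)^j g_j g_0^(j-1) b^j` for `j ≥ 2`; `c_j ∈ E ∩ m`.  Let
`h(W) = W^n - W^(n-1) + ∑_{2 ≤ j ≤ n} c_j W^(n-j)`, monic of degree `n` with coefficients in `E`.
`h(1) = ∑ c_j ∈ m` and `h'(1) = 1 + (element of m)` is a unit, so by Hensel's lemma
(`HenselianLocalRing.is_henselian`, `a₀ = 1`) there is a root `W` with `W - 1 ∈ m`; `W` is a unit and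
`h'(W)` is a unit (it is congruent to `h'(1)` modulo `m`), so `W ∈ E` by `HC.root`, and `V := W⁻¹ ∈ E` by
`HC.inv`.  Put `t = - g_0 b V ∈ E ∩ m`.  Then
`W^n g(t) = g_0 W^n + g_1 t W^n + ∑_{j ≥ 2} g_j t^j W^n = g_0 (W^n - W^(n-1) + ∑ c_j W^(n-j)) = g_0 h(W) = 0`
and `W` is a unit, so `g(t) = 0`.
(Any other proof is fine, e.g. first the root of `g` in `P`.)
-/

set_option autoImplicit false
open IsLocalRing

namespace Pool.Agent.Lib.H61E
universe u

private theorem hn1_monic {R : Type u} [CommRing R] (k : ℕ) (c : ℕ → R) :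
    (Polynomial.X ^ (k + 2) + (-Polynomial.X ^ (k + 1) +
      ∑ i ∈ Finset.range (k + 1), Polynomial.C (c i) * Polynomial.X ^ (k - i)) :
        Polynomial R).Monic := by
  apply Polynomial.monic_X_pow_add
  have h1 : (-Polynomial.X ^ (k + 1) +
      ∑ i ∈ Finset.range (k + 1), Polynomial.C (c i) * Polynomial.X ^ (k - i) : Polynomial R) ∈
        Polynomial.degreeLE R ((k + 1 : ℕ) : WithBot ℕ) := by
    apply Submodule.add_mem
    · apply Submodule.neg_mem
      rw [Polynomial.mem_degreeLE]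
      exact Polynomial.degree_X_pow_le _
    · apply Submodule.sum_mem
      intro i _
      rw [Polynomial.mem_degreeLE]
      refine le_trans (Polynomial.degree_C_mul_X_pow_le _ _) ?_
      exact_mod_cast (by omega : k - i ≤ k + 1)
  rw [Polynomial.mem_degreeLE] at h1
  refine lt_of_le_of_lt h1 ?_
  exact_mod_cast (by omega : k + 1 < k + 2)

theorem HN1_main {P : Type u} [CommRing P] [HenselianLocalRing P] (E : Subring P) (hE : HC E) :
    HN E := by
  intro g hgE hg0 hg1
  obtain ⟨b, hb⟩ : ∃ b, g.coeff 1 * b = 1 := hg1.exists_right_inv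
  have hbE : b ∈ E := hE.inv _ (hgE 1) b hb
  obtain ⟨k, hk⟩ : ∃ k, g.natDegree < k + 3 := ⟨g.natDegree, by omega⟩
  obtain ⟨c, hc⟩ : ∃ c : ℕ → E, ∀ i, (c i : P) =
      (-1) ^ (i + 2) * g.coeff (i + 2) * g.coeff 0 ^ (i + 1) * b ^ (i + 2) :=
    ⟨fun i => (-1) ^ (i + 2) * ⟨g.coeff (i + 2), hgE _⟩ * ⟨g.coeff 0, hgE _⟩ ^ (i + 1) *
      ⟨b, hbE⟩ ^ (i + 2), fun i => by simp⟩
  obtain ⟨h', hh'⟩ : ∃ h' : Polynomial E, h' = Polynomial.X ^ (k + 2) + (-Polynomial.X ^ (k + 1) +
      ∑ i ∈ Finset.range (k + 1), Polynomial.C (c i) * Polynomial.X ^ (k - i)) := ⟨_, rfl⟩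
  have hmon' : h'.Monic := by rw [hh']; exact hn1_monic k c
  obtain ⟨h, hh⟩ : ∃ h : Polynomial P, h = h'.map E.subtype := ⟨_, rfl⟩
  have hmon : h.Monic := by rw [hh]; exact hmon'.map _
  have hcoef : ∀ i, h.coeff i ∈ E := by
    intro i
    rw [hh, Polynomial.coeff_map]
    exact (h'.coeff i).2
  have hform : h = Polynomial.X ^ (k + 2) + (-Polynomial.X ^ (k + 1) +
      ∑ i ∈ Finset.range (k + 1), Polynomial.C (c i : P) * Polynomial.X ^ (k - i)) := by
    rw [hh, hh', Polynomial.map_add, Polynomial.map_add, Polynomial.map_neg, Polynomial.map_sum,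
      Polynomial.map_pow, Polynomial.map_pow, Polynomial.map_X]
    congr 2
    apply Finset.sum_congr rfl
    intro i _
    rw [Polynomial.map_mul, Polynomial.map_C, Polynomial.map_pow, Polynomial.map_X]
    rfl
  have hres0 : residue P (g.coeff 0) = 0 := (residue_eq_zero_iff _).mpr hg0
  have hcres : ∀ i, residue P (c i : P) = 0 := by
    intro i
    rw [hc i, map_mul, map_mul, map_pow (residue P) (g.coeff 0), hres0, zero_pow (by omega)]
    ring
  have hmap : h.map (residue P) = Polynomial.X ^ (k + 2) - Polynomial.X ^ (k + 1) := by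
    rw [hform, Polynomial.map_add, Polynomial.map_add, Polynomial.map_neg, Polynomial.map_sum,
      Polynomial.map_pow, Polynomial.map_pow, Polynomial.map_X, Finset.sum_eq_zero]
    · ring
    · intro i _
      rw [Polynomial.map_mul, Polynomial.map_C, hcres i, Polynomial.C_0, zero_mul]
  have hev : ∀ W : P, residue P W = 1 → residue P (h.eval W) = 0 := by
    intro W hW
    rw [← Polynomial.eval_map_apply, hmap, hW]
    simp
  have hder : ∀ W : P, residue P W = 1 → IsUnit (h.derivative.eval W) := by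
    intro W hW
    rw [← residue_ne_zero_iff_isUnit, ← Polynomial.eval_map_apply, ← Polynomial.derivative_map,
      hmap, hW]
    simp
  obtain ⟨W, hWroot, hW1⟩ := HenselianLocalRing.is_henselian h hmon 1
    ((residue_eq_zero_iff _).mp (hev 1 (map_one _))) (hder 1 (map_one _))
  have hWres : residue P W = 1 := by
    have h1 := (residue_eq_zero_iff _).mpr hW1
    rw [map_sub, map_one] at h1
    exact sub_eq_zero.mp h1
  have hWu : IsUnit W := by
    rw [← residue_ne_zero_iff_isUnit, hWres]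
    exact one_ne_zero
  have hWE : W ∈ E := hE.root h hmon hcoef W hWroot (hder W hWres)
  obtain ⟨V, hV⟩ := hWu.exists_right_inv
  have hVE : V ∈ E := hE.inv W hWE V hV
  refine ⟨-(g.coeff 0 * b * V), E.neg_mem (E.mul_mem (E.mul_mem (hgE 0) hbE) hVE), ?_, ?_⟩
  · exact Ideal.neg_mem_iff _ |>.mpr (Ideal.mul_mem_right _ _ (Ideal.mul_mem_right _ _ hg0))
  · have hroot : W ^ (k + 2) + (-W ^ (k + 1) +
        ∑ i ∈ Finset.range (k + 1), (c i : P) * W ^ (k - i)) = 0 := by
      have h1 : h.eval W = 0 := hWroot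
      rw [hform] at h1
      simpa [Polynomial.eval_finsetSum] using h1
    have hkey : W ^ (k + 2) * g.eval (-(g.coeff 0 * b * V)) = 0 := by
      rw [Polynomial.eval_eq_sum_range' hk, Finset.sum_range_succ', Finset.sum_range_succ',
        mul_add, mul_add, Finset.mul_sum]
      have e1 : ∀ i ∈ Finset.range (k + 1),
          W ^ (k + 2) * (g.coeff (i + 1 + 1) * (-(g.coeff 0 * b * V)) ^ (i + 1 + 1)) =
            g.coeff 0 * ((c i : P) * W ^ (k - i)) := by
        intro i hi
        have hi' : i < k + 1 := Finset.mem_range.mp hi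
        have e2 : W ^ (k + 2) * V ^ (i + 2) = W ^ (k - i) := by
          have e3 : k + 2 = (k - i) + (i + 2) := by omega
          rw [e3, pow_add, mul_assoc, ← mul_pow, hV, one_pow, mul_one]
        rw [hc i, ← e2]
        have e4 : (-(g.coeff 0 * b * V)) ^ (i + 1 + 1) =
            (-1) ^ (i + 2) * g.coeff 0 ^ (i + 2) * b ^ (i + 2) * V ^ (i + 2) := by
          rw [neg_pow, mul_pow, mul_pow]
          ring
        rw [e4]
        ring
      rw [Finset.sum_congr rfl e1, ← Finset.mul_sum]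
      have e5 : W ^ (k + 2) * (g.coeff (0 + 1) * (-(g.coeff 0 * b * V)) ^ (0 + 1)) =
          g.coeff 0 * (-W ^ (k + 1)) := by
        have e6 : W ^ (k + 2) * (g.coeff (0 + 1) * (-(g.coeff 0 * b * V)) ^ (0 + 1)) =
            g.coeff 0 * (-W ^ (k + 1)) * (g.coeff 1 * b) * (W * V) := by
          rw [zero_add]
          ring
        rw [e6, hb, hV, mul_one, mul_one]
      rw [e5, pow_zero, mul_one]
      linear_combination g.coeff 0 * hroot
    exact (hWu.pow (k + 2)).mul_right_eq_zero.mp hkey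

end Pool.Agent.Lib.H61E
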