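import Pool.Agent.Lib.H61E.Defs

/-!
# TP: transport along ring isomorphisms

PROOF.  Direct: `E.map e` is the image of `E`; polynomials are moved by `Polynomial.map`
(`Polynomial.eval_map`, `derivative_map`, `coeff_map`), the maximal ideal goes to the maximal ideal
(`IsLocalRing.map_nonunit`, units correspond), its powers to its powers (`Ideal.map_pow`); relations:
`MvPolynomial.aeval (e ∘ y) F = e (MvPolynomial.aeval y F)` (`MvPolynomial.map_aeval`, or the `ℤ`-algebra
homomorphism `e.toIntAlgHom`).
-/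

set_option autoImplicit false
open IsLocalRing

namespace Pool.Agent.Lib.H61E
universe u

variable {R R' : Type u} [CommRing R] [CommRing R']

theorem tp_symm_mem (e : R ≃+* R') (E : Subring R) (x : R') (h : x ∈ E.map e.toRingHom) :
    e.symm x ∈ E := by
  obtain ⟨y, hy, rfl⟩ := h
  have : e.symm (e.toRingHom y) = y := e.symm_apply_apply y
  rwa [this]

theorem tp_mem (e : R ≃+* R') (E : Subring R) (x : R') (h : e.symm x ∈ E) :
    x ∈ E.map e.toRingHom := ⟨e.symm x, h, e.apply_symm_apply x⟩

theorem tp_max [IsLocalRing R] [IsLocalRing R'] (e : R ≃+* R') (x : R)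
    (h : x ∈ maximalIdeal R) : e x ∈ maximalIdeal R' := by
  rw [mem_maximalIdeal, mem_nonunits_iff] at h ⊢
  intro h'
  apply h
  have h2 : IsUnit (e.symm (e x)) := h'.map e.symm
  rwa [e.symm_apply_apply] at h2

theorem tp_max_pow [IsLocalRing R] [IsLocalRing R'] (e : R ≃+* R') (c : ℕ) (x : R)
    (h : x ∈ maximalIdeal R ^ c) : e x ∈ maximalIdeal R' ^ c := by
  have h1 : (maximalIdeal R).map (e : R →+* R') ≤ maximalIdeal R' := by
    rw [Ideal.map_le_iff_le_comap]
    intro y hy
    exact tp_max e y hy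
  have h2 : (maximalIdeal R ^ c).map (e : R →+* R') ≤ maximalIdeal R' ^ c := by
    rw [Ideal.map_pow]
    exact Ideal.pow_right_mono h1 c
  exact h2 (Ideal.mem_map_of_mem _ h)

theorem tp_eval (e : R ≃+* R') (g : Polynomial R') (t : R') :
    (g.map (e.symm : R' →+* R)).eval (e.symm t) = e.symm (g.eval t) := by
  have := Polynomial.eval_map_apply (e.symm : R' →+* R) t (p := g)
  exact this

theorem TP_hc (e : R ≃+* R') (E : Subring R) (h : HC E) : HC (E.map e.toRingHom) := by
  constructor
  · intro x hx y hxy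
    apply tp_mem
    refine h.inv (e.symm x) (tp_symm_mem e E x hx) (e.symm y) ?_
    rw [← map_mul, hxy, map_one]
  · intro g hg hc t ht hu
    apply tp_mem
    refine h.root (g.map (e.symm : R' →+* R)) (hg.map _) (fun i => ?_) (e.symm t) ?_ ?_
    · rw [Polynomial.coeff_map]
      exact tp_symm_mem e E _ (hc i)
    · rw [tp_eval, ht, map_zero]
    · rw [Polynomial.derivative_map, tp_eval]
      exact hu.map e.symm

theorem TP_hn [IsLocalRing R] [IsLocalRing R'] (e : R ≃+* R') (E : Subring R) (h : HN E) :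
    HN (E.map e.toRingHom) := by
  intro g hc h0 h1
  obtain ⟨t, htE, htm, ht⟩ := h (g.map (e.symm : R' →+* R)) (fun i => by
    rw [Polynomial.coeff_map]
    exact tp_symm_mem e E _ (hc i)) (by
    rw [Polynomial.coeff_map]
    exact tp_max e.symm _ h0) (by
    rw [Polynomial.coeff_map]
    exact h1.map e.symm)
  refine ⟨e t, ⟨t, htE, rfl⟩, tp_max e t htm, ?_⟩
  have h2 := tp_eval e g (e t)
  rw [e.symm_apply_apply, ht] at h2
  have h3 : e (e.symm (g.eval (e t))) = e 0 := by rw [← h2]
  rwa [e.apply_symm_apply, map_zero] at h3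

theorem tp_aeval (e : R ≃+* R') {ι : Type*} (y : ι → R) (f : MvPolynomial ι ℤ) :
    MvPolynomial.aeval (fun i => e (y i)) f = e (MvPolynomial.aeval y f) := by
  have h := MvPolynomial.map_aeval y (e : R →+* R') f
  rw [MvPolynomial.aeval_def]
  have h2 : (e : R →+* R').comp (algebraMap ℤ R) = algebraMap ℤ R' := RingHom.ext_int _ _
  rw [h2] at h
  exact h.symm

theorem TP_az [IsLocalRing R] [IsLocalRing R'] (e : R ≃+* R') (E : Subring R)
    (h : AZ R' (E.map e.toRingHom)) : AZ R E := by
  intro N y c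
  obtain ⟨y', h1, h2, h3⟩ := h N (fun i => e (y i)) c
  refine ⟨fun i => e.symm (y' i), fun i => tp_symm_mem e E _ (h1 i), ?_, ?_⟩
  · intro f hf
    have h4 := h2 f (by rw [tp_aeval, hf, map_zero])
    rw [tp_aeval e.symm, h4, map_zero]
  · intro i
    have h5 := tp_max_pow e.symm c _ (h3 i)
    rwa [map_sub, e.symm_apply_apply] at h5

end Pool.Agent.Lib.H61E
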