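import Pool.Agent.Lib.H61E.IND2
import Pool.Agent.Lib.H61E.TP
import Pool.Agent.Lib.H61E.CC3
import Pool.Agent.Lib.H61E.EH3
import Pool.Agent.Lib.H61E.HN1

/-!
# AP: the approximation theorem for `k[x_1, ..., x_n] → k[[x_1, ..., x_n]]`, `k` a field of char 0

PROOF.  Induction on `n`; `A_n = MvPolynomial (Fin n) k`, `P_n = MvPowerSeries (Fin n) k`,
`E_n = Eh A_n P_n`.  `n = 0`: every element of `P_0` is a constant `C r`, the image of `C r ∈ A_0`, so it is
in `E_0` (EH2_algebraMap); take `y' = y`.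
Step: `e = finSuccEquiv : P_(n+1) ≃ P_n⟦X⟧`, `E' = E_(n+1).map e`.  By TP_az it suffices that
`AZ P_n⟦X⟧ E'`, IND2_main: `P_n` is Noetherian, local, a domain, `CharZero` (contains `k`), complete
(MX_complete).  `C x ∈ E'` for `x ∈ E_n`: `C x = e (e.symm (C x))` and `e.symm (C x) ∈ E_(n+1)` by EH4_map with
`α = MvPolynomial.rename Fin.succ`, `ρ = e.symm ∘ C`; the square commutes: both sides are
`k`-algebra homomorphisms `A_n → P_(n+1)` sending `X_i` to `X i.succ` (`MvPowerSeries.finSuccEquiv_X_succ`,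
`MvPolynomial.algHom_ext`; `finSuccEquiv_C`).  `X = e (X 0)`, EH2_algebraMap.  `HC E'`: EH3_hc and TP_hc.
`HN E'`: HN1_main (MX_hensel) and TP_hn.  `CCp E'`: CC3_main (`k` is infinite, `CharZero`).
-/

set_option autoImplicit false
open IsLocalRing

namespace Pool.Agent.Lib.H61E
universe u

theorem AP_algC {k : Type u} [Field k] {n : ℕ} (r : k) :
    algebraMap (MvPolynomial (Fin n) k) (MvPowerSeries (Fin n) k) (MvPolynomial.C r) = MvPowerSeries.C r := by
  rw [MvPowerSeries.algebraMap_apply', MvPolynomial.coe_C, MvPowerSeries.map_C]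
  rfl

theorem AP_algX {k : Type u} [Field k] {n : ℕ} (j : Fin n) :
    algebraMap (MvPolynomial (Fin n) k) (MvPowerSeries (Fin n) k) (MvPolynomial.X j) = MvPowerSeries.X j := by
  rw [MvPowerSeries.algebraMap_apply', MvPolynomial.coe_X, MvPowerSeries.map_X]

theorem AP_sq {k : Type u} [Field k] (n : ℕ) (a : MvPolynomial (Fin n) k) :
    ((MvPowerSeries.finSuccEquiv k n).toRingEquiv.symm.toRingHom.comp
      (PowerSeries.C : MvPowerSeries (Fin n) k →+* PowerSeries (MvPowerSeries (Fin n) k)))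
      (algebraMap (MvPolynomial (Fin n) k) (MvPowerSeries (Fin n) k) a) =
    algebraMap (MvPolynomial (Fin (n + 1)) k) (MvPowerSeries (Fin (n + 1)) k)
      ((MvPolynomial.rename Fin.succ : MvPolynomial (Fin n) k →ₐ[k] _).toRingHom a) := by
  induction a using MvPolynomial.induction_on with
  | C r =>
    rw [AP_algC]
    have h1 : (MvPolynomial.rename Fin.succ : MvPolynomial (Fin n) k →ₐ[k] _).toRingHom (MvPolynomial.C r) =
        (MvPolynomial.C r : MvPolynomial (Fin (n + 1)) k) := MvPolynomial.rename_C _ _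
    rw [h1, AP_algC]
    have h2 : (MvPowerSeries.finSuccEquiv k n) (MvPowerSeries.C r) = PowerSeries.C (MvPowerSeries.C r) :=
      MvPowerSeries.finSuccEquiv_C r
    change (MvPowerSeries.finSuccEquiv k n).symm (PowerSeries.C (MvPowerSeries.C r)) = _
    rw [← h2, AlgEquiv.symm_apply_apply]
  | add p q hp hq =>
    simp only [map_add]
    rw [hp, hq]
  | mul_X p j hp =>
    simp only [map_mul]
    rw [hp, AP_algX]
    have h1 : (MvPolynomial.rename Fin.succ : MvPolynomial (Fin n) k →ₐ[k] _).toRingHom (MvPolynomial.X j) =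
        (MvPolynomial.X j.succ : MvPolynomial (Fin (n + 1)) k) := MvPolynomial.rename_X _ _
    rw [h1, AP_algX]
    congr 1
    have h2 : (MvPowerSeries.finSuccEquiv k n) (MvPowerSeries.X j.succ) = PowerSeries.C (MvPowerSeries.X j) :=
      MvPowerSeries.finSuccEquiv_X_succ j
    change (MvPowerSeries.finSuccEquiv k n).symm (PowerSeries.C (MvPowerSeries.X j)) = _
    rw [← h2, AlgEquiv.symm_apply_apply]

theorem AP_C {k : Type u} [Field k] (n : ℕ) (x : MvPowerSeries (Fin n) k)
    (hx : x ∈ Eh (MvPolynomial (Fin n) k) (MvPowerSeries (Fin n) k)) :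
    PowerSeries.C x ∈ (Eh (MvPolynomial (Fin (n + 1)) k) (MvPowerSeries (Fin (n + 1)) k)).map
      (MvPowerSeries.finSuccEquiv k n).toRingEquiv.toRingHom := by
  refine Subring.mem_map.2 ⟨(MvPowerSeries.finSuccEquiv k n).toRingEquiv.symm (PowerSeries.C x),
    EH4_map _ ((MvPowerSeries.finSuccEquiv k n).toRingEquiv.symm.toRingHom.comp
      (PowerSeries.C : MvPowerSeries (Fin n) k →+* PowerSeries (MvPowerSeries (Fin n) k))) (AP_sq n) hx, ?_⟩
  exact RingEquiv.apply_symm_apply _ _

theorem AP_zero {k : Type u} [Field k] (x : MvPowerSeries (Fin 0) k) :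
    x ∈ Eh (MvPolynomial (Fin 0) k) (MvPowerSeries (Fin 0) k) := by
  have h : x = algebraMap (MvPolynomial (Fin 0) k) (MvPowerSeries (Fin 0) k)
      (MvPolynomial.C (MvPowerSeries.constantCoeff x)) := by
    rw [AP_algC]
    ext e
    have he : e = 0 := Subsingleton.elim _ _
    rw [he, MvPowerSeries.coeff_zero_C]
    rfl
  rw [h]
  exact EH2_algebraMap _

theorem AP_main {k : Type u} [Field k] [CharZero k] (n : ℕ) :
    AZ (MvPowerSeries (Fin n) k) (Eh (MvPolynomial (Fin n) k) (MvPowerSeries (Fin n) k)) := by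
  induction n with
  | zero =>
    intro N y c
    refine ⟨y, fun i => AP_zero (y i), fun f h => h, fun i => ?_⟩
    rw [sub_self]
    exact Ideal.zero_mem _
  | succ n ih =>
    have : IsDomain (MvPowerSeries (Fin n) k) := NoZeroDivisors.to_isDomain _
    have : CharZero (MvPowerSeries (Fin n) k) :=
      charZero_of_injective_algebraMap (algebraMap k (MvPowerSeries (Fin n) k)).injective
    have : IsAdicComplete (maximalIdeal (MvPowerSeries (Fin n) k)) (MvPowerSeries (Fin n) k) := MX_complete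
    have : HenselianLocalRing (MvPowerSeries (Fin (n + 1)) k) := MX_hensel
    have hHC : HC (Eh (MvPolynomial (Fin (n + 1)) k) (MvPowerSeries (Fin (n + 1)) k)) := EH3_hc _ _
    apply TP_az (MvPowerSeries.finSuccEquiv k n).toRingEquiv
    refine IND2_main ih (fun x hx => AP_C n x hx) ?_ (TP_hc _ _ hHC) (TP_hn _ _ (HN1_main _ hHC)) (CC3_main n)
    refine Subring.mem_map.2 ⟨MvPowerSeries.X 0, ?_, MvPowerSeries.finSuccEquiv_X_zero⟩
    rw [← AP_algX]
    exact EH2_algebraMap _

end Pool.Agent.Lib.H61E
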