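import Pool.Agent.Lib.H61E.Defs

/-!
# AR: Eisenbud's lemma on adic approximation, one exact spot

`P` Noetherian local, `D : P^a → P^b`, `E : P^b → P^c` with `E D = 0`, exact in the middle.  If `D'`, `E'`
are close enough to `D`, `E` and `E' D' = 0` then `D'`, `E'` are exact in the middle.

PROOF.  Write `m` for the maximal ideal, `F_2 = P^a`, `F_1 = P^b`, `F_0 = P^c` (function types).  By
Artin-Rees (`Ideal.exists_pow_inf_eq_pow_smul`) there are `s`, `s'` with
`m^(n+s) F_0 ∩ im E ⊂ m^n im E` and `m^(n+s') F_1 ∩ im D ⊂ m^n im D` for all `n ≥ 0`.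
(`m^n • im E = E(m^n • ⊤)` by `Submodule.map_smul''`; the elements of `m^n • ⊤` of `ι → P`, `ι` finite,
are the vectors with all entries in `m^n`.)  Put `c = max s s' + 1`.  Let `D' = D + d`, `E' = E + e`
with the entries of `d`, `e` in `m^c`.

Claim: for all `j`, `a ∈ ker E'` with entries in `m^j` there is `b ∈ F_2` with `a - D' b ∈ m^(j+1) F_1`.
Proof: `E a = - e a ∈ m^(c+j) F_0 ∩ im E ⊂ m^(c+j-s) im E`, so `E a = E a_2`, `a_2 ∈ m^(c+j-s) F_1`, and
`c + j - s ≥ j + 1`.  `a - a_2 ∈ ker E = im D` and its entries are in `m^j`; if `j ≥ s'` it is in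
`m^(j-s') im D`, so `a - a_2 = D b`, `b ∈ m^(j-s') F_2` (if `j < s'` take any `b`, `j - s' = 0` in `ℕ`).
Then `a - D' b = a_2 - d b`, entries in `m^(j+1)` since `c + (j - s') ≥ j + 1`.
As `E' D' = 0`, `a - D' b ∈ ker E'` again; so by induction `ker E' ⊂ im D' + m^j F_1` for all `j`, and
`ker E' ⊂ im D'` by Krull (`F_1 / im D'` is a finite module over a Noetherian local ring; `IsHausdorff`
of `(Fin b → P) ⧸ range D'`, `Ideal.iInf_pow_smul_eq_bot_of_isLocalRing`).
-/

set_option autoImplicit false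
open IsLocalRing

namespace Pool.Agent.Lib.H61E
universe u

private theorem AR_mem {P : Type u} [CommRing P] {i : Type*} [Fintype i] (I : Ideal P)
    (v : i → P) : v ∈ I • (⊤ : Submodule P (i → P)) ↔ ∀ k, v k ∈ I := by
  classical
  constructor
  · intro hv
    refine Submodule.smul_induction_on (p := fun w => ∀ k, w k ∈ I) hv ?_ ?_
    · intro r hr n _ k
      exact Ideal.mul_mem_right _ _ hr
    · intro x y hx hy k
      exact I.add_mem (hx k) (hy k)
  · intro hv
    have h1 : v = ∑ k, v k • (Pi.single k 1 : i → P) := by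
      funext j
      simp [Finset.sum_apply, Pi.single_apply]
    rw [h1]
    exact Submodule.sum_mem _ fun k _ => Submodule.smul_mem_smul (hv k) trivial

private theorem AR_rees {P : Type u} [CommRing P] [IsNoetherianRing P] (m : Ideal P) {a b : Type*}
    [Fintype a] [Fintype b] (L : (a → P) →ₗ[P] (b → P)) :
    ∃ s : ℕ, ∀ n : ℕ, ∀ w : a → P, (∀ k, L w k ∈ m ^ (n + s)) →
      ∃ w' : a → P, (∀ k, w' k ∈ m ^ n) ∧ L w' = L w := by
  obtain ⟨s, hs⟩ := Ideal.exists_pow_inf_eq_pow_smul m (LinearMap.range L)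
  refine ⟨s, fun n w hw => ?_⟩
  have h1 : L w ∈ m ^ (n + s) • (⊤ : Submodule P (b → P)) ⊓ LinearMap.range L :=
    ⟨(AR_mem _ _).2 hw, ⟨w, rfl⟩⟩
  rw [hs (n + s) (Nat.le_add_left _ _), Nat.add_sub_cancel] at h1
  have h2 : L w ∈ m ^ n • LinearMap.range L :=
    Submodule.smul_mono le_rfl inf_le_right h1
  rw [LinearMap.range_eq_map, ← Submodule.map_smul''] at h2
  obtain ⟨w', hw', hLw⟩ := h2
  exact ⟨w', (AR_mem _ _).1 hw', hLw⟩

private theorem AR_mv {P : Type u} [CommRing P] {a b : Type*} [Fintype a] (I J : Ideal P)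
    (d : Matrix b a P) (w : a → P) (hd : ∀ i j, d i j ∈ I) (hw : ∀ j, w j ∈ J) (i : b) :
    d.mulVec w i ∈ I * J := by
  rw [Matrix.mulVec, dotProduct]
  exact Ideal.sum_mem _ fun j _ => Ideal.mul_mem_mul (hd i j) (hw j)

theorem AR_main {P : Type u} [CommRing P] [IsNoetherianRing P] [IsLocalRing P] {a b c : Type*}
    [Fintype a] [Fintype b] [Fintype c] (D : Matrix b a P) (E : Matrix c b P) (h0 : E * D = 0)
    (hex : ExM ⊥ D E) : ∃ n : ℕ, ∀ (D' : Matrix b a P) (E' : Matrix c b P), E' * D' = 0 →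
      (∀ i j, D' i j - D i j ∈ maximalIdeal P ^ n) →
      (∀ i j, E' i j - E i j ∈ maximalIdeal P ^ n) → ExM ⊥ D' E' := by
  classical
  set m := maximalIdeal P with hm
  obtain ⟨s, hs⟩ := AR_rees m E.mulVecLin
  obtain ⟨s', hs'⟩ := AR_rees m D.mulVecLin
  refine ⟨max s s' + 1, fun D' E' h0' hD hE => ?_⟩
  set c' := max s s' + 1 with hc'
  -- the approximation step
  have step : ∀ j : ℕ, ∀ x : b → P, (∀ i, E'.mulVec x i = 0) → (∀ k, x k ∈ m ^ j) →
      ∃ w : a → P, ∀ k, (x - D'.mulVec w) k ∈ m ^ (j + 1) := by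
    intro j x hx hxj
    have h1 : ∀ i, E.mulVecLin x i ∈ m ^ ((j + 1) + s) := by
      intro i
      have h2 : E.mulVec x i = - ((E' - E).mulVec x i) := by
        rw [Matrix.sub_mulVec, Pi.sub_apply, hx i]
        ring
      rw [Matrix.mulVecLin_apply, h2]
      have h3 := AR_mv (m ^ c') (m ^ j) (E' - E) x (fun i k => hE i k) hxj i
      rw [← pow_add] at h3
      refine Ideal.neg_mem_iff _ |>.2 (Ideal.pow_le_pow_right ?_ h3)
      have := le_max_left s s'
      omega
    obtain ⟨x2, hx2, hEx2⟩ := hs (j + 1) x h1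
    have h4 : ∀ i, E.mulVec (x - x2) i ∈ (⊥ : Ideal P) := by
      intro i
      rw [Matrix.mulVec_sub]
      have h5 := congrFun hEx2 i
      rw [Matrix.mulVecLin_apply, Matrix.mulVecLin_apply] at h5
      rw [Pi.sub_apply, h5, sub_self]
      exact Ideal.zero_mem _
    obtain ⟨w0, hw0⟩ := hex _ h4
    have h6 : D.mulVecLin w0 = x - x2 := by
      funext i
      have h7 := hw0 i
      rw [Ideal.mem_bot, sub_eq_zero] at h7
      rw [Matrix.mulVecLin_apply, ← h7]
    have h8 : ∃ w : a → P, (∀ k, w k ∈ m ^ (j - s')) ∧ D.mulVecLin w = D.mulVecLin w0 := by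
      by_cases hjs : s' ≤ j
      · refine hs' (j - s') w0 ?_
        intro k
        rw [h6, Nat.sub_add_cancel hjs]
        exact Ideal.sub_mem _ (hxj k) (Ideal.pow_le_pow_right (Nat.le_succ j) (hx2 k))
      · refine ⟨w0, fun k => ?_, rfl⟩
        rw [Nat.sub_eq_zero_of_le (not_le.1 hjs).le, pow_zero, Ideal.one_eq_top]
        exact Submodule.mem_top
    obtain ⟨w, hw, hDw⟩ := h8
    refine ⟨w, fun k => ?_⟩
    have h9 : (x - D'.mulVec w) k = x2 k - (D' - D).mulVec w k := by
      have h10 := congrFun (hDw.trans h6) k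
      rw [Matrix.mulVecLin_apply, Pi.sub_apply] at h10
      rw [Matrix.sub_mulVec, Pi.sub_apply, Pi.sub_apply, h10]
      ring
    rw [h9]
    refine Ideal.sub_mem _ (hx2 k) ?_
    have h11 := AR_mv (m ^ c') (m ^ (j - s')) (D' - D) w (fun i k => hD i k) hw k
    rw [← pow_add] at h11
    refine Ideal.pow_le_pow_right ?_ h11
    have := le_max_right s s'
    omega
  have hED : ∀ w : a → P, E'.mulVec (D'.mulVec w) = 0 := by
    intro w
    rw [Matrix.mulVec_mulVec, h0', Matrix.zero_mulVec]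
  intro v hv
  have hv0 : ∀ i, E'.mulVec v i = 0 := fun i => (Ideal.mem_bot).1 (hv i)
  have ind : ∀ j : ℕ, ∃ w : a → P, ∀ k, (v - D'.mulVec w) k ∈ m ^ j := by
    intro j
    induction j with
    | zero =>
      refine ⟨0, fun k => ?_⟩
      rw [pow_zero, Ideal.one_eq_top]
      exact Submodule.mem_top
    | succ j ih =>
      obtain ⟨w, hw⟩ := ih
      obtain ⟨w', hw'⟩ := step j (v - D'.mulVec w) (fun i => by
        rw [Matrix.mulVec_sub, hED w, sub_zero]; exact hv0 i) hw
      refine ⟨w + w', fun k => ?_⟩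
      have h12 : (v - D'.mulVec (w + w')) k = (v - D'.mulVec w - D'.mulVec w') k := by
        rw [Matrix.mulVec_add]
        simp only [Pi.sub_apply, Pi.add_apply]
        ring
      rw [h12]
      exact hw' k
  have hmem : v ∈ LinearMap.range D'.mulVecLin := by
    rw [← Submodule.Quotient.mk_eq_zero]
    have h13 := Ideal.iInf_pow_smul_eq_bot_of_isLocalRing
      (M := (b → P) ⧸ LinearMap.range D'.mulVecLin) m (Ideal.IsPrime.ne_top inferInstance)
    rw [← Submodule.mem_bot (R := P), ← h13, Submodule.mem_iInf]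
    intro j
    obtain ⟨w, hw⟩ := ind j
    have h14 : (Submodule.Quotient.mk v : (b → P) ⧸ LinearMap.range D'.mulVecLin) =
        Submodule.Quotient.mk (v - D'.mulVec w) := by
      rw [Submodule.Quotient.eq]
      refine ⟨w, ?_⟩
      rw [Matrix.mulVecLin_apply, sub_sub_cancel]
    rw [h14]
    have h15 : (m ^ j • (⊤ : Submodule P ((b → P) ⧸ LinearMap.range D'.mulVecLin))) =
        (m ^ j • (⊤ : Submodule P (b → P))).map (LinearMap.range D'.mulVecLin).mkQ := by
      rw [Submodule.map_smul'', Submodule.map_top, Submodule.range_mkQ]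
    rw [h15]
    exact ⟨_, (AR_mem _ _).2 hw, rfl⟩
  obtain ⟨w, hw⟩ := hmem
  refine ⟨w, fun i => ?_⟩
  rw [← hw, Matrix.mulVecLin_apply, sub_self]
  exact Ideal.zero_mem _

end Pool.Agent.Lib.H61E
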