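import Pool.Agent.Lib.H61E.Defs

/-!
# CC1: linear coordinate changes of `k[[x_0, ..., x_n]]`

PROOF.  For `l : Fin n → k` let `a_l : Fin (n+1) → MvPowerSeries (Fin (n+1)) k`, `a_l 0 = X 0`,
`a_l i.succ = X i.succ + l i • X 0`; constant coefficients vanish, so `HasSubst a_l`
(`MvPowerSeries.hasSubst_of_constantCoeff_zero`).  `θ = substAlgHom` of `a_l`, inverse `substAlgHom` of
`a_{-l}` (`MvPowerSeries.substAlgHom_comp_substAlgHom_apply`, `subst_self`: the composite substitutes
`a_{-l}` into `a_l`, which gives `X`).  `α = MvPolynomial.aeval` of the same linear forms, inverse with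
`-l` (`MvPolynomial.algHom_ext`).  Compatibility: `MvPowerSeries.substAlgHom_coe`.
-/

set_option autoImplicit false
open IsLocalRing

namespace Pool.Agent.Lib.H61E
universe u

/-- the linear forms, as power series. -/
noncomputable def CC1_a {k : Type u} [Field k] {n : ℕ} (l : Fin n → k) :
    Fin (n + 1) → MvPowerSeries (Fin (n + 1)) k :=
  Fin.cons (MvPowerSeries.X 0) fun i => MvPowerSeries.X i.succ + l i • MvPowerSeries.X 0

/-- the linear forms, as polynomials. -/
noncomputable def CC1_b {k : Type u} [Field k] {n : ℕ} (l : Fin n → k) :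
    Fin (n + 1) → MvPolynomial (Fin (n + 1)) k :=
  Fin.cons (MvPolynomial.X 0) fun i => MvPolynomial.X i.succ + l i • MvPolynomial.X 0

theorem CC1_hs {k : Type u} [Field k] {n : ℕ} (l : Fin n → k) :
    MvPowerSeries.HasSubst (CC1_a l) := by
  refine MvPowerSeries.hasSubst_of_constantCoeff_zero fun s => ?_
  refine Fin.cases ?_ (fun i => ?_) s
  · simp [CC1_a]
  · simp [CC1_a, MvPowerSeries.smul_eq_C_mul]

theorem CC1_inv {k : Type u} [Field k] {n : ℕ} (l l' : Fin n → k) (h : ∀ i, l i + l' i = 0) :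
    (MvPowerSeries.substAlgHom (R := k) (CC1_hs l')).comp
      (MvPowerSeries.substAlgHom (R := k) (CC1_hs l)) = AlgHom.id k _ := by
  refine AlgHom.ext fun f => ?_
  rw [AlgHom.comp_apply, MvPowerSeries.substAlgHom_apply, MvPowerSeries.substAlgHom_apply,
    MvPowerSeries.subst_comp_subst_apply (CC1_hs l) (CC1_hs l')]
  have h1 : (fun s => MvPowerSeries.subst (R := k) (CC1_a l') (CC1_a l s)) = MvPowerSeries.X := by
    funext s
    refine Fin.cases ?_ (fun i => ?_) s
    · show MvPowerSeries.subst (CC1_a l') (MvPowerSeries.X 0) = _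
      rw [MvPowerSeries.subst_X (CC1_hs l')]
      rfl
    · show MvPowerSeries.subst (CC1_a l') (MvPowerSeries.X i.succ + l i • MvPowerSeries.X 0) = _
      rw [MvPowerSeries.subst_add (CC1_hs l'), MvPowerSeries.subst_smul (CC1_hs l'),
        MvPowerSeries.subst_X (CC1_hs l'), MvPowerSeries.subst_X (CC1_hs l')]
      show MvPowerSeries.X i.succ + l' i • MvPowerSeries.X 0 + l i • MvPowerSeries.X 0 = _
      rw [add_assoc, ← add_smul, add_comm (l' i), h i, zero_smul, add_zero]
  rw [h1, MvPowerSeries.subst_self]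
  rfl

theorem CC1_inv' {k : Type u} [Field k] {n : ℕ} (l l' : Fin n → k) (h : ∀ i, l i + l' i = 0) :
    (MvPolynomial.aeval (R := k) (CC1_b l')).comp
      (MvPolynomial.aeval (R := k) (CC1_b l)) = AlgHom.id k _ := by
  refine MvPolynomial.algHom_ext fun s => ?_
  rw [AlgHom.comp_apply, MvPolynomial.aeval_X, AlgHom.id_apply]
  refine Fin.cases ?_ (fun i => ?_) s
  · show MvPolynomial.aeval (CC1_b l') (MvPolynomial.X 0) = _
    rw [MvPolynomial.aeval_X]
    rfl
  · show MvPolynomial.aeval (CC1_b l') (MvPolynomial.X i.succ + l i • MvPolynomial.X 0) = _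
    rw [map_add, map_smul, MvPolynomial.aeval_X, MvPolynomial.aeval_X]
    show MvPolynomial.X i.succ + l' i • MvPolynomial.X 0 + l i • MvPolynomial.X 0 = _
    rw [add_assoc, ← add_smul, add_comm (l' i), h i, zero_smul, add_zero]

theorem CC1_coe {k : Type u} [Field k] {n : ℕ} (l : Fin n → k)
    (p : MvPolynomial (Fin (n + 1)) k) :
    MvPolynomial.aeval (R := k) (CC1_a l) p =
      ((MvPolynomial.aeval (R := k) (CC1_b l) p : MvPolynomial (Fin (n + 1)) k) :
        MvPowerSeries (Fin (n + 1)) k) := by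
  have h1 : MvPolynomial.aeval (R := k) (CC1_a l) =
      (MvPolynomial.coeToMvPowerSeries.algHom (σ := Fin (n + 1)) (R := k) k).comp
        (MvPolynomial.aeval (R := k) (CC1_b l)) := by
    refine MvPolynomial.algHom_ext fun s => ?_
    rw [AlgHom.comp_apply, MvPolynomial.aeval_X, MvPolynomial.aeval_X]
    refine Fin.cases ?_ (fun i => ?_) s
    · simp [CC1_a, CC1_b]
    · simp [CC1_a, CC1_b, MvPowerSeries.smul_eq_C_mul, MvPolynomial.smul_eq_C_mul]
  rw [h1, AlgHom.comp_apply]
  simp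

theorem CC1_main {k : Type u} [Field k] {n : ℕ} (l : Fin n → k) :
    ∃ (θ : MvPowerSeries (Fin (n + 1)) k ≃ₐ[k] MvPowerSeries (Fin (n + 1)) k)
      (α : MvPolynomial (Fin (n + 1)) k ≃ₐ[k] MvPolynomial (Fin (n + 1)) k),
      (∀ p : MvPolynomial (Fin (n + 1)) k, θ (p : MvPowerSeries (Fin (n + 1)) k) =
        ((α p : MvPolynomial (Fin (n + 1)) k) : MvPowerSeries (Fin (n + 1)) k)) ∧
      θ (MvPowerSeries.X 0) = MvPowerSeries.X 0 ∧
      ∀ i : Fin n, θ (MvPowerSeries.X i.succ) =
        MvPowerSeries.X i.succ + l i • MvPowerSeries.X 0 := by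
  refine ⟨AlgEquiv.ofAlgHom (MvPowerSeries.substAlgHom (R := k) (CC1_hs l))
    (MvPowerSeries.substAlgHom (R := k) (CC1_hs (-l)))
    (CC1_inv (-l) l fun i => neg_add_cancel _) (CC1_inv l (-l) fun i => add_neg_cancel _),
    AlgEquiv.ofAlgHom (MvPolynomial.aeval (R := k) (CC1_b l))
    (MvPolynomial.aeval (R := k) (CC1_b (-l)))
    (CC1_inv' (-l) l fun i => neg_add_cancel _) (CC1_inv' l (-l) fun i => add_neg_cancel _),
    fun p => ?_, ?_, fun i => ?_⟩
  · rw [AlgEquiv.ofAlgHom_apply, AlgEquiv.ofAlgHom_apply, MvPowerSeries.substAlgHom_coe]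
    exact CC1_coe l p
  · rw [AlgEquiv.ofAlgHom_apply, MvPowerSeries.substAlgHom_X]
    rfl
  · rw [AlgEquiv.ofAlgHom_apply, MvPowerSeries.substAlgHom_X]
    rfl

end Pool.Agent.Lib.H61E
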