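import Pool.Agent.Lib.H61E.Defs

/-!
# CH: Cohen's structure theorem in characteristic zero

`CH_coeff`: a complete local `ℚ`-algebra has a coefficient field.  `CH_gen`: a complete local
`ℚ`-algebra with finitely generated maximal ideal is a quotient of a power series ring over a field
of characteristic zero.  `CH0`: the completion of a Noetherian local `ℚ`-algebra is Noetherian.
-/

set_option autoImplicit false
open IsLocalRing

namespace Pool.Agent.Lib.H61E
universe u

theorem CH_smooth (K : Type u) [Field K] [Algebra ℚ K] : Algebra.FormallySmooth ℚ K := by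
  obtain ⟨s, hs⟩ := exists_isTranscendenceBasis ℚ K
  have : Algebra.IsAlgebraic (IntermediateField.adjoin ℚ (Set.range ((↑) : s → K))) K :=
    hs.isAlgebraic_field
  exact Algebra.FormallySmooth.of_algebraicIndependent_of_isSeparable hs.1

theorem CH_coeff (S : Type u) [CommRing S] [IsLocalRing S] [Algebra ℚ S]
    [IsAdicComplete (maximalIdeal S) S] :
    ∃ g : ResidueField S →+* S, ∀ a, residue S (g a) = a := by
  have := CH_smooth (ResidueField S)
  obtain ⟨g, hg⟩ := Algebra.FormallySmooth.exists_mkₐ_comp_eq_of_isAdicComplete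
    (I := maximalIdeal S) (AlgHom.id ℚ (ResidueField S))
  exact ⟨g.toRingHom, fun a => DFunLike.congr_fun hg a⟩

/-- Evaluation of power series at elements of a complete ideal. -/
theorem CH_eval {K S : Type u} [CommRing K] [CommRing S] (I : Ideal S) [IsAdicComplete I S]
    (g : K →+* S) {d : ℕ} (x : Fin d → S) (hx : ∀ i, x i ∈ I) :
    ∃ π : MvPowerSeries (Fin d) K →+* S, (∀ i, π (MvPowerSeries.X i) = x i) ∧
      ∀ a, π (MvPowerSeries.C a) = g a := by
  let φ : MvPolynomial (Fin d) K →+* S := MvPolynomial.eval₂Hom g x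
  have hI : ∀ n, MvPolynomial.idealOfVars (Fin d) K ^ n ≤ Ideal.comap φ (I ^ n) := by
    intro n
    have h1 : MvPolynomial.idealOfVars (Fin d) K ≤ Ideal.comap φ I := by
      rw [MvPolynomial.idealOfVars, Ideal.span_le]
      rintro _ ⟨i, rfl⟩
      change φ (MvPolynomial.X i) ∈ I
      simpa [φ] using hx i
    exact (Ideal.pow_right_mono h1 n).trans (Ideal.le_comap_pow φ n)
  let F : (n : ℕ) → MvPowerSeries (Fin d) K →+* S ⧸ I ^ n := fun n =>
    (Ideal.quotientMap (I ^ n) φ (hI n)).comp
      (MvPowerSeries.truncTotalAlgHom (Fin d) K n).toRingHom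
  have hF : ∀ n p, F n p = Ideal.Quotient.mk (I ^ n) (φ (MvPowerSeries.truncTotal n p)) := by
    intro n p
    rfl
  have hc : ∀ {m n : ℕ} (hle : m ≤ n),
      (Ideal.Quotient.factorPow I hle).comp (F n) = F m := by
    intro m n hle
    ext p
    rw [RingHom.comp_apply, hF, hF]
    change Ideal.Quotient.mk (I ^ m) (φ (MvPowerSeries.truncTotal n p)) = _
    rw [Ideal.Quotient.eq, ← map_sub]
    exact hI m (MvPowerSeries.truncTotal_sub_truncTotal_mem_pow_idealOfVars hle le_rfl p)
  let π := IsAdicComplete.liftRingHom I F hc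
  have key : ∀ q : MvPolynomial (Fin d) K, π (q : MvPowerSeries (Fin d) K) = φ q := by
    intro q
    have : ∀ n, π (q : MvPowerSeries (Fin d) K) - φ q ∈ I ^ n := by
      intro n
      rw [← Ideal.Quotient.eq]
      have h2 : Ideal.Quotient.mk (I ^ n) (π (q : MvPowerSeries (Fin d) K)) = F n q :=
        IsAdicComplete.mk_liftRingHom I F hc n _
      rw [h2, hF, Ideal.Quotient.eq, ← map_sub]
      refine hI n ?_
      rw [MvPolynomial.mem_pow_idealOfVars_iff']
      intro y hy
      rw [MvPolynomial.coeff_sub, sub_eq_zero, MvPowerSeries.coeff_truncTotal _ hy,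
        MvPolynomial.coeff_coe]
    have h0 : π (q : MvPowerSeries (Fin d) K) - φ q = 0 :=
      IsHausdorff.haus' (I := I) _ fun n => by
        rw [SModEq.zero]
        simpa using this n
    exact sub_eq_zero.1 h0
  refine ⟨π, fun i => ?_, fun a => ?_⟩
  · have := key (MvPolynomial.X i)
    simpa [φ] using this
  · have := key (MvPolynomial.C a)
    simpa [φ] using this

theorem CH_gen (S : Type u) [CommRing S] [IsLocalRing S] [Algebra ℚ S]
    [IsAdicComplete (maximalIdeal S) S] (hm : (maximalIdeal S).FG) :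
    ∃ (k : Type u) (_ : Field k) (_ : CharZero k) (n : ℕ) (π : MvPowerSeries (Fin n) k →+* S),
      Function.Surjective π := by
  obtain ⟨g, hg⟩ := CH_coeff S
  obtain ⟨d, x, hx⟩ := Submodule.fg_iff_exists_fin_generating_family.1 hm
  have hxm : ∀ i, x i ∈ maximalIdeal S := fun i => by
    rw [← hx]; exact Submodule.subset_span ⟨i, rfl⟩
  obtain ⟨π, hX, hC⟩ := CH_eval (maximalIdeal S) g x hxm
  refine ⟨ResidueField S, inferInstance, algebraRat.charZero _, d, π, ?_⟩
  have hmap : Ideal.map π (Ideal.span (Set.range MvPowerSeries.X)) = maximalIdeal S := by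
    rw [Ideal.map_span, ← Set.range_comp, ← hx]
    congr 1
    congr 1
    ext i
    simp [hX]
  have : IsHausdorff (Ideal.map π (Ideal.span (Set.range MvPowerSeries.X))) S := by
    rw [hmap]; infer_instance
  refine surjective_of_mk_map_comp_surjective (I := Ideal.span (Set.range MvPowerSeries.X)) π ?_
  intro y
  obtain ⟨s, rfl⟩ := Ideal.Quotient.mk_surjective y
  refine ⟨MvPowerSeries.C (residue S s), ?_⟩
  rw [RingHom.comp_apply, hC, Ideal.Quotient.eq, hmap, ← residue_eq_zero_iff, map_sub, hg, sub_self]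

theorem CH_main (S : Type u) [CommRing S] [IsLocalRing S] [IsNoetherianRing S] [Algebra ℚ S]
    [IsAdicComplete (maximalIdeal S) S] :
    ∃ (k : Type u) (_ : Field k) (_ : CharZero k) (n : ℕ) (π : MvPowerSeries (Fin n) k →+* S),
      Function.Surjective π :=
  CH_gen S (IsNoetherian.noetherian _)

theorem CH0 (S : Type u) [CommRing S] [IsLocalRing S] [IsNoetherianRing S] [Algebra ℚ S] :
    IsNoetherianRing (AdicCompletion (maximalIdeal S) S) := by
  have h1 : (maximalIdeal (AdicCompletion (maximalIdeal S) S)).FG := by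
    rw [AdicCompletion.maximalIdeal_eq_map]
    exact Ideal.FG.map (IsNoetherian.noetherian _) _
  obtain ⟨k, _, _, n, π, hπ⟩ := CH_gen (AdicCompletion (maximalIdeal S) S) h1
  exact isNoetherianRing_of_surjective _ _ π hπ

end Pool.Agent.Lib.H61E
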