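import Pool.Agent.Lib.H61E.CH1

/-!
# CH0: the completion of a Noetherian local ring is Noetherian

PROOF.  `T = AdicCompletion (maximalIdeal S) S`, `maximalIdeal S = span (range s)`, `s : Fin n → S`
(`Submodule.fg_iff_exists_fin_generating_family` or similar); `a i = algebraMap S T (s i)`.  The maximal ideal
of `T` is `(maximalIdeal S).map (algebraMap S T) = span (range a)` (Mathlib
`AdicCompletion.maximalIdeal_eq_map`) and `T` is complete for it (Mathlib instance).  `S → T ⧸ (maximal ideal)`
is surjective (`AdicCompletion.residueField_map_bijective`, or `eval` at `1`: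
`AdicCompletion.pow_smul_top_eq_ker_eval`).  CH1_surj with `R = S`: `T` is a quotient of
`MvPowerSeries (Fin n) S`, Noetherian by Mathlib (`MvPowerSeries.isNoetherianRing`);
`isNoetherianRing_of_surjective`.
CH0_flat: Mathlib `AdicCompletion.flat_of_isNoetherian` and `Module.FaithfullyFlat.of_flat_of_isLocalHom`.
-/

set_option autoImplicit false
open IsLocalRing

namespace Pool.Agent.Lib.H61E
universe u

theorem CH0_noeth (S : Type u) [CommRing S] [IsLocalRing S] [IsNoetherianRing S] :
    IsNoetherianRing (AdicCompletion (maximalIdeal S) S) := by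
  obtain ⟨n, s, hs⟩ := Submodule.fg_iff_exists_fin_generating_family.1
    (IsNoetherian.noetherian (maximalIdeal S))
  have hmax : maximalIdeal (AdicCompletion (maximalIdeal S) S) =
      Ideal.span (Set.range fun i => algebraMap S (AdicCompletion (maximalIdeal S) S) (s i)) := by
    have h1 : ∀ {T : Type u} [CommRing T] (f : S →+* T),
        (maximalIdeal S).map f = Ideal.span (Set.range fun i => f (s i)) := by
      intro T _ f
      have h2 : maximalIdeal S = Ideal.span (Set.range s) := hs.symm
      rw [h2, Ideal.map_span, ← Set.range_comp]
      rfl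
    rw [AdicCompletion.maximalIdeal_eq_map]
    exact h1 _
  have hcomp : IsAdicComplete
      (Ideal.span (Set.range fun i => algebraMap S (AdicCompletion (maximalIdeal S) S) (s i)))
      (AdicCompletion (maximalIdeal S) S) := by
    rw [← hmax]
    infer_instance
  obtain ⟨π, hπ⟩ := CH1_surj S (fun i => algebraMap S (AdicCompletion (maximalIdeal S) S) (s i))
    (by
      intro t
      obtain ⟨y, hy⟩ := (AdicCompletion.residueField_map_bijective S).2
        (residue (AdicCompletion (maximalIdeal S) S) t)
      obtain ⟨r, rfl⟩ := residue_surjective y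
      refine ⟨r, ?_⟩
      rw [ResidueField.map_residue] at hy
      rw [← hmax, ← residue_eq_zero_iff, map_sub, hy, sub_self])
  exact isNoetherianRing_of_surjective _ _ π.toRingHom hπ

theorem CH0_flat (S : Type u) [CommRing S] [IsLocalRing S] [IsNoetherianRing S] :
    Module.FaithfullyFlat S (AdicCompletion (maximalIdeal S) S) := by
  exact Module.FaithfullyFlat.of_flat_of_isLocalHom

end Pool.Agent.Lib.H61E
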