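import Pool.Agent.Lib.H61E.Defs

/-!
# CH1: power series over `R` map to complete `R`-algebras

PROOF of CH1_map: `T` is `I`-adically complete.  For every `m` let
`f_m : MvPowerSeries (Fin n) R → T ⧸ I^m` be the composite of `MvPowerSeries.truncTotalAlgHom (Fin n) R m`
(to `MvPolynomial (Fin n) R ⧸ idealOfVars^m`) and the map induced by `MvPolynomial.aeval a` (it sends
`idealOfVars` into `I`, `Ideal.quotientMap`, `Ideal.pow_le_pow_left`).  The `f_m` are compatible; Mathlib
`IsAdicComplete.liftRingHom` (or `liftAlgHom`, `RingTheory/AdicCompletion/RingHom.lean`) gives `π`;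
`π (X i) = a i` and `R`-linearity: compare modulo all `I^m` (`IsHausdorff`).
PROOF of CH1_surj: `MvPowerSeries (Fin n) R` is complete for `J = Ideal.span (Set.range X)` (Mathlib instance),
`J.map π = I`; Mathlib `surjective_of_mk_map_comp_surjective`: it suffices that
`MvPowerSeries (Fin n) R → T ⧸ I` is surjective, clear from `hs`.
-/

set_option autoImplicit false
open IsLocalRing

namespace Pool.Agent.Lib.H61E
universe u

theorem CH1_map (R : Type u) {T : Type u} [CommRing R] [CommRing T] [Algebra R T] {n : ℕ}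
    (I : Ideal T) [IsAdicComplete I T] (a : Fin n → T) (ha : ∀ i, a i ∈ I) :
    ∃ π : MvPowerSeries (Fin n) R →ₐ[R] T, ∀ i, π (MvPowerSeries.X i) = a i := by
  let φ : MvPolynomial (Fin n) R →+* T := (MvPolynomial.aeval a).toRingHom
  have hI : ∀ m, MvPolynomial.idealOfVars (Fin n) R ^ m ≤ Ideal.comap φ (I ^ m) := by
    intro m
    have h1 : MvPolynomial.idealOfVars (Fin n) R ≤ Ideal.comap φ I := by
      rw [MvPolynomial.idealOfVars, Ideal.span_le]
      rintro _ ⟨i, rfl⟩
      change φ (MvPolynomial.X i) ∈ I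
      simpa [φ] using ha i
    exact (Ideal.pow_right_mono h1 m).trans (Ideal.le_comap_pow φ m)
  let F : (m : ℕ) → MvPowerSeries (Fin n) R →+* T ⧸ I ^ m := fun m =>
    (Ideal.quotientMap (I ^ m) φ (hI m)).comp
      (MvPowerSeries.truncTotalAlgHom (Fin n) R m).toRingHom
  have hF : ∀ m p, F m p = Ideal.Quotient.mk (I ^ m) (φ (MvPowerSeries.truncTotal m p)) := by
    intro m p
    rfl
  have hc : ∀ {l m : ℕ} (hle : l ≤ m),
      (Ideal.Quotient.factorPow I hle).comp (F m) = F l := by
    intro l m hle
    ext p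
    rw [RingHom.comp_apply, hF, hF]
    change Ideal.Quotient.mk (I ^ l) (φ (MvPowerSeries.truncTotal m p)) = _
    rw [Ideal.Quotient.eq, ← map_sub]
    exact hI l (MvPowerSeries.truncTotal_sub_truncTotal_mem_pow_idealOfVars hle le_rfl p)
  let π := IsAdicComplete.liftRingHom I F hc
  have key : ∀ q : MvPolynomial (Fin n) R, π (q : MvPowerSeries (Fin n) R) = φ q := by
    intro q
    have : ∀ m, π (q : MvPowerSeries (Fin n) R) - φ q ∈ I ^ m := by
      intro m
      rw [← Ideal.Quotient.eq]
      have h2 : Ideal.Quotient.mk (I ^ m) (π (q : MvPowerSeries (Fin n) R)) = F m q :=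
        IsAdicComplete.mk_liftRingHom I F hc m _
      rw [h2, hF, Ideal.Quotient.eq, ← map_sub]
      refine hI m ?_
      rw [MvPolynomial.mem_pow_idealOfVars_iff']
      intro y hy
      rw [MvPolynomial.coeff_sub, sub_eq_zero, MvPowerSeries.coeff_truncTotal _ hy,
        MvPolynomial.coeff_coe]
    have h0 : π (q : MvPowerSeries (Fin n) R) - φ q = 0 :=
      IsHausdorff.haus' (I := I) _ fun m => by
        rw [SModEq.zero]
        simpa using this m
    exact sub_eq_zero.1 h0
  refine ⟨{ π with commutes' := fun r => ?_ }, fun i => ?_⟩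
  · have := key (MvPolynomial.C r)
    change π (MvPowerSeries.C r) = _
    simpa [φ] using this
  · have := key (MvPolynomial.X i)
    change π (MvPowerSeries.X i) = _
    simpa [φ] using this

theorem CH1_surj (R : Type u) {T : Type u} [CommRing R] [CommRing T] [Algebra R T] {n : ℕ}
    (a : Fin n → T) [IsAdicComplete (Ideal.span (Set.range a)) T]
    (hs : ∀ t : T, ∃ r : R, t - algebraMap R T r ∈ Ideal.span (Set.range a)) :
    ∃ π : MvPowerSeries (Fin n) R →ₐ[R] T, Function.Surjective π := by
  obtain ⟨π, hX⟩ := CH1_map R (Ideal.span (Set.range a)) a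
    (fun i => Ideal.subset_span ⟨i, rfl⟩)
  refine ⟨π, ?_⟩
  have hmap : Ideal.map π.toRingHom (Ideal.span (Set.range MvPowerSeries.X)) =
      Ideal.span (Set.range a) := by
    rw [Ideal.map_span, ← Set.range_comp]
    congr 2
    ext i
    exact hX i
  have : IsHausdorff (Ideal.map π.toRingHom (Ideal.span (Set.range MvPowerSeries.X))) T := by
    rw [hmap]; infer_instance
  refine surjective_of_mk_map_comp_surjective (I := Ideal.span (Set.range MvPowerSeries.X))
    π.toRingHom ?_
  intro y
  obtain ⟨s, rfl⟩ := Ideal.Quotient.mk_surjective y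
  obtain ⟨r, hr⟩ := hs s
  refine ⟨algebraMap R _ r, ?_⟩
  rw [RingHom.comp_apply, Ideal.Quotient.eq, hmap, ← neg_mem_iff, neg_sub]
  have : π.toRingHom (algebraMap R _ r) = algebraMap R T r := π.commutes r
  rw [this]
  exact hr

end Pool.Agent.Lib.H61E
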