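import Mathlib

/-!
# H61E (MP_fa772a_ag): definitions for the approximation part

`Rel y y'`: `y'` satisfies every polynomial relation over `ℤ` that `y` satisfies.
`AZ P E`: every finite family of elements of `P` is approximated by families in the subring `E` that
satisfy the same polynomial relations over `ℤ` (Artin approximation in the form used here).
`EhSet A P`: the elements of an `A`-algebra `P` that lie in the image of an etale `A`-algebra.
`Tri N`: triangular systems of polynomials in `N` variables.
`ExM J D E`: one exact spot `R^a -> R^b -> R^c` modulo the ideal `J`, given by matrices.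
`Stb Q y`: the property `Q` is stable under approximation at `y`.
-/

set_option autoImplicit false
open IsLocalRing

namespace Pool.Agent.Lib.H61E
universe u v

/-- `y'` satisfies every polynomial relation over `ℤ` that `y` satisfies. -/
def Rel {P : Type u} {Q : Type v} [CommRing P] [CommRing Q] {ι : Type*} (y : ι → P)
    (y' : ι → Q) : Prop :=
  ∀ f : MvPolynomial ι ℤ, MvPolynomial.aeval y f = 0 → MvPolynomial.aeval y' f = 0

/-- `y'` and `y` are congruent modulo the `c`-th power of the maximal ideal. -/
def Cg {P : Type u} [CommRing P] [IsLocalRing P] {ι : Type*} (c : ℕ) (y' y : ι → P) : Prop :=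
  ∀ i, y' i - y i ∈ maximalIdeal P ^ c

/-- Approximation over `ℤ`: every finite family in `P` has arbitrarily good approximations by
families with members in `E` that satisfy the same polynomial relations over `ℤ`. -/
def AZ (P : Type u) [CommRing P] [IsLocalRing P] (E : Subring P) : Prop :=
  ∀ (N : ℕ) (y : Fin N → P) (c : ℕ), ∃ y' : Fin N → P, (∀ i, y' i ∈ E) ∧ Rel y y' ∧ Cg c y' y

/-- the elements of the `A`-algebra `P` that lie in the image of an etale `A`-algebra. -/
def EhSet (A P : Type u) [CommRing A] [CommRing P] [Algebra A P] : Set P :=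
  {x | ∃ (C : Type u) (_ : CommRing C) (_ : Algebra A C) (_ : Algebra.Etale A C)
    (σ : C →ₐ[A] P), x ∈ Set.range σ}

/-- the subring generated by `EhSet A P` (in fact equal to it, see EH2). -/
def Eh (A P : Type u) [CommRing A] [CommRing P] [Algebra A P] : Subring P :=
  Subring.closure (EhSet A P)

/-- `E` is closed under inverses (of units of `P`) and under simple roots of monic polynomials
with coefficients in `E`. -/
structure HC {P : Type u} [CommRing P] (E : Subring P) : Prop where
  inv : ∀ x ∈ E, ∀ y : P, x * y = 1 → y ∈ E
  root : ∀ g : Polynomial P, g.Monic → (∀ i, g.coeff i ∈ E) → ∀ t : P, g.eval t = 0 →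
    IsUnit (g.derivative.eval t) → t ∈ E

/-- Hensel's lemma for arbitrary (not necessarily monic) polynomials with coefficients in `E`, with
the root in `E`. -/
def HN {P : Type u} [CommRing P] [IsLocalRing P] (E : Subring P) : Prop :=
  ∀ g : Polynomial P, (∀ i, g.coeff i ∈ E) → g.coeff 0 ∈ maximalIdeal P → IsUnit (g.coeff 1) →
    ∃ t ∈ E, t ∈ maximalIdeal P ∧ g.eval t = 0

/-- `f ∈ P⟦X⟧` is `X`-regular: it does not vanish modulo the maximal ideal of `P`. -/
def XReg {P : Type u} [CommRing P] [IsLocalRing P] (f : PowerSeries P) : Prop :=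
  PowerSeries.map (residue P) f ≠ 0

/-- coordinate changes preserving `E` make every nonzero `f` an `X`-regular series. -/
def CCp {P : Type u} [CommRing P] [IsLocalRing P] (E : Subring (PowerSeries P)) : Prop :=
  ∀ f : PowerSeries P, f ≠ 0 → ∃ θ : PowerSeries P ≃+* PowerSeries P,
    (∀ x, x ∈ E ↔ θ x ∈ E) ∧ XReg (θ f)

/-- specialization of the coefficients at `y`. -/
noncomputable def sp {R : Type u} [CommRing R] {ι : Type*} (y : ι → R)
    (g : Polynomial (MvPolynomial ι ℤ)) : Polynomial R :=
  g.map (MvPolynomial.aeval y : MvPolynomial ι ℤ →ₐ[ℤ] R).toRingHom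

/-- triangular systems: variable `0` is the last one; at each step the new variable is free or
subject to one polynomial `g` over the polynomial ring in the other variables. -/
inductive Tri : ℕ → Type
  | nil : Tri 0
  | free {N : ℕ} (T : Tri N) : Tri (N + 1)
  | alg {N : ℕ} (T : Tri N) (g : Polynomial (MvPolynomial (Fin N) ℤ)) : Tri (N + 1)

/-- `g` as a polynomial in `N + 1` variables (the variable of `g` is the variable `0`). -/
noncomputable def up {N : ℕ} (g : Polynomial (MvPolynomial (Fin N) ℤ)) :
    MvPolynomial (Fin (N + 1)) ℤ := (MvPolynomial.finSuccEquiv ℤ N).symm g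

/-- the equations of a triangular system, one for each variable (`0` for a free variable). -/
noncomputable def Tri.eq : {N : ℕ} → Tri N → Fin N → MvPolynomial (Fin N) ℤ
  | _, .nil => fun i => i.elim0
  | _, .free T => Fin.cons 0 (fun i => MvPolynomial.rename Fin.succ (T.eq i))
  | _, .alg T g => Fin.cons (up g) (fun i => MvPolynomial.rename Fin.succ (T.eq i))

/-- the product of the derivatives. -/
noncomputable def Tri.dl : {N : ℕ} → Tri N → MvPolynomial (Fin N) ℤ
  | _, .nil => 1
  | _, .free T => MvPolynomial.rename Fin.succ T.dl
  | _, .alg T g => MvPolynomial.rename Fin.succ T.dl * up (Polynomial.derivative g)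

/-- the product of the leading coefficients. -/
noncomputable def Tri.lc : {N : ℕ} → Tri N → MvPolynomial (Fin N) ℤ
  | _, .nil => 1
  | _, .free T => MvPolynomial.rename Fin.succ T.lc
  | _, .alg T g => MvPolynomial.rename Fin.succ T.lc * MvPolynomial.rename Fin.succ g.leadingCoeff

/-- `D : R^a -> R^b` and `E : R^b -> R^c` are exact at `R^b`, modulo the ideal `J`: `v` with
`E v ∈ J` is congruent modulo `J` to some `D w`. -/
def ExM {R : Type u} [CommRing R] {a b c : Type*} [Fintype a] [Fintype b] (J : Ideal R)
    (D : Matrix b a R) (E : Matrix c b R) : Prop :=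
  ∀ v : b → R, (∀ i, (E.mulVec v) i ∈ J) → ∃ w : a → R, ∀ i, v i - (D.mulVec w) i ∈ J

/-- the property `Q` of families is stable at `y`: after adding finitely many elements `x` of `P`
to `y`, every sufficiently good approximation that satisfies the same polynomial relations over `ℤ`
has `Q`. -/
def Stb {P : Type u} [CommRing P] [IsLocalRing P] {ι : Type} (Q : (ι → P) → Prop)
    (y : ι → P) : Prop :=
  ∃ (κ : Type) (_ : Finite κ) (x : κ → P) (c : ℕ), ∀ (y' : ι → P) (x' : κ → P),
    Rel (Sum.elim y x) (Sum.elim y' x') → Cg c y' y → Cg c x' x → Q y'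

end Pool.Agent.Lib.H61E
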