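import Pool.Agent.Lib.H61E.Defs

/-!
# EH1: finitely many elements of `EhSet A P` lie in the image of one etale algebra

PROOF.  Induction on the finite type `ι` (`Finite.induction_empty_option`, or first `Fin n`, or
`Finset.induction`).  Empty: `C = A` (`Algebra.Etale A A`), `σ = Algebra.ofId`.  Step: for
`(C₁, σ₁, z₁)`, `(C₂, σ₂, x₂)` take `C = C₁ ⊗[A] C₂`, etale over `C₁` (Mathlib
`Algebra.Etale.baseChange`), so over `A` (`Algebra.Etale.comp A C₁ C`), and
`σ = Algebra.TensorProduct.productMap σ₁ σ₂`.
-/

set_option autoImplicit false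
open IsLocalRing

namespace Pool.Agent.Lib.H61E
universe u

theorem EH1_common {A P : Type u} [CommRing A] [CommRing P] [Algebra A P] {ι : Type}
    [Finite ι] (x : ι → P) (hx : ∀ i, x i ∈ EhSet A P) :
    ∃ (C : Type u) (_ : CommRing C) (_ : Algebra A C) (_ : Algebra.Etale A C) (σ : C →ₐ[A] P)
      (z : ι → C), ∀ i, σ (z i) = x i := by
  classical
  revert x
  induction ι using Finite.induction_empty_option with
  | of_equiv e ih =>
    intro x hx
    obtain ⟨C, c1, c2, c3, σ, z, hz⟩ := ih (fun i => x (e i)) (fun i => hx (e i))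
    refine ⟨C, c1, c2, c3, σ, fun j => z (e.symm j), fun j => ?_⟩
    have h := hz (e.symm j)
    simpa using h
  | h_empty =>
    intro x hx
    exact ⟨A, inferInstance, Algebra.id A, inferInstance, Algebra.ofId A P,
      fun i => i.elim, fun i => i.elim⟩
  | h_option ih =>
    intro x hx
    obtain ⟨C₁, c1, c2, c3, σ₁, z₁, hz⟩ := ih (fun i => x (some i)) (fun i => hx (some i))
    obtain ⟨C₂, d1, d2, d3, σ₂, x₂, hx₂⟩ := hx none
    let e1 : Algebra.Etale C₁ (TensorProduct A C₁ C₂) := inferInstance
    let e2 : Algebra.Etale A (TensorProduct A C₁ C₂) :=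
      Algebra.Etale.comp A C₁ (TensorProduct A C₁ C₂)
    refine ⟨TensorProduct A C₁ C₂, inferInstance, inferInstance, e2,
      Algebra.TensorProduct.productMap σ₁ σ₂,
      fun o => o.elim (TensorProduct.tmul A 1 x₂) (fun i => TensorProduct.tmul A (z₁ i) 1), ?_⟩
    intro o
    cases o with
    | none => simp [hx₂]
    | some i => simp [hz i]

end Pool.Agent.Lib.H61E
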