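import Pool.Agent.Lib.H61E.EH1

/-!
# EH2: `Eh A P` is the set `EhSet A P`

PROOF.  `EhSet A P` is closed under `0`, `1`, `+`, `-`, `*` by EH1 (a common etale algebra for two
elements; the image of `σ` is a subring).  `Subring.closure_induction`.  EH2_common is EH1 with
`Eh A P`.  EH2_algebraMap: `C = A`.
-/

set_option autoImplicit false
open IsLocalRing

namespace Pool.Agent.Lib.H61E
universe u

variable {A P : Type u} [CommRing A] [CommRing P] [Algebra A P]

theorem EH2_two {x y : P} (hx : x ∈ EhSet A P) (hy : y ∈ EhSet A P) :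
    ∃ (C : Type u) (_ : CommRing C) (_ : Algebra A C) (_ : Algebra.Etale A C) (σ : C →ₐ[A] P)
      (a b : C), σ a = x ∧ σ b = y := by
  obtain ⟨C, i1, i2, i3, σ, z, hz⟩ := EH1_common (A := A) (P := P) (ι := Bool)
    (fun b => if b then x else y) (by
      intro b
      cases b
      · simpa using hy
      · simpa using hx)
  refine ⟨C, i1, i2, i3, σ, z true, z false, ?_, ?_⟩
  · simpa using hz true
  · simpa using hz false

theorem EH2_base (a : A) : algebraMap A P a ∈ EhSet A P :=
  ⟨A, inferInstance, inferInstance, inferInstance, Algebra.ofId A P, ⟨a, rfl⟩⟩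

theorem EH2_mem {x : P} : x ∈ Eh A P ↔ x ∈ EhSet A P := by
  constructor
  · intro hx
    unfold Eh at hx
    induction hx using Subring.closure_induction with
    | mem x hx => exact hx
    | zero => simpa using EH2_base (A := A) (P := P) 0
    | one => simpa using EH2_base (A := A) (P := P) 1
    | add x y _ _ hx hy =>
      obtain ⟨C, i1, i2, i3, σ, a, b, ha, hb⟩ := EH2_two hx hy
      exact ⟨C, i1, i2, i3, σ, ⟨a + b, by rw [map_add, ha, hb]⟩⟩
    | neg x _ hx =>
      obtain ⟨C, i1, i2, i3, σ, ⟨a, ha⟩⟩ := hx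
      exact ⟨C, i1, i2, i3, σ, ⟨-a, by rw [map_neg, ha]⟩⟩
    | mul x y _ _ hx hy =>
      obtain ⟨C, i1, i2, i3, σ, a, b, ha, hb⟩ := EH2_two hx hy
      exact ⟨C, i1, i2, i3, σ, ⟨a * b, by rw [map_mul, ha, hb]⟩⟩
  · intro hx
    exact Subring.subset_closure hx

theorem EH2_common {ι : Type} [Finite ι] (x : ι → P) (hx : ∀ i, x i ∈ Eh A P) :
    ∃ (C : Type u) (_ : CommRing C) (_ : Algebra A C) (_ : Algebra.Etale A C) (σ : C →ₐ[A] P)
      (z : ι → C), ∀ i, σ (z i) = x i :=
  EH1_common x fun i => EH2_mem.1 (hx i)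

theorem EH2_algebraMap (a : A) : algebraMap A P a ∈ Eh A P :=
  EH2_mem.2 (EH2_base a)

end Pool.Agent.Lib.H61E
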