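import Pool.Agent.Lib.H61E.TR0

/-!
# SH1: first order differences

PROOF.  SH1_diff: `MvPolynomial.induction_on`: constants `v = 0`; sums; products with `X i`:
`(F + h v)(y_i + h u_i) = F y_i + h (F u_i + v y_i + h v u_i)`, and `F = aeval y f ∈ E` (TR0_mem).
SH1_poly: `g : Polynomial (MvPolynomial (Fin N) ℤ)`: the difference of the values at `t` of the
specializations at `y + h u` and at `y` is `∑_n (difference of the coefficients) t^n`
(`Polynomial.eval_eq_sum_range' ` with a common bound `natDegree g + 1`, or `Polynomial.induction_on`).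
-/

set_option autoImplicit false
open IsLocalRing

namespace Pool.Agent.Lib.H61E
universe u

theorem SH1_diff {R : Type u} [CommRing R] [IsLocalRing R] (E : Subring R) {ι : Type*}
    (f : MvPolynomial ι ℤ) (y u : ι → R) (h : R) (hy : ∀ i, y i ∈ E) (hu : ∀ i, u i ∈ E)
    (hum : ∀ i, u i ∈ maximalIdeal R) (hh : h ∈ E) :
    ∃ v ∈ E, v ∈ maximalIdeal R ∧
      MvPolynomial.aeval (fun i => y i + h * u i) f = MvPolynomial.aeval y f + h * v := by
  induction f using MvPolynomial.induction_on with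
  | C a =>
    refine ⟨0, E.zero_mem, Ideal.zero_mem _, ?_⟩
    rw [MvPolynomial.aeval_C, MvPolynomial.aeval_C, mul_zero, add_zero]
  | add p q hp hq =>
    obtain ⟨v1, h1, m1, e1⟩ := hp
    obtain ⟨v2, h2, m2, e2⟩ := hq
    refine ⟨v1 + v2, E.add_mem h1 h2, Ideal.add_mem _ m1 m2, ?_⟩
    rw [map_add, map_add, e1, e2]
    ring
  | mul_X p i hp =>
    obtain ⟨v, hv, mv, e⟩ := hp
    have hF : MvPolynomial.aeval y p ∈ E := TR0_mem E y hy p
    refine ⟨MvPolynomial.aeval y p * u i + v * y i + h * v * u i, ?_, ?_, ?_⟩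
    · exact E.add_mem (E.add_mem (E.mul_mem hF (hu i)) (E.mul_mem hv (hy i)))
        (E.mul_mem (E.mul_mem hh hv) (hu i))
    · exact Ideal.add_mem _ (Ideal.add_mem _ (Ideal.mul_mem_left _ _ (hum i))
        (Ideal.mul_mem_right _ _ mv)) (Ideal.mul_mem_left _ _ (hum i))
    · rw [map_mul, map_mul, MvPolynomial.aeval_X, MvPolynomial.aeval_X, e]
      ring

theorem SH1_poly {R : Type u} [CommRing R] [IsLocalRing R] (E : Subring R) {ι : Type*}
    (g : Polynomial (MvPolynomial ι ℤ)) (y u : ι → R) (h t : R) (hy : ∀ i, y i ∈ E)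
    (hu : ∀ i, u i ∈ E) (hum : ∀ i, u i ∈ maximalIdeal R) (hh : h ∈ E) (ht : t ∈ E) :
    ∃ v ∈ E, v ∈ maximalIdeal R ∧
      (sp (fun i => y i + h * u i) g).eval t = (sp y g).eval t + h * v := by
  induction g using Polynomial.induction_on' with
  | add p q hp hq =>
    obtain ⟨v1, h1, m1, e1⟩ := hp
    obtain ⟨v2, h2, m2, e2⟩ := hq
    refine ⟨v1 + v2, E.add_mem h1 h2, Ideal.add_mem _ m1 m2, ?_⟩
    have hsp : ∀ z : ι → R, sp z (p + q) = sp z p + sp z q := by
      intro z
      unfold sp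
      rw [Polynomial.map_add]
    rw [hsp, hsp, Polynomial.eval_add, Polynomial.eval_add, e1, e2]
    ring
  | monomial n a =>
    obtain ⟨v, hv, mv, e⟩ := SH1_diff E a y u h hy hu hum hh
    refine ⟨v * t ^ n, E.mul_mem hv (E.pow_mem ht n), Ideal.mul_mem_right _ _ mv, ?_⟩
    have hsp : ∀ z : ι → R, (sp z (Polynomial.monomial n a)).eval t =
        MvPolynomial.aeval z a * t ^ n := by
      intro z
      unfold sp
      rw [Polynomial.map_monomial, Polynomial.eval_monomial]
      rfl
    rw [hsp, hsp, e]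
    ring

end Pool.Agent.Lib.H61E
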