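import Pool.Agent.Lib.H61E.UH
import Pool.Agent.Lib.H61E.SH1

/-!
# SH2: solving a triangular system by successive Newton steps

PROOF.  Induction on `T` (all `y`, `h`).  `nil`: clear.  Write `y⁺ = (y_{i+1})_i`.
`T.free` (`N + 1` variables): `D = aeval y⁺ T.dl` (TR0_dl_free); the hypotheses for `j = i + 1` read
`aeval y⁺ (T.eq i) = h D^(2N+2) w = h D^(2N) (D² w)`; the induction hypothesis gives `u⁺`; put
`u = Fin.cons 0 u⁺`; conclude by TR0_eq_free.
`T.alg g`: `D₀ = aeval y⁺ T.dl`, `δ = (sp y⁺ g).derivative.eval (y 0)`, `D = D₀ δ` (TR0_dl_alg); `D₀, δ ∈ E`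
(TR0_mem, TR0_sp_mem).  For `j = i + 1`: `aeval y⁺ (T.eq i) = h (D₀ δ)^(2N+2) w = (h D²) D₀^(2N) (δ^(2N) w)`;
the induction hypothesis for `h₀ = h D²` gives `u⁺` with `∀ j, aeval (y⁺ + h₀ u⁺) (T.eq j) = 0`.  Let
`z = y⁺ + h₀ u⁺` and `G = sp z g` (coefficients in `E`).  SH1_poly: `G(y 0) = (sp y⁺ g)(y 0) + h₀ v
= h D^(2N+2) w + h D² v = h D² w₁`, `w₁ = D^(2N) w + v ∈ E ∩ m`; SH1_poly for `derivative g`
(`Polynomial.derivative_map`): `G'(y 0) = δ + h D² v' = δ ε` with `ε = 1 + h D₀² δ v'`, `v' ∈ E ∩ m`; `ε` is a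
unit of `R` and its inverse `η` is in `E` (`HC.inv`).  So
`G(y 0) = h D₀² δ² w₁ = G'(y 0)² h (D₀² η² w₁)`, and UH_main gives `u' ∈ E ∩ m` with
`G(y 0 + G'(y 0) h u') = 0`.  Put `u = Fin.cons (G'(y 0) u') (i ↦ D² u⁺ i)`; then `y + h u` has first
member `y 0 + h G'(y 0) u'` and the other members `z`.  Conclude by TR0_eq_alg.
-/

set_option autoImplicit false
open IsLocalRing

namespace Pool.Agent.Lib.H61E
universe u

private theorem SH2_alg_step {R : Type u} [CommRing R] [IsLocalRing R] {E : Subring R} (hC : HC E)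
    (hN : HN E) {N : ℕ} (g : Polynomial (MvPolynomial (Fin N) ℤ)) (yt : Fin N → R) (y0 : R)
    (hyt : ∀ i, yt i ∈ E) (hy0 : y0 ∈ E) (h D₀ w : R) (hh : h ∈ E) (hD : D₀ ∈ E) (hw : w ∈ E)
    (hwm : w ∈ maximalIdeal R)
    (hg : (sp yt g).eval y0 = h * (D₀ * (sp yt g).derivative.eval y0) ^ 2 * w)
    (ut : Fin N → R) (hut : ∀ i, ut i ∈ E) (hutm : ∀ i, ut i ∈ maximalIdeal R) :
    ∃ u₀ ∈ E, u₀ ∈ maximalIdeal R ∧
      (sp (fun i => yt i + h * (D₀ * (sp yt g).derivative.eval y0) ^ 2 * ut i) g).eval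
        (y0 + h * u₀) = 0 := by
  set δ := (sp yt g).derivative.eval y0 with hδ
  have hgE : ∀ i, (sp yt g).coeff i ∈ E := TR0_sp_mem E yt hyt g
  have evE : ∀ (p : Polynomial R), (∀ i, p.coeff i ∈ E) → ∀ t ∈ E, p.eval t ∈ E := by
    intro p hp t ht
    rw [Polynomial.eval_eq_sum_range]
    exact Subring.sum_mem _ fun i _ => E.mul_mem (hp i) (E.pow_mem ht i)
  have hder : ∀ (p : Polynomial R), (∀ i, p.coeff i ∈ E) → ∀ i, (Polynomial.derivative p).coeff i ∈ E := by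
    intro p hp i
    rw [Polynomial.coeff_derivative]
    refine E.mul_mem (hp _) ?_
    have : ((i : R) + 1) = ((i + 1 : ℕ) : R) := by push_cast; ring
    rw [this]
    exact natCast_mem E (i + 1)
  have hδE : δ ∈ E := evE _ (hder _ hgE) y0 hy0
  set D := D₀ * δ with hDdef
  have hDE : D ∈ E := E.mul_mem hD hδE
  set h₀ := h * D ^ 2 with hh0
  have hh0E : h₀ ∈ E := E.mul_mem hh (E.pow_mem hDE 2)
  have hspder : ∀ z : Fin N → R, sp z (Polynomial.derivative g) = Polynomial.derivative (sp z g) := by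
    intro z
    simp [sp, Polynomial.derivative_map]
  obtain ⟨v, hvE, hvm, hv⟩ := SH1_poly E g yt ut h₀ y0 hyt hut hutm hh0E hy0
  obtain ⟨v', hv'E, hv'm, hv'⟩ := SH1_poly E (Polynomial.derivative g) yt ut h₀ y0 hyt hut hutm hh0E hy0
  rw [hspder, hspder] at hv'
  set z := fun i => yt i + h₀ * ut i with hz
  have hzE : ∀ i, z i ∈ E := fun i => E.add_mem (hyt i) (E.mul_mem hh0E (hut i))
  set G := sp z g with hG
  have hGE : ∀ i, G.coeff i ∈ E := TR0_sp_mem E z hzE g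
  -- unit ε
  set ε := 1 + h * D₀ ^ 2 * δ * v' with hε
  have hG' : (Polynomial.derivative G).eval y0 = δ * ε := by
    rw [hv', ← hδ]; rw [hε, hh0, hDdef]; ring
  have hεu : IsUnit ε := by
    have : h * D₀ ^ 2 * δ * v' ∈ maximalIdeal R := Ideal.mul_mem_left _ _ hv'm
    by_contra hcon
    have h1 : ε ∈ maximalIdeal R := (mem_maximalIdeal _).2 hcon
    have h2 : (1 : R) ∈ maximalIdeal R := by
      have h3 := Ideal.sub_mem _ h1 this
      rwa [hε, add_sub_cancel_right] at h3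
    exact (Ideal.ne_top_iff_one _).1 (maximalIdeal.isMaximal R).ne_top h2
  obtain ⟨η, hη⟩ := hεu.exists_right_inv
  have hεE : ε ∈ E := by
    refine E.add_mem E.one_mem (E.mul_mem (E.mul_mem (E.mul_mem hh (E.pow_mem hD 2)) hδE) hv'E)
  have hηE : η ∈ E := hC.inv ε hεE η hη
  have hG0 : G.eval y0 = ((Polynomial.derivative G).eval y0) ^ 2 * h * (D₀ ^ 2 * η ^ 2 * (w + v)) := by
    rw [hv, hg, hG']
    have : (δ * ε) ^ 2 * h * (D₀ ^ 2 * η ^ 2 * (w + v)) = h * (D₀ * δ) ^ 2 * (w + v) * (ε * η) ^ 2 := by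
      ring
    rw [this, hη, hh0, hDdef]; ring
  have hwv : w + v ∈ maximalIdeal R := Ideal.add_mem _ hwm hvm
  obtain ⟨u, huE, hum, hu⟩ := UH_main hN G hGE y0 h (D₀ ^ 2 * η ^ 2 * (w + v)) hy0 hh
    (E.mul_mem (E.mul_mem (E.pow_mem hD 2) (E.pow_mem hηE 2)) (E.add_mem hw hvE))
    (Ideal.mul_mem_left _ _ hwv) hG0
  refine ⟨(Polynomial.derivative G).eval y0 * u, E.mul_mem (evE _ (hder _ hGE) y0 hy0) huE,
    Ideal.mul_mem_left _ _ hum, ?_⟩
  have : y0 + h * ((Polynomial.derivative G).eval y0 * u) =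
    y0 + (Polynomial.derivative G).eval y0 * h * u := by ring
  rw [this]
  exact hu

theorem SH2_main {R : Type u} [CommRing R] [IsLocalRing R] {E : Subring R} (hC : HC E)
    (hN : HN E) {N : ℕ} (T : Tri N) (y : Fin N → R) (hy : ∀ i, y i ∈ E) (h : R) (hh : h ∈ E)
    (hw : ∀ j, ∃ w ∈ E, w ∈ maximalIdeal R ∧ MvPolynomial.aeval y (T.eq j) =
      h * (MvPolynomial.aeval y T.dl) ^ (2 * N) * w) :
    ∃ u : Fin N → R, (∀ i, u i ∈ E) ∧ (∀ i, u i ∈ maximalIdeal R) ∧
      ∀ j, MvPolynomial.aeval (fun i => y i + h * u i) (T.eq j) = 0 := by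
  induction T generalizing h with
  | nil => exact ⟨fun _ => 0, fun i => i.elim0, fun i => i.elim0, fun j => j.elim0⟩
  | @free N T ih =>
    have hw' : ∀ j, ∃ w ∈ E, w ∈ maximalIdeal R ∧
        MvPolynomial.aeval (fun i : Fin N => y i.succ) (T.eq j) =
        h * (MvPolynomial.aeval (fun i : Fin N => y i.succ) T.dl) ^ (2 * N) * w := by
      intro j
      obtain ⟨w, hwE, hwm, e⟩ := hw j.succ
      have hDE : MvPolynomial.aeval (fun i : Fin N => y i.succ) T.dl ∈ E :=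
        TR0_mem E _ (fun i => hy _) _
      refine ⟨(MvPolynomial.aeval (fun i : Fin N => y i.succ) T.dl) ^ 2 * w,
        E.mul_mem (E.pow_mem hDE 2) hwE, Ideal.mul_mem_left _ _ hwm, ?_⟩
      simp only [Tri.eq, Fin.cons_succ, TR0_ren, TR0_dl_free] at e
      rw [e]; ring
    obtain ⟨ut, hutE, hutm, hut⟩ := ih (fun i : Fin N => y i.succ) (fun i => hy _) h hh hw'
    refine ⟨Fin.cons 0 ut, ?_, ?_, ?_⟩
    · intro i; refine Fin.cases ?_ (fun i => ?_) i
      · simpa using E.zero_mem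
      · simpa using hutE i
    · intro i; refine Fin.cases ?_ (fun i => ?_) i
      · simp
      · simpa using hutm i
    · rw [TR0_eq_free]
      intro j
      simpa using hut j
  | @alg N T g ih =>
    set yt := fun i : Fin N => y i.succ with hyt
    have hytE : ∀ i, yt i ∈ E := fun i => hy _
    set D₀ := MvPolynomial.aeval yt T.dl with hD0
    have hD0E : D₀ ∈ E := TR0_mem E _ hytE _
    set δ := (sp yt g).derivative.eval (y 0) with hδ
    have hdl : MvPolynomial.aeval y (T.alg g).dl = D₀ * δ := by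
      rw [TR0_dl_alg]
    have hδE : δ ∈ E := by
      rw [hδ, Polynomial.eval_eq_sum_range]
      refine Subring.sum_mem _ fun i _ => E.mul_mem ?_ (E.pow_mem (hy 0) i)
      rw [Polynomial.coeff_derivative]
      refine E.mul_mem (TR0_sp_mem E yt hytE g _) ?_
      have : ((i : R) + 1) = ((i + 1 : ℕ) : R) := by push_cast; ring
      rw [this]
      exact natCast_mem E (i + 1)
    have hw' : ∀ j, ∃ w ∈ E, w ∈ maximalIdeal R ∧
        MvPolynomial.aeval yt (T.eq j) = (h * (D₀ * δ) ^ 2) * D₀ ^ (2 * N) * w := by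
      intro j
      obtain ⟨w, hwE, hwm, e⟩ := hw j.succ
      refine ⟨δ ^ (2 * N) * w, E.mul_mem (E.pow_mem hδE _) hwE, Ideal.mul_mem_left _ _ hwm, ?_⟩
      rw [hdl] at e
      simp only [Tri.eq, Fin.cons_succ, TR0_ren] at e
      rw [hyt, e]
      ring
    obtain ⟨ut, hutE, hutm, hut⟩ := ih yt hytE (h * (D₀ * δ) ^ 2)
      (E.mul_mem hh (E.pow_mem (E.mul_mem hD0E hδE) 2)) hw'
    obtain ⟨w, hwE, hwm, e⟩ := hw 0
    rw [hdl] at e
    simp only [Tri.eq, Fin.cons_zero, TR0_up] at e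
    have hg : (sp yt g).eval (y 0) = h * (D₀ * δ) ^ 2 * ((D₀ * δ) ^ (2 * N) * w) := by
      rw [hyt, e]; ring
    obtain ⟨u₀, hu0E, hu0m, hu0⟩ := SH2_alg_step hC hN g yt (y 0) hytE (hy 0) h D₀
      ((D₀ * δ) ^ (2 * N) * w) hh hD0E
      (E.mul_mem (E.pow_mem (E.mul_mem hD0E hδE) _) hwE) (Ideal.mul_mem_left _ _ hwm) hg ut
      hutE hutm
    refine ⟨Fin.cons u₀ (fun i => (D₀ * δ) ^ 2 * ut i), ?_, ?_, ?_⟩
    · intro i; refine Fin.cases ?_ (fun i => ?_) i
      · simpa using hu0E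
      · simpa using E.mul_mem (E.pow_mem (E.mul_mem hD0E hδE) 2) (hutE i)
    · intro i; refine Fin.cases ?_ (fun i => ?_) i
      · simpa using hu0m
      · rw [Fin.cons_succ]; exact Ideal.mul_mem_left _ _ (hutm i)
    · rw [TR0_eq_alg]
      have hz : (fun i : Fin N => y i.succ + h * (Fin.cons u₀ (fun i => (D₀ * δ) ^ 2 * ut i) :
          Fin (N + 1) → R) i.succ) = fun i => yt i + h * (D₀ * δ) ^ 2 * ut i := by
        funext i
        simp only [Fin.cons_succ, hyt]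
        ring
      constructor
      · intro j
        rw [hz]
        exact hut j
      · rw [hz]
        simpa using hu0

end Pool.Agent.Lib.H61E
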