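import Pool.Agent.Lib.H61E.WR4
import Pool.Agent.Lib.H61E.SH2

/-!
# IND1: approximate solutions of a triangular system with `X`-regular derivative product

PROOF.  WR4_main with `f = T.eq`, `D = T.dl ^ (2 * N)` (`X`-regular: the residue map
`P⟦X⟧ → κ⟦X⟧` is a ring homomorphism to a domain, `pow_ne_zero`) and `c`: `y₁ ∈ E'`,
`aeval y₁ (T.eq j) = X^c (aeval y₁ T.dl)^(2N) w`.  SH2_main with `h = X^c` (in `E'`): `u`, and
`y' = y₁ + X^c u`.  Members in `E'`; `y' - y = (y₁ - y) + X^c u ∈ m^c` (WR3_X).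
-/

set_option autoImplicit false
open IsLocalRing

namespace Pool.Agent.Lib.H61E
universe u

private theorem ind1_int {P : Type u} [CommRing P] {N : ℕ} (z : Fin N → PowerSeries P)
    (f : MvPolynomial (Fin N) ℤ) :
    (@MvPolynomial.aeval ℤ (PowerSeries P) (Fin N) _ _ (Ring.toIntAlgebra _) z) f =
      MvPolynomial.aeval z f := by
  have h : (Ring.toIntAlgebra (PowerSeries P)) = (MvPowerSeries.instAlgebra :
      Algebra ℤ (PowerSeries P)) := Subsingleton.elim _ _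
  rw [h]

theorem IND1_main {P : Type u} [CommRing P] [IsLocalRing P] [IsAdicComplete (maximalIdeal P) P]
    {E : Subring P} (hA : AZ P E) {E' : Subring (PowerSeries P)}
    (hE : ∀ x ∈ E, PowerSeries.C x ∈ E') (hX : PowerSeries.X ∈ E') (hC : HC E') (hN : HN E')
    {N : ℕ} (y : Fin N → PowerSeries P) (T : Tri N)
    (hT : ∀ j, MvPolynomial.aeval y (T.eq j) = 0) (hD : XReg (MvPolynomial.aeval y T.dl)) (c : ℕ) :
    ∃ y' : Fin N → PowerSeries P, (∀ i, y' i ∈ E') ∧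
      (∀ j, MvPolynomial.aeval y' (T.eq j) = 0) ∧ Cg c y' y := by
  have hD' : XReg (MvPolynomial.aeval y (T.dl ^ (2 * N))) := by
    unfold XReg at hD ⊢
    rw [map_pow, map_pow]
    exact pow_ne_zero _ hD
  obtain ⟨y₁, hy₁, hw₁, hc₁⟩ := WR4_main hA hE hX hC y T.eq hT (T.dl ^ (2 * N)) hD' c
  have hw : ∀ j, ∃ w ∈ E', w ∈ maximalIdeal (PowerSeries P) ∧
      (@MvPolynomial.aeval ℤ (PowerSeries P) (Fin N) _ _ (Ring.toIntAlgebra _) y₁) (T.eq j) =
      PowerSeries.X ^ c * ((@MvPolynomial.aeval ℤ (PowerSeries P) (Fin N) _ _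
        (Ring.toIntAlgebra _) y₁) T.dl) ^ (2 * N) * w := by
    intro j
    obtain ⟨w, hwE, hwm, h⟩ := hw₁ j
    refine ⟨w, hwE, hwm, ?_⟩
    rw [ind1_int, ind1_int, h, map_pow]
  obtain ⟨u, huE, hum, hu⟩ := SH2_main hC hN T y₁ hy₁ (PowerSeries.X ^ c) (pow_mem hX c) hw
  refine ⟨fun i => y₁ i + PowerSeries.X ^ c * u i,
    fun i => add_mem (hy₁ i) (mul_mem (pow_mem hX c) (huE i)),
    fun j => (ind1_int _ _).symm.trans (hu j), fun i => ?_⟩
  have h1 : y₁ i + PowerSeries.X ^ c * u i - y i = (y₁ i - y i) + PowerSeries.X ^ c * u i := by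
    ring
  beta_reduce
  rw [h1]
  exact add_mem (hc₁ i) (WR3_X c (u i))

end Pool.Agent.Lib.H61E
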