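import Pool.Agent.Lib.H61E.Defs

/-!
# TR1: pseudo-division and vanishing of coefficients

PROOF of TR1_div: strong induction on `natDegree G`.  If `natDegree G < natDegree g` take `e = 0`,
`q = 0`, `r = G`.  Otherwise `G₁ = C lc(g) * G - C lc(G) * X^(deg G - deg g) * g` has smaller degree
(the leading terms cancel; `Polynomial.natDegree_sub_lt`-like; treat `natDegree G = natDegree g` as well:
the degree drops since `natDegree g > 0`, so `natDegree G > 0`), apply the induction hypothesis to `G₁`.
(The cancellation works over any commutative ring.)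
PROOF of TR1_coeff: suppose `sp y r ≠ 0`, `d = natDegree (sp y r)`, `g₀ = ∑_{i ≤ d} monomial i (r.coeff i)`
(`Finset.range (d+1)`).  `sp y g₀ = sp y r` (the coefficients of `sp y r` above `d` vanish), the
coefficient `r.coeff d` has nonzero image under `aeval y`, so it is nonzero and `natDegree g₀ = d`,
`g₀.leadingCoeff = r.coeff d`; `d ≤ natDegree r`.  So `(sp y g₀).eval t = 0` and the hypothesis gives
`aeval y g₀.leadingCoeff = 0`, a contradiction.
-/

set_option autoImplicit false
open IsLocalRing

namespace Pool.Agent.Lib.H61E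
universe u

private theorem TR1_div_aux {A : Type*} [CommRing A] (g : Polynomial A) (hg : 0 < g.natDegree) :
    ∀ (n : ℕ) (G : Polynomial A), G.natDegree < n →
    ∃ (e : ℕ) (q r : Polynomial A), Polynomial.C (g.leadingCoeff ^ e) * G = q * g + r ∧
      r.natDegree < g.natDegree := by
  intro n
  induction n with
  | zero => intro G hG; exact absurd hG (Nat.not_lt_zero _)
  | succ n ih =>
    intro G hG
    by_cases h : G.natDegree < g.natDegree
    · exact ⟨0, 0, G, by simp, h⟩
    · push Not at h
      obtain ⟨G₁, hG₁⟩ : ∃ G₁ : Polynomial A, G₁ = Polynomial.C g.leadingCoeff * G -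
        Polynomial.C G.leadingCoeff * (Polynomial.X ^ (G.natDegree - g.natDegree) * g) := ⟨_, rfl⟩
      have hdeg : G₁.natDegree ≤ G.natDegree - 1 := by
        rw [Polynomial.natDegree_le_iff_coeff_eq_zero]
        intro i hi
        have hi' : G.natDegree ≤ i := by omega
        rw [hG₁, Polynomial.coeff_sub, Polynomial.coeff_C_mul, Polynomial.coeff_C_mul,
          Polynomial.coeff_X_pow_mul', if_pos (by omega)]
        rcases Nat.eq_or_lt_of_le hi' with h1 | h1
        · have h2 : i - (G.natDegree - g.natDegree) = g.natDegree := by omega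
          rw [h2, ← h1]
          simp only [Polynomial.coeff_natDegree]
          ring
        · rw [Polynomial.coeff_eq_zero_of_natDegree_lt h1,
            Polynomial.coeff_eq_zero_of_natDegree_lt (p := g) (by omega)]
          simp
      obtain ⟨e, q, r, h1, h2⟩ := ih G₁ (by omega)
      refine ⟨e + 1, q + Polynomial.C (g.leadingCoeff ^ e) * Polynomial.C G.leadingCoeff *
        Polynomial.X ^ (G.natDegree - g.natDegree), r, ?_, h2⟩
      have h3 : Polynomial.C (g.leadingCoeff ^ (e + 1)) * G =
          Polynomial.C (g.leadingCoeff ^ e) * G₁ + Polynomial.C (g.leadingCoeff ^ e) *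
          (Polynomial.C G.leadingCoeff * (Polynomial.X ^ (G.natDegree - g.natDegree) * g)) := by
        rw [hG₁, pow_succ, Polynomial.C_mul]
        ring
      rw [h3, h1]
      ring

theorem TR1_div {A : Type*} [CommRing A] (g G : Polynomial A) (hg : 0 < g.natDegree) :
    ∃ (e : ℕ) (q r : Polynomial A), Polynomial.C (g.leadingCoeff ^ e) * G = q * g + r ∧
      r.natDegree < g.natDegree :=
  TR1_div_aux g hg (G.natDegree + 1) G (Nat.lt_succ_self _)

theorem TR1_coeff {R : Type u} [CommRing R] {ι : Type*} (y : ι → R) (t : R)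
    (r : Polynomial (MvPolynomial ι ℤ))
    (hmin : ∀ g₀ : Polynomial (MvPolynomial ι ℤ), g₀.natDegree ≤ r.natDegree →
      (sp y g₀).eval t = 0 → MvPolynomial.aeval y g₀.leadingCoeff = 0)
    (hr : (sp y r).eval t = 0) : sp y r = 0 := by
  by_contra hne
  obtain ⟨d, hd⟩ : ∃ d, d = (sp y r).natDegree := ⟨_, rfl⟩
  obtain ⟨g₀, hg₀⟩ : ∃ g₀ : Polynomial (MvPolynomial ι ℤ),
    g₀ = ∑ i ∈ Finset.range (d + 1), Polynomial.monomial i (r.coeff i) := ⟨_, rfl⟩
  have hspc : ∀ (p : Polynomial (MvPolynomial ι ℤ)) (i : ℕ),
      (sp y p).coeff i = MvPolynomial.aeval y (p.coeff i) := by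
    intro p i
    unfold sp
    rw [Polynomial.coeff_map]
    rfl
  have hc : ∀ i, g₀.coeff i = if i < d + 1 then r.coeff i else 0 := by
    intro i
    rw [hg₀, Polynomial.finsetSum_coeff]
    simp only [Polynomial.coeff_monomial]
    rw [Finset.sum_ite_eq' (Finset.range (d + 1)) i]
    simp only [Finset.mem_range]
  have hsp : sp y g₀ = sp y r := by
    ext i
    rw [hspc, hc]
    split_ifs with h
    · rw [hspc]
    · rw [map_zero, Polynomial.coeff_eq_zero_of_natDegree_lt (by omega)]
  have hlead : MvPolynomial.aeval y (r.coeff d) ≠ 0 := by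
    rw [← hspc, hd]
    exact Polynomial.leadingCoeff_ne_zero.2 hne
  have hrd : r.coeff d ≠ 0 := by
    intro h0
    rw [h0, map_zero] at hlead
    exact hlead rfl
  have hdr : d ≤ r.natDegree := Polynomial.le_natDegree_of_ne_zero hrd
  have hgd : g₀.natDegree = d := by
    refine le_antisymm ?_ ?_
    · rw [Polynomial.natDegree_le_iff_coeff_eq_zero]
      intro i hi
      rw [hc, if_neg (by omega)]
    · refine Polynomial.le_natDegree_of_ne_zero ?_
      rw [hc, if_pos (by omega)]
      exact hrd
  have h1 := hmin g₀ (by rw [hgd]; exact hdr) (by rw [hsp]; exact hr)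
  apply hlead
  have h2 : g₀.leadingCoeff = r.coeff d := by
    rw [Polynomial.leadingCoeff, hgd, hc, if_pos (by omega)]
  rw [← h2]
  exact h1

end Pool.Agent.Lib.H61E
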