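import Pool.Agent.Lib.H61E.TR0
import Pool.Agent.Lib.H61E.TR1

/-!
# TR2: every finite family in a domain of characteristic zero satisfies a triangular system that
determines its relations

PROOF.  Induction on `N`.  `N = 0`: `T = nil` (`y = y'`, `Subsingleton`).  Step: let `y⁺ = (y_{i+1})_i` and
let `T₀` be the system for `y⁺`.
Case 1: there is `g` with `(sp y⁺ g).eval (y 0) = 0` and `aeval y⁺ g.leadingCoeff ≠ 0`.  Take one with
`natDegree g` minimal (`Nat.find` on the degree).  Then `natDegree g > 0` (otherwise `g = C c` and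
`0 = aeval y⁺ c ≠ 0`).  `T = T₀.alg g`.  Equations: TR0_eq_alg.  `lc ≠ 0`: TR0_lc_alg.  `dl ≠ 0`: by
TR0_dl_alg it suffices that `(sp y⁺ g).derivative.eval (y 0) ≠ 0`; `sp y⁺ (derivative g)` is this
derivative (`Polynomial.derivative_map`); if it vanished at `y 0`, then `derivative g`, of degree
`natDegree g - 1 < natDegree g`, with leading coefficient `(natDegree g) * lc(g)` (not killed by `aeval y⁺`:
`R` is a domain with `CharZero`; note that the coefficient of `derivative g` at `natDegree g - 1` is
nonzero, `Polynomial.coeff_derivative`), would contradict minimality.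
Relations: let `y'` satisfy the equations and `lc(y') ≠ 0`, let `aeval y F = 0`, `G = finSuccEquiv F`, so
`(sp y⁺ G).eval (y 0) = 0` (TR0_up, TR0_surj).  TR1_div: `lc(g)^e G = q g + r`.  Applying `sp y⁺` and
evaluating, `(sp y⁺ r).eval (y 0) = 0`; by minimality TR1_coeff gives `sp y⁺ r = 0`, i.e. all coefficients
of `r` vanish at `y⁺`, so they vanish at `y'⁺` (`Rel y⁺ y'⁺` by the induction hypothesis for `T₀`, whose
assumptions hold by TR0_eq_alg, TR0_lc_alg), so `sp y'⁺ r = 0`.  Hence
`lc(g)(y'⁺)^e · (sp y'⁺ G).eval (y' 0) = 0` and `aeval y' F = 0`, `R` being a domain.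
Case 2: no such `g`.  `T = T₀.free`.  If `aeval y F = 0`, TR1_coeff (all `g₀`) gives `sp y⁺ G = 0`, so
`sp y'⁺ G = 0` and `aeval y' F = 0`.
-/

set_option autoImplicit false
open IsLocalRing

namespace Pool.Agent.Lib.H61E
universe u

private theorem TR2_mul {R : Type u} [CommRing R] {ι : Type*} (y : ι → R)
    (a b : Polynomial (MvPolynomial ι ℤ)) : sp y (a * b) = sp y a * sp y b := by
  unfold sp
  rw [Polynomial.map_mul]

private theorem TR2_add {R : Type u} [CommRing R] {ι : Type*} (y : ι → R)
    (a b : Polynomial (MvPolynomial ι ℤ)) : sp y (a + b) = sp y a + sp y b := by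
  unfold sp
  rw [Polynomial.map_add]

private theorem TR2_C {R : Type u} [CommRing R] {ι : Type*} (y : ι → R)
    (a : MvPolynomial ι ℤ) : sp y (Polynomial.C a) = Polynomial.C (MvPolynomial.aeval y a) := by
  unfold sp
  rw [Polynomial.map_C]
  rfl

private theorem TR2_coeff {R : Type u} [CommRing R] {ι : Type*} (y : ι → R)
    (a : Polynomial (MvPolynomial ι ℤ)) (i : ℕ) :
    (sp y a).coeff i = MvPolynomial.aeval y (a.coeff i) := by
  unfold sp
  rw [Polynomial.coeff_map]
  rfl

private theorem TR2_zero {R : Type u} [CommRing R] {ι : Type*} (y y' : ι → R)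
    (h : Rel y y') (a : Polynomial (MvPolynomial ι ℤ)) (ha : sp y a = 0) : sp y' a = 0 := by
  refine Polynomial.ext fun i => ?_
  rw [TR2_coeff, Polynomial.coeff_zero]
  apply h
  rw [← TR2_coeff, ha, Polynomial.coeff_zero]

theorem TR2_main {R : Type u} [CommRing R] [IsDomain R] [CharZero R] {N : ℕ} (y : Fin N → R) :
    ∃ T : Tri N, (∀ j, MvPolynomial.aeval y (T.eq j) = 0) ∧ MvPolynomial.aeval y T.lc ≠ 0 ∧
      MvPolynomial.aeval y T.dl ≠ 0 ∧
      ∀ y' : Fin N → R, (∀ j, MvPolynomial.aeval y' (T.eq j) = 0) →
        MvPolynomial.aeval y' T.lc ≠ 0 → Rel y y' := by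
  classical
  induction N with
  | zero =>
    refine ⟨Tri.nil, fun j => j.elim0, ?_, ?_, ?_⟩
    · show MvPolynomial.aeval y (1 : MvPolynomial (Fin 0) ℤ) ≠ 0
      rw [map_one]
      exact one_ne_zero
    · show MvPolynomial.aeval y (1 : MvPolynomial (Fin 0) ℤ) ≠ 0
      rw [map_one]
      exact one_ne_zero
    · intro y' _ _ f hf
      rw [Subsingleton.elim y' y]
      exact hf
  | succ N ih =>
    obtain ⟨T₀, h1, h2, h3, h4⟩ := ih (fun i : Fin N => y i.succ)
    have hFG : ∀ (w : Fin (N + 1) → R) (F : MvPolynomial (Fin (N + 1)) ℤ),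
        MvPolynomial.aeval w F =
          (sp (fun i : Fin N => w i.succ) (MvPolynomial.finSuccEquiv ℤ N F)).eval (w 0) := by
      intro w F
      rw [← TR0_up, TR0_surj]
    by_cases hex : ∃ d, ∃ g : Polynomial (MvPolynomial (Fin N) ℤ), g.natDegree = d ∧
        (sp (fun i : Fin N => y i.succ) g).eval (y 0) = 0 ∧
        MvPolynomial.aeval (fun i : Fin N => y i.succ) g.leadingCoeff ≠ 0
    · obtain ⟨g, hgd, hg0, hglc⟩ := Nat.find_spec hex
      have hmin : ∀ g₀ : Polynomial (MvPolynomial (Fin N) ℤ), g₀.natDegree < g.natDegree →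
          (sp (fun i : Fin N => y i.succ) g₀).eval (y 0) = 0 →
          MvPolynomial.aeval (fun i : Fin N => y i.succ) g₀.leadingCoeff = 0 := by
        intro g₀ hlt h0
        by_contra hne
        exact Nat.find_min hex (by rw [← hgd]; exact hlt) ⟨g₀, rfl, h0, hne⟩
      have hpos : 0 < g.natDegree := by
        rcases Nat.eq_zero_or_pos g.natDegree with h0 | h0
        · exfalso
          obtain ⟨c, hc⟩ := Polynomial.natDegree_eq_zero.1 h0
          rw [← hc, TR2_C, Polynomial.eval_C] at hg0
          rw [← hc, Polynomial.leadingCoeff_C] at hglc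
          exact hglc hg0
        · exact h0
      have hder : (sp (fun i : Fin N => y i.succ) g).derivative.eval (y 0) ≠ 0 := by
        intro h0
        have h5 : sp (fun i : Fin N => y i.succ) (Polynomial.derivative g) =
            (sp (fun i : Fin N => y i.succ) g).derivative := by
          unfold sp
          rw [Polynomial.derivative_map]
        rw [← h5] at h0
        have h6 := hmin _ (Polynomial.natDegree_derivative_lt hpos.ne') h0
        have h7 : (Polynomial.derivative g).coeff (g.natDegree - 1) =
            g.leadingCoeff * (g.natDegree : MvPolynomial (Fin N) ℤ) := by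
          rw [Polynomial.coeff_derivative, Nat.sub_add_cancel hpos, Polynomial.leadingCoeff,
            ← Nat.cast_succ, Nat.succ_eq_add_one, Nat.sub_add_cancel hpos]
        have hg0' : g.leadingCoeff ≠ 0 := by
          intro h8
          rw [h8, map_zero] at hglc
          exact hglc rfl
        have h8 : (Polynomial.derivative g).coeff (g.natDegree - 1) ≠ 0 := by
          rw [h7]
          exact mul_ne_zero hg0' (Nat.cast_ne_zero.2 hpos.ne')
        have h9 : (Polynomial.derivative g).natDegree = g.natDegree - 1 := by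
          refine le_antisymm ?_ (Polynomial.le_natDegree_of_ne_zero h8)
          have := Polynomial.natDegree_derivative_lt hpos.ne'
          omega
        rw [Polynomial.leadingCoeff, h9, h7, map_mul, map_natCast] at h6
        rcases mul_eq_zero.1 h6 with h10 | h10
        · exact hglc h10
        · exact hpos.ne' (Nat.cast_eq_zero.1 h10)
      refine ⟨T₀.alg g, (TR0_eq_alg T₀ g y).2 ⟨h1, hg0⟩, ?_, ?_, ?_⟩
      · rw [TR0_lc_alg]
        exact mul_ne_zero h2 hglc
      · rw [TR0_dl_alg]
        exact mul_ne_zero h3 hder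
      · intro y' hy' hlc' F hF
        obtain ⟨h5, h6⟩ := (TR0_eq_alg T₀ g y').1 hy'
        rw [TR0_lc_alg] at hlc'
        have h7 := left_ne_zero_of_mul hlc'
        have h8 := right_ne_zero_of_mul hlc'
        have hrel := h4 (fun i : Fin N => y' i.succ) h5 h7
        rw [hFG] at hF ⊢
        obtain ⟨e, q, r, hqr, hrd⟩ := TR1_div g (MvPolynomial.finSuccEquiv ℤ N F) hpos
        have h9 : ∀ w : Fin (N + 1) → R,
            MvPolynomial.aeval (fun i : Fin N => w i.succ) (g.leadingCoeff ^ e) *
              (sp (fun i : Fin N => w i.succ) (MvPolynomial.finSuccEquiv ℤ N F)).eval (w 0) =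
            (sp (fun i : Fin N => w i.succ) q).eval (w 0) *
              (sp (fun i : Fin N => w i.succ) g).eval (w 0) +
              (sp (fun i : Fin N => w i.succ) r).eval (w 0) := by
          intro w
          rw [← Polynomial.eval_mul, ← Polynomial.eval_add, ← TR2_mul, ← TR2_add, ← hqr, TR2_mul,
            TR2_C, Polynomial.eval_mul, Polynomial.eval_C]
        have h10 := h9 y
        rw [hF, hg0, mul_zero, mul_zero, zero_add] at h10
        have h11 : sp (fun i : Fin N => y i.succ) r = 0 := by
          refine TR1_coeff (fun i : Fin N => y i.succ) (y 0) r (fun g₀ hg₀ h12 => ?_) h10.symm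
          exact hmin g₀ (lt_of_le_of_lt hg₀ hrd) h12
        have h12 := TR2_zero _ _ hrel r h11
        have h13 := h9 y'
        rw [h6, h12, mul_zero, Polynomial.eval_zero, zero_add, map_pow] at h13
        exact (mul_eq_zero.1 h13).resolve_left (pow_ne_zero _ h8)
    · refine ⟨T₀.free, (TR0_eq_free T₀ y).2 h1, ?_, ?_, ?_⟩
      · rw [TR0_lc_free]
        exact h2
      · rw [TR0_dl_free]
        exact h3
      · intro y' hy' hlc' F hF
        have h5 := (TR0_eq_free T₀ y').1 hy'
        rw [TR0_lc_free] at hlc'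
        have hrel := h4 (fun i : Fin N => y' i.succ) h5 hlc'
        rw [hFG] at hF ⊢
        have h11 : sp (fun i : Fin N => y i.succ) (MvPolynomial.finSuccEquiv ℤ N F) = 0 := by
          refine TR1_coeff (fun i : Fin N => y i.succ) (y 0) _ (fun g₀ _ h12 => ?_) hF
          by_contra hne
          exact hex ⟨_, g₀, rfl, h12, hne⟩
        rw [TR2_zero _ _ hrel _ h11, Polynomial.eval_zero]

end Pool.Agent.Lib.H61E
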