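import Pool.Agent.Lib.H61E.IND1
import Pool.Agent.Lib.H61E.TR2

/-!
# IND2: the induction step of the approximation theorem

PROOF.  `R = P⟦X⟧` is a Noetherian local domain of characteristic zero.  Let `y : Fin N → R`, `c` be given;
`T` from TR2_main for `y`.  `f = aeval y T.dl ≠ 0`; `θ` from `hCC` for `f`.  Put `z i = θ (y i)`; then
`aeval z F = θ (aeval y F)` for all `F`.  `l = aeval z T.lc ≠ 0`, so `l ∉ m^n` for some `n` (Krull:
`Ideal.iInf_pow_eq_bot_of_isLocalRing`, `R` Noetherian local; or `IsHausdorff`).  IND1_main for `z`, `T` and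
`max c n`: `z'`.  `aeval z' T.lc - aeval z T.lc ∈ m^n` (the ideal `m^n` contains all `z' i - z i`; compare in
the quotient ring), so `aeval z' T.lc ≠ 0`.  Put `y' i = θ.symm (z' i)`: in `E'` (`hCC`: `x ∈ E' ↔ θ x ∈ E'`);
equations and `lc ≠ 0` pass to `y'`, so `Rel y y'`; `y' i - y i = θ.symm (z' i - z i) ∈ m^c` since a ring
automorphism of a local ring maps the maximal ideal onto itself.
-/

set_option autoImplicit false
open IsLocalRing

namespace Pool.Agent.Lib.H61E
universe u

theorem ind2_e {R : Type*} [CommRing R] {i : Algebra ℤ R} {N : ℕ} (y : Fin N → R)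
    (F : MvPolynomial (Fin N) ℤ) :
    @MvPolynomial.aeval ℤ R (Fin N) _ _ i y F =
      MvPolynomial.eval₂ (Int.castRingHom R) y F := by
  rw [MvPolynomial.aeval_def, RingHom.ext_int (@algebraMap ℤ R _ _ i) (Int.castRingHom R)]

theorem ind2_ev {R S : Type*} [CommRing R] [CommRing S] {N : ℕ} (θ : R →+* S) (y : Fin N → R)
    (F : MvPolynomial (Fin N) ℤ) :
    MvPolynomial.eval₂ (Int.castRingHom S) (fun i => θ (y i)) F =
      θ (MvPolynomial.eval₂ (Int.castRingHom R) y F) := by
  rw [MvPolynomial.eval₂_comp_left, RingHom.ext_int (θ.comp (Int.castRingHom R)) (Int.castRingHom S)]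
  rfl

theorem ind2_pow {R : Type*} [CommRing R] [IsLocalRing R] (θ : R ≃+* R) (c : ℕ) {x : R}
    (hx : x ∈ maximalIdeal R ^ c) : θ x ∈ maximalIdeal R ^ c := by
  have h1 : (maximalIdeal R).map (θ : R →+* R) ≤ maximalIdeal R := by
    rw [Ideal.map_le_iff_le_comap]
    intro a ha
    rw [Ideal.mem_comap, mem_maximalIdeal, mem_nonunits_iff]
    rw [mem_maximalIdeal, mem_nonunits_iff] at ha
    intro h
    apply ha
    have h2 := h.map (θ.symm : R →+* R)
    simpa using h2
  have h3 : θ x ∈ (maximalIdeal R ^ c).map (θ : R →+* R) := Ideal.mem_map_of_mem (θ : R →+* R) hx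
  rw [Ideal.map_pow] at h3
  exact Ideal.pow_right_mono h1 c h3

theorem IND2_main {P : Type u} [CommRing P] [IsNoetherianRing P] [IsLocalRing P] [IsDomain P]
    [CharZero P] [IsAdicComplete (maximalIdeal P) P]
    {E : Subring P} (hA : AZ P E) {E' : Subring (PowerSeries P)}
    (hE : ∀ x ∈ E, PowerSeries.C x ∈ E') (hX : PowerSeries.X ∈ E') (hC : HC E') (hN : HN E')
    (hCC : CCp E') : AZ (PowerSeries P) E' := by
  classical
  haveI : CharZero (PowerSeries P) :=
    charZero_of_injective_ringHom (f := (PowerSeries.C : P →+* PowerSeries P))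
      PowerSeries.C_injective
  intro N y c
  obtain ⟨T, hTeq, hlc, hdl, hrel⟩ := TR2_main y
  obtain ⟨θ, hθ, hreg⟩ := hCC _ hdl
  have hTeq' : ∀ j, MvPolynomial.eval₂ (Int.castRingHom (PowerSeries P)) y (T.eq j) = 0 := by
    intro j
    have h := hTeq j
    rw [ind2_e] at h
    exact h
  have hlc0 : MvPolynomial.eval₂ (Int.castRingHom (PowerSeries P)) y T.lc ≠ 0 := by
    have h := hlc
    rw [ind2_e] at h
    exact h
  have haz : ∀ F : MvPolynomial (Fin N) ℤ,
      MvPolynomial.eval₂ (Int.castRingHom (PowerSeries P)) (fun i => θ (y i)) F =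
        θ (MvPolynomial.eval₂ (Int.castRingHom (PowerSeries P)) y F) :=
    ind2_ev (θ : PowerSeries P →+* PowerSeries P) y
  have hl : MvPolynomial.eval₂ (Int.castRingHom (PowerSeries P)) (fun i => θ (y i)) T.lc ≠ 0 := by
    rw [haz]
    exact (map_ne_zero_iff θ θ.injective).2 hlc0
  obtain ⟨n, hn⟩ : ∃ n : ℕ, MvPolynomial.eval₂ (Int.castRingHom (PowerSeries P))
      (fun i => θ (y i)) T.lc ∉ maximalIdeal (PowerSeries P) ^ n := by
    by_contra hcon
    push Not at hcon
    have h1 := Ideal.iInf_pow_eq_bot_of_isLocalRing (maximalIdeal (PowerSeries P))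
      (Ideal.IsPrime.ne_top inferInstance)
    have h2 : MvPolynomial.eval₂ (Int.castRingHom (PowerSeries P)) (fun i => θ (y i)) T.lc ∈
        ⨅ i : ℕ, maximalIdeal (PowerSeries P) ^ i := by
      rw [Ideal.mem_iInf]
      exact hcon
    rw [h1, Ideal.mem_bot] at h2
    exact hl h2
  have hreg' : XReg (MvPolynomial.eval₂ (Int.castRingHom (PowerSeries P)) (fun i => θ (y i))
      T.dl) := by
    rw [haz]
    have h := hreg
    rw [ind2_e] at h
    exact h
  obtain ⟨z', hz'E, hz'T, hz'c⟩ := IND1_main hA hE hX hC hN (fun i => θ (y i)) T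
    (fun j => by rw [ind2_e, haz, hTeq', map_zero]) (by rw [ind2_e]; exact hreg') (max c n)
  have hz'T' : ∀ j, MvPolynomial.eval₂ (Int.castRingHom (PowerSeries P)) z' (T.eq j) = 0 := by
    intro j
    have h := hz'T j
    rw [ind2_e] at h
    exact h
  have hlc' : MvPolynomial.eval₂ (Int.castRingHom (PowerSeries P)) z' T.lc ≠ 0 := by
    intro h0
    apply hn
    set I := maximalIdeal (PowerSeries P) ^ n with hI
    have h1 : (fun i => Ideal.Quotient.mk I (z' i)) =
        fun i => Ideal.Quotient.mk I (θ (y i)) := by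
      funext i
      rw [Ideal.Quotient.eq]
      exact Ideal.pow_le_pow_right (le_max_right c n) (hz'c i)
    have h2 := ind2_ev (Ideal.Quotient.mk I) z' T.lc
    have h3 := ind2_ev (Ideal.Quotient.mk I) (fun i => θ (y i)) T.lc
    rw [h1, h3, h0, map_zero] at h2
    exact Ideal.Quotient.eq_zero_iff_mem.1 h2
  have hay : ∀ F : MvPolynomial (Fin N) ℤ,
      MvPolynomial.eval₂ (Int.castRingHom (PowerSeries P)) (fun i => θ.symm (z' i)) F =
        θ.symm (MvPolynomial.eval₂ (Int.castRingHom (PowerSeries P)) z' F) :=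
    ind2_ev (θ.symm : PowerSeries P →+* PowerSeries P) z'
  refine ⟨fun i => θ.symm (z' i), fun i => ?_, hrel _ (fun j => ?_) ?_, fun i => ?_⟩
  · rw [hθ, RingEquiv.apply_symm_apply]
    exact hz'E i
  · rw [ind2_e, hay, hz'T', map_zero]
  · rw [ind2_e, hay]
    exact (map_ne_zero_iff θ.symm θ.symm.injective).2 hlc'
  · have h1 : θ.symm (z' i) - y i = θ.symm (z' i - θ (y i)) := by
      rw [map_sub, RingEquiv.symm_apply_apply]
    change θ.symm (z' i) - y i ∈ _
    rw [h1]
    exact ind2_pow θ.symm c (Ideal.pow_le_pow_right (le_max_left c n) (hz'c i))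

end Pool.Agent.Lib.H61E
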