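import Pool.Agent.Lib.H61E.Defs

/-!
# MX: the maximal ideal of `k[[x_1, ..., x_n]]`

PROOF.  MX_low: let all coefficients of `f` in degrees `< d` vanish; then `f ∈ (X_1, ..., X_n)^d`.
Induction on `d`, or: every exponent `e` of degree `≥ d` is `≥` some exponent of degree exactly `d`; choose
a function `a` from exponents of degree `≥ d` to the finite set of exponents of degree `d` with
`a e ≤ e`; `f = ∑_{|α| = d} X^α g_α` with `g_α = ∑_{a e = α} f_e X^(e-α)`.  (Alternatively use the Mathlib
isomorphism with the completion, `MvPowerSeries.toAdicCompletionAlgEquiv`, and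
`AdicCompletion.pow_smul_top_eq_ker_eval`.)  MX_max: an element of the maximal ideal has zero constant
coefficient (`MvPowerSeries.isUnit_iff_constantCoeff`), so it is in the span by MX_low with `d = 1`;
conversely `X_i` is not a unit.  MX_complete: MX_max and the Mathlib instance for
`Ideal.span (Set.range X)`.  MX_trunc: `f` minus the polynomial of its terms of degree `< d`
(`MvPowerSeries.truncTotal`, or `MvPolynomial` by hand).
-/

set_option autoImplicit false
open IsLocalRing

namespace Pool.Agent.Lib.H61E
universe u

variable {k : Type u} [Field k] {n : ℕ}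

open Classical in
/-- The part of `f` whose least variable is `X i`, divided by `X i`. -/
private noncomputable def mx_part (f : MvPowerSeries (Fin n) k) (i : Fin n) :
    MvPowerSeries (Fin n) k :=
  fun e => if ∀ j < i, e j = 0 then MvPowerSeries.coeff (e + Finsupp.single i 1) f else 0

private theorem mx_coeff_part (f : MvPowerSeries (Fin n) k) (i : Fin n) (e : Fin n →₀ ℕ) :
    MvPowerSeries.coeff e (mx_part f i) = (open Classical in
      if ∀ j < i, e j = 0 then MvPowerSeries.coeff (e + Finsupp.single i 1) f else 0) := rfl

private theorem mx_sum (f : MvPowerSeries (Fin n) k)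
    (h : MvPowerSeries.coeff 0 f = 0) : f = ∑ i, MvPowerSeries.X i * mx_part f i := by
  classical
  ext e
  rw [map_sum]
  have hterm : ∀ i : Fin n, MvPowerSeries.coeff e (MvPowerSeries.X i * mx_part f i) =
      if Finsupp.single i 1 ≤ e then MvPowerSeries.coeff (e - Finsupp.single i 1) (mx_part f i)
      else 0 := by
    intro i
    rw [MvPowerSeries.X_def, MvPowerSeries.coeff_monomial_mul, one_mul]
  simp only [hterm]
  by_cases he : e = 0
  · subst he
    rw [h, Finset.sum_eq_zero]
    intro i _
    rw [if_neg]
    intro hle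
    have := hle i
    rw [Finsupp.single_eq_same, Finsupp.zero_apply] at this
    omega
  · have hsup : e.support.Nonempty := Finsupp.support_nonempty_iff.mpr he
    obtain ⟨i0, hi0⟩ : ∃ i0, i0 = e.support.min' hsup := ⟨_, rfl⟩
    have hi0mem : e i0 ≠ 0 := by
      rw [hi0]
      exact Finsupp.mem_support_iff.mp (Finset.min'_mem _ _)
    have hi0min : ∀ j, e j ≠ 0 → i0 ≤ j := by
      intro j hj
      rw [hi0]
      exact Finset.min'_le _ _ (Finsupp.mem_support_iff.mpr hj)
    rw [Finset.sum_eq_single i0]
    · have hle : Finsupp.single i0 1 ≤ e := by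
        rw [Finsupp.single_le_iff]
        omega
      rw [if_pos hle, mx_coeff_part, if_pos, tsub_add_cancel_of_le hle]
      intro j hj
      rw [Finsupp.tsub_apply]
      have : e j = 0 := by
        by_contra hne
        exact absurd (hi0min j hne) (not_le.mpr hj)
      omega
    · intro i _ hi
      split_ifs with hle
      · rw [mx_coeff_part, if_neg]
        intro hall
        have hei : e i ≠ 0 := by
          rw [Finsupp.single_le_iff] at hle
          omega
        have hlt : i0 < i := lt_of_le_of_ne (hi0min i hei) (Ne.symm hi)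
        have h1 := hall i0 hlt
        rw [Finsupp.tsub_apply, Finsupp.single_apply, if_neg hi] at h1
        omega
      · rfl
    · intro hnot
      exact absurd (Finset.mem_univ _) hnot

theorem MX_low (d : ℕ) (f : MvPowerSeries (Fin n) k)
    (h : ∀ e : Fin n →₀ ℕ, e.degree < d → MvPowerSeries.coeff e f = 0) :
    f ∈ (Ideal.span (Set.range MvPowerSeries.X) : Ideal (MvPowerSeries (Fin n) k)) ^ d := by
  induction d generalizing f with
  | zero => simp
  | succ d ih =>
    rw [mx_sum f (h 0 (by simp)), pow_succ']
    refine Ideal.sum_mem _ fun i _ => ?_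
    refine Ideal.mul_mem_mul (Ideal.subset_span (Set.mem_range_self i)) (ih _ ?_)
    intro e he
    rw [mx_coeff_part]
    split_ifs with hall
    · apply h
      rw [map_add, Finsupp.degree_single]
      omega
    · rfl

theorem MX_max : maximalIdeal (MvPowerSeries (Fin n) k) =
    Ideal.span (Set.range MvPowerSeries.X) := by
  apply le_antisymm
  · intro f hf
    have h1 : MvPowerSeries.constantCoeff f = 0 := by
      by_contra hne
      exact (mem_maximalIdeal f).mp hf
        (MvPowerSeries.isUnit_iff_constantCoeff.mpr (isUnit_iff_ne_zero.mpr hne))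
    have h2 := MX_low 1 f ?_
    · rwa [pow_one] at h2
    · intro e he
      have he0 : e = 0 := by
        rw [← Finsupp.degree_eq_zero_iff]
        omega
      rw [he0]
      exact h1
  · rw [Ideal.span_le]
    rintro _ ⟨i, rfl⟩
    rw [SetLike.mem_coe, mem_maximalIdeal]
    intro hu
    have h1 := MvPowerSeries.isUnit_iff_constantCoeff.mp hu
    rw [MvPowerSeries.constantCoeff_X] at h1
    exact not_isUnit_zero h1

theorem MX_complete : IsAdicComplete (maximalIdeal (MvPowerSeries (Fin n) k))
    (MvPowerSeries (Fin n) k) := by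
  rw [MX_max]
  infer_instance

theorem MX_hensel : HenselianLocalRing (MvPowerSeries (Fin n) k) := by
  have hc : IsAdicComplete (maximalIdeal (MvPowerSeries (Fin n) k))
    (MvPowerSeries (Fin n) k) := MX_complete
  have hh : HenselianRing (MvPowerSeries (Fin n) k) (maximalIdeal (MvPowerSeries (Fin n) k)) :=
    inferInstance
  refine ⟨fun f hf a₀ h₁ h₂ => hh.is_henselian f hf a₀ h₁ (h₂.map _)⟩

theorem MX_trunc (d : ℕ) (f : MvPowerSeries (Fin n) k) : ∃ p : MvPolynomial (Fin n) k,
    (∀ e : Fin n →₀ ℕ, e.degree < d → MvPolynomial.coeff e p = MvPowerSeries.coeff e f) ∧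
    (∀ e : Fin n →₀ ℕ, d ≤ e.degree → MvPolynomial.coeff e p = 0) ∧
    f - (p : MvPowerSeries (Fin n) k) ∈ maximalIdeal (MvPowerSeries (Fin n) k) ^ d := by
  refine ⟨MvPowerSeries.truncTotal d f, fun e he => MvPowerSeries.coeff_truncTotal _ he,
    fun e he => MvPowerSeries.coeff_truncTotal_eq_zero _ he, ?_⟩
  rw [MX_max]
  apply MX_low
  intro e he
  rw [map_sub, MvPolynomial.coeff_coe, MvPowerSeries.coeff_truncTotal _ he, sub_self]

end Pool.Agent.Lib.H61E
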