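import Pool.Agent.Lib.H61E.AR

/-!
# ST1: stability of one exact spot modulo an ideal

Data: a finite family `y : ι → P`; indices `G` of generators of an ideal `J(y) = (y_{G j})` and index
matrices `M₂`, `M₁`, so that `M₂.map y`, `M₁.map y` are the matrices with the entries `y_{M₂ i j}` etc.

STATEMENT.  If `(M₁ M₂)(y)` has entries in `J(y)` and `P^a -M₂-> P^b -M₁-> P^c` is exact at `P^b` modulo
`J(y)`, then this property is stable (`Stb`) at `y`.

PROOF.  Write `g_l = y_{G l}` (`l ∈ m`), and let `Φ : P^b ⊕ P^(c × m) → P^c`,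
`(v, w) ↦ M₁ v + (∑_l g_l w_{(i,l)})_i`.  As a matrix: `Φ : Matrix c (b ⊕ (c × m)) P`,
`Φ i (inl s) = M₁ i s`, `Φ i (inr (i', l)) = if i = i' then g_l else 0`.  `ker Φ` is a finitely generated
submodule of `(b ⊕ c × m) → P` (Noetherian): choose generators, the columns of `D : Matrix (b ⊕ c × m)
(Fin e) P`; so `Φ D = 0` and `ExM ⊥ D Φ`.  For every `t : Fin e` the top block `v_t = (D (inl s) t)_s` has
`M₁ v_t ∈ J`, so by hypothesis `v_t = M₂ u_t + ∑_l g_l q_{t,l}` (`u : Matrix a (Fin e) P`, `q` a family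
`b × Fin e × m → P`; elements of `Ideal.span (Set.range _)`: `Ideal.mem_span_range_iff_exists_fun`).
Also `(M₁ M₂)_{i j} = ∑_l g_l W_{i,j,l}`.
Extra data `x`: the entries of `D`, `u`, `q`, `W` (index type
`κ = ((b ⊕ c × m) × Fin e) ⊕ (a × Fin e) ⊕ (b × Fin e × m) ⊕ (c × a × m)`).
`c₀` = the number of AR_main for `D`, `Φ`.
Let `y'`, `x'` satisfy the same relations over `ℤ` and be congruent modulo `m^c₀`.  The relations
`Φ D = 0` (all entries), `v_t = M₂ u_t + ∑ g q`, `M₁ M₂ = ∑ g W` are polynomial relations over `ℤ` between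
the members of `(y, x)`; hence they hold for `(y', x')`.  (For every relation write down the polynomial
in `MvPolynomial (ι ⊕ κ) ℤ`: sums of products of variables, `simp [MvPolynomial.aeval_X, ..]`.)  AR_main:
`ExM ⊥ D' Φ'`.  Now let `M₁' v ∈ J'`: `(M₁' v)_i = - ∑_l g'_l w_{(i,l)}` for some `w`, so
`(v, w) ∈ ker Φ' = im D'`, `(v, w) = ∑_t z_t D'_t`, `v = ∑ z_t v'_t = M₂' (∑ z_t u'_t) + (element of J')`.
-/

set_option autoImplicit false
open IsLocalRing

namespace Pool.Agent.Lib.H61E
universe u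

/-- the matrix `Φ` of the docstring of the file. -/
noncomputable def ST1_Phi {P : Type u} [CommRing P] {ι : Type} {b c m : Type}
    [DecidableEq c] (G : m → ι) (M₁ : Matrix c b ι) (y : ι → P) : Matrix c (b ⊕ (c × m)) P :=
  fun i k => Sum.elim (fun s => y (M₁ i s)) (fun p => if i = p.1 then y (G p.2) else 0) k

theorem ST1_Phi_mul {P : Type u} [CommRing P] {ι : Type} {b c m : Type} [Fintype b] [Fintype c]
    [Fintype m] [DecidableEq c] (G : m → ι) (M₁ : Matrix c b ι) (y : ι → P)
    (V : b ⊕ (c × m) → P) (i : c) :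
    ∑ k, ST1_Phi G M₁ y i k * V k =
      ∑ s, y (M₁ i s) * V (Sum.inl s) + ∑ l, y (G l) * V (Sum.inr (i, l)) := by
  rw [Fintype.sum_sum_type, Fintype.sum_prod_type]
  congr 1
  rw [Finset.sum_eq_single i]
  · simp [ST1_Phi]
  · intro j _ hj
    refine Finset.sum_eq_zero fun l _ => ?_
    simp [ST1_Phi, Ne.symm hj]
  · intro h
    exact absurd (Finset.mem_univ i) h

theorem ST1_ker {P : Type u} [CommRing P] [IsNoetherianRing P] {k c : Type} [Fintype k] [Fintype c]
    (Φ : Matrix c k P) : ∃ (e : ℕ) (D : Matrix k (Fin e) P), Φ * D = 0 ∧ ExM ⊥ D Φ := by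
  have hfg : (LinearMap.ker Φ.mulVecLin).FG := IsNoetherian.noetherian _
  obtain ⟨e, s, hs⟩ := Submodule.fg_iff_exists_fin_generating_family.mp hfg
  refine ⟨e, Matrix.of fun i t => s t i, ?_, ?_⟩
  · ext i t
    have h1 : s t ∈ LinearMap.ker Φ.mulVecLin := by
      rw [← hs]
      exact Submodule.subset_span ⟨t, rfl⟩
    rw [LinearMap.mem_ker, Matrix.mulVecLin_apply] at h1
    have h2 := congrFun h1 i
    rw [Matrix.mul_apply]
    simpa [Matrix.mulVec, dotProduct] using h2
  · intro v hv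
    have h1 : v ∈ LinearMap.ker Φ.mulVecLin := by
      rw [LinearMap.mem_ker, Matrix.mulVecLin_apply]
      funext i
      simpa using hv i
    rw [← hs, Submodule.mem_span_range_iff_exists_fun] at h1
    obtain ⟨w, hw⟩ := h1
    refine ⟨w, fun i => ?_⟩
    rw [Ideal.mem_bot, sub_eq_zero]
    have h2 := congrFun hw i
    rw [← h2]
    simp [Matrix.mulVec, dotProduct, Finset.sum_apply, mul_comm]

theorem ST1_spot {P : Type u} [CommRing P] [IsNoetherianRing P] [IsLocalRing P] {ι : Type}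
    [Finite ι] {a b c m : Type} [Fintype a] [Fintype b] [Fintype c] [Fintype m]
    (G : m → ι) (M₂ : Matrix b a ι) (M₁ : Matrix c b ι) (y : ι → P)
    (h0 : ∀ i j, (M₁.map y * M₂.map y) i j ∈ Ideal.span (Set.range (y ∘ G)))
    (hex : ExM (Ideal.span (Set.range (y ∘ G))) (M₂.map y) (M₁.map y)) :
    Stb (fun y' : ι → P =>
      (∀ i j, (M₁.map y' * M₂.map y') i j ∈ Ideal.span (Set.range (y' ∘ G))) ∧
      ExM (Ideal.span (Set.range (y' ∘ G))) (M₂.map y') (M₁.map y')) y := by
  classical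
  set J : Ideal P := Ideal.span (Set.range (y ∘ G)) with hJ
  obtain ⟨e, D, hD0, hDex⟩ := ST1_ker (ST1_Phi G M₁ y)
  obtain ⟨c₀, hc₀⟩ := AR_main D (ST1_Phi G M₁ y) hD0 hDex
  -- the relations of `D`
  have hDrel : ∀ i t, ∑ s, y (M₁ i s) * D (Sum.inl s) t +
      ∑ l, y (G l) * D (Sum.inr (i, l)) t = 0 := by
    intro i t
    have h1 := congrFun (congrFun hD0 i) t
    rw [Matrix.mul_apply] at h1
    rw [← ST1_Phi_mul G M₁ y (fun k => D k t) i]
    simpa using h1
  -- the elements `u`, `q`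
  have huq : ∀ t : Fin e, ∃ (u : a → P) (q : b → m → P), ∀ s,
      D (Sum.inl s) t - ∑ j, y (M₂ s j) * u j = ∑ l, q s l * y (G l) := by
    intro t
    obtain ⟨u, hu⟩ := hex (fun s => D (Sum.inl s) t) (by
      intro i
      have h1 : ((M₁.map y).mulVec (fun s => D (Sum.inl s) t)) i =
          ∑ l, (- D (Sum.inr (i, l)) t) * (y ∘ G) l := by
        have h2 := hDrel i t
        have h3 : ∑ l, (- D (Sum.inr (i, l)) t) * (y ∘ G) l =
            - ∑ l, y (G l) * D (Sum.inr (i, l)) t := by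
          rw [← Finset.sum_neg_distrib]
          refine Finset.sum_congr rfl fun l _ => ?_
          simp only [Function.comp_apply]
          ring
        rw [h3]
        simp only [Matrix.mulVec, dotProduct, Matrix.map_apply]
        exact eq_neg_of_add_eq_zero_left h2
      rw [h1]
      exact Ideal.mem_span_range_iff_exists_fun.mpr ⟨_, rfl⟩)
    have h4 : ∀ s, ∃ q : m → P, ∑ l, q l * (y ∘ G) l =
        D (Sum.inl s) t - ((M₂.map y).mulVec u) s := fun s =>
      Ideal.mem_span_range_iff_exists_fun.mp (hu s)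
    choose q hq using h4
    refine ⟨u, q, fun s => ?_⟩
    have h5 := hq s
    simp only [Matrix.mulVec, dotProduct, Matrix.map_apply, Function.comp_apply] at h5
    exact h5.symm
  choose u q huq using huq
  have hW : ∀ i j, ∃ W : m → P, ∑ l, W l * (y ∘ G) l = (M₁.map y * M₂.map y) i j := fun i j =>
    Ideal.mem_span_range_iff_exists_fun.mp (h0 i j)
  choose W hW using hW
  refine ⟨((b ⊕ (c × m)) × Fin e) ⊕ ((a × Fin e) ⊕ ((b × Fin e × m) ⊕ (c × a × m))),
    inferInstance,
    Sum.elim (fun p => D p.1 p.2) (Sum.elim (fun p => u p.2 p.1)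
      (Sum.elim (fun p => q p.2.1 p.1 p.2.2) (fun p => W p.1 p.2.1 p.2.2))), c₀, ?_⟩
  intro y' x' hrel hcy hcx
  set D' : Matrix (b ⊕ (c × m)) (Fin e) P := fun k t => x' (Sum.inl (k, t)) with hD'
  set u' : Fin e → a → P := fun t j => x' (Sum.inr (Sum.inl (j, t))) with hu'
  set q' : Fin e → b → m → P := fun t s l => x' (Sum.inr (Sum.inr (Sum.inl (s, t, l)))) with hq'
  set W' : c → a → m → P := fun i j l => x' (Sum.inr (Sum.inr (Sum.inr (i, j, l)))) with hW'
  -- the relations for `y'`, `x'`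
  have hR1 : ∀ i t, ∑ s, y' (M₁ i s) * D' (Sum.inl s) t +
      ∑ l, y' (G l) * D' (Sum.inr (i, l)) t = 0 := by
    intro i t
    have h1 := hrel (∑ s, MvPolynomial.X (Sum.inl (M₁ i s)) *
        MvPolynomial.X (Sum.inr (Sum.inl (Sum.inl s, t))) +
      ∑ l, MvPolynomial.X (Sum.inl (G l)) *
        MvPolynomial.X (Sum.inr (Sum.inl (Sum.inr (i, l), t)))) (by
      simp only [map_add, map_sum, map_mul, MvPolynomial.aeval_X, Sum.elim_inl, Sum.elim_inr]
      exact hDrel i t)
    simp only [map_add, map_sum, map_mul, MvPolynomial.aeval_X, Sum.elim_inl, Sum.elim_inr] at h1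
    exact h1
  have hR2 : ∀ t s, D' (Sum.inl s) t - ∑ j, y' (M₂ s j) * u' t j = ∑ l, q' t s l * y' (G l) := by
    intro t s
    have h1 := hrel (MvPolynomial.X (Sum.inr (Sum.inl (Sum.inl s, t))) -
      ∑ j, MvPolynomial.X (Sum.inl (M₂ s j)) *
        MvPolynomial.X (Sum.inr (Sum.inr (Sum.inl (j, t)))) -
      ∑ l, MvPolynomial.X (Sum.inr (Sum.inr (Sum.inr (Sum.inl (s, t, l))))) *
        MvPolynomial.X (Sum.inl (G l))) (by
      simp only [map_sub, map_sum, map_mul, MvPolynomial.aeval_X, Sum.elim_inl, Sum.elim_inr]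
      rw [sub_eq_zero]
      exact huq t s)
    simp only [map_sub, map_sum, map_mul, MvPolynomial.aeval_X, Sum.elim_inl, Sum.elim_inr] at h1
    exact sub_eq_zero.mp h1
  have hR3 : ∀ i j, ∑ s, y' (M₁ i s) * y' (M₂ s j) = ∑ l, W' i j l * y' (G l) := by
    intro i j
    have h1 := hrel (∑ s, MvPolynomial.X (Sum.inl (M₁ i s)) * MvPolynomial.X (Sum.inl (M₂ s j)) -
      ∑ l, MvPolynomial.X (Sum.inr (Sum.inr (Sum.inr (Sum.inr (i, j, l))))) *
        MvPolynomial.X (Sum.inl (G l))) (by
      simp only [map_sub, map_sum, map_mul, MvPolynomial.aeval_X, Sum.elim_inl, Sum.elim_inr]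
      rw [sub_eq_zero]
      have h2 := hW i j
      rw [Matrix.mul_apply] at h2
      simp only [Matrix.map_apply, Function.comp_apply] at h2
      exact h2.symm)
    simp only [map_sub, map_sum, map_mul, MvPolynomial.aeval_X, Sum.elim_inl, Sum.elim_inr] at h1
    exact sub_eq_zero.mp h1
  refine ⟨?_, ?_⟩
  · intro i j
    rw [Matrix.mul_apply]
    simp only [Matrix.map_apply]
    rw [hR3 i j]
    exact Ideal.mem_span_range_iff_exists_fun.mpr ⟨W' i j, rfl⟩
  · have hex' : ExM ⊥ D' (ST1_Phi G M₁ y') := by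
      refine hc₀ D' (ST1_Phi G M₁ y') ?_ ?_ ?_
      · ext i t
        rw [Matrix.mul_apply, ST1_Phi_mul G M₁ y' (fun k => D' k t) i, Matrix.zero_apply]
        exact hR1 i t
      · intro k t
        exact hcx (Sum.inl (k, t))
      · intro i k
        rcases k with s | p
        · exact hcy (M₁ i s)
        · by_cases h : i = p.1
          · simp only [ST1_Phi, Sum.elim_inr, if_pos h]
            exact hcy (G p.2)
          · simp only [ST1_Phi, Sum.elim_inr, if_neg h, sub_zero]
            exact Ideal.zero_mem _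
    intro v hv
    have h1 : ∀ i, ∃ w : m → P, ∑ l, w l * (y' ∘ G) l = ((M₁.map y').mulVec v) i := fun i =>
      Ideal.mem_span_range_iff_exists_fun.mp (hv i)
    choose w hw using h1
    obtain ⟨z, hz⟩ := hex' (Sum.elim v (fun p => - w p.1 p.2)) (by
      intro i
      rw [Ideal.mem_bot]
      have h2 := ST1_Phi_mul G M₁ y' (Sum.elim v (fun p => - w p.1 p.2)) i
      have h3 := hw i
      simp only [Matrix.mulVec, dotProduct, Matrix.map_apply, Function.comp_apply] at h3
      show ∑ k, ST1_Phi G M₁ y' i k * Sum.elim v (fun p => - w p.1 p.2) k = 0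
      rw [h2]
      simp only [Sum.elim_inl, Sum.elim_inr, mul_neg, Finset.sum_neg_distrib]
      rw [← h3, ← sub_eq_add_neg, sub_eq_zero]
      exact Finset.sum_congr rfl fun l _ => mul_comm _ _)
    refine ⟨fun j => ∑ t, u' t j * z t, fun s => ?_⟩
    have h4 := hz (Sum.inl s)
    rw [Ideal.mem_bot, sub_eq_zero] at h4
    simp only [Sum.elim_inl, Matrix.mulVec, dotProduct] at h4
    have h5 : v s - ((M₂.map y').mulVec fun j => ∑ t, u' t j * z t) s =
        ∑ l, (∑ t, q' t s l * z t) * (y' ∘ G) l := by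
      rw [h4]
      simp only [Matrix.mulVec, dotProduct, Matrix.map_apply, Function.comp_apply]
      have h6 : ∀ t, D' (Sum.inl s) t =
          ∑ j, y' (M₂ s j) * u' t j + ∑ l, q' t s l * y' (G l) := fun t => by
        rw [← hR2 t s]
        ring
      simp only [h6, add_mul, Finset.sum_add_distrib, Finset.sum_mul, Finset.mul_sum]
      rw [Finset.sum_comm (f := fun t j => y' (M₂ s j) * u' t j * z t)]
      rw [Finset.sum_comm (f := fun t l => q' t s l * y' (G l) * z t)]
      have h7 : ∑ j, ∑ t, y' (M₂ s j) * u' t j * z t = ∑ j, ∑ t, y' (M₂ s j) * (u' t j * z t) :=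
        Finset.sum_congr rfl fun j _ => Finset.sum_congr rfl fun t _ => mul_assoc _ _ _
      rw [h7, add_sub_cancel_left]
      exact Finset.sum_congr rfl fun l _ => Finset.sum_congr rfl fun t _ => by ring
    rw [h5]
    exact Ideal.mem_span_range_iff_exists_fun.mpr ⟨_, rfl⟩

end Pool.Agent.Lib.H61E
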