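import Pool.Agent.Lib.H61E.Defs

/-!
# ST2: closure properties of stability

`and`: union of the two families of extra elements (`κ = κ₁ ⊕ κ₂`), maximum of the two exponents;
`Rel` for a family implies `Rel` for a subfamily (`MvPolynomial.rename`, `MvPolynomial.aeval_rename`).
`all`: induction on a finite index type (or directly `κ = Σ i, κ i`).
`rel`: a polynomial relation over `ℤ`.  `mem`: `y_i ∈ m` (exponent `1`).
-/

set_option autoImplicit false
open IsLocalRing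

namespace Pool.Agent.Lib.H61E
universe u

variable {P : Type u} [CommRing P] [IsLocalRing P] {ι : Type}

private theorem st2_comp {R : Type*} [CommRing R] {α β : Type*} {y y' : α → R} (h : Rel y y')
    (φ : β → α) {z z' : β → R} (hz : ∀ b, z b = y (φ b)) (hz' : ∀ b, z' b = y' (φ b)) :
    Rel z z' := by
  have e1 : z = y ∘ φ := funext hz
  have e2 : z' = y' ∘ φ := funext hz'
  subst e1 e2
  intro f hf
  have h1 := h (MvPolynomial.rename φ f)
  rw [MvPolynomial.aeval_rename, MvPolynomial.aeval_rename] at h1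
  exact h1 hf

private theorem st2_mono {α : Type*} {y y' : α → P} {c d : ℕ} (hcd : c ≤ d) (h : Cg d y' y) :
    Cg c y' y := fun i => Ideal.pow_le_pow_right hcd (h i)

theorem ST2_and {Q₁ Q₂ : (ι → P) → Prop} {y : ι → P} (h₁ : Stb Q₁ y) (h₂ : Stb Q₂ y) :
    Stb (fun y' => Q₁ y' ∧ Q₂ y') y := by
  obtain ⟨κ₁, hκ₁, x₁, c₁, h₁⟩ := h₁
  obtain ⟨κ₂, hκ₂, x₂, c₂, h₂⟩ := h₂
  refine ⟨κ₁ ⊕ κ₂, inferInstance, Sum.elim x₁ x₂, max c₁ c₂, ?_⟩
  intro y' x' hrel hy hx
  constructor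
  · refine h₁ y' (fun k => x' (Sum.inl k)) ?_ (st2_mono (le_max_left _ _) hy) ?_
    · refine st2_comp hrel (Sum.map id Sum.inl) ?_ ?_ <;> rintro (i | i) <;> rfl
    · exact fun k => st2_mono (le_max_left _ _) hx (Sum.inl k)
  · refine h₂ y' (fun k => x' (Sum.inr k)) ?_ (st2_mono (le_max_right _ _) hy) ?_
    · refine st2_comp hrel (Sum.map id Sum.inr) ?_ ?_ <;> rintro (i | i) <;> rfl
    · exact fun k => st2_mono (le_max_right _ _) hx (Sum.inr k)

theorem ST2_all {τ : Type} [Finite τ] {Q : τ → (ι → P) → Prop} {y : ι → P}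
    (h : ∀ t, Stb (Q t) y) : Stb (fun y' => ∀ t, Q t y') y := by
  choose κ hκ x c h using h
  obtain ⟨C, hC⟩ := (Set.finite_range c).bddAbove
  have hC' : ∀ t, c t ≤ C := fun t => hC (Set.mem_range_self t)
  refine ⟨(Σ t, κ t), inferInstance, fun p => x p.1 p.2, C, ?_⟩
  intro y' x' hrel hy hx t
  refine h t y' (fun k => x' ⟨t, k⟩) ?_ (st2_mono (hC' t) hy) ?_
  · refine st2_comp hrel (Sum.map id (fun k => (⟨t, k⟩ : Σ t, κ t))) ?_ ?_ <;>
      rintro (i | i) <;> rfl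
  · exact fun k => st2_mono (hC' t) hx ⟨t, k⟩

theorem ST2_imp {Q₁ Q₂ : (ι → P) → Prop} {y : ι → P} (h₁ : Stb Q₁ y) (h : ∀ y', Q₁ y' → Q₂ y') :
    Stb Q₂ y := by
  obtain ⟨κ, hκ, x, c, h₁⟩ := h₁
  exact ⟨κ, hκ, x, c, fun y' x' h1 h2 h3 => h y' (h₁ y' x' h1 h2 h3)⟩

theorem ST2_rel {y : ι → P} (f : MvPolynomial ι ℤ) (h : MvPolynomial.aeval y f = 0) :
    Stb (fun y' => MvPolynomial.aeval y' f = 0) y := by
  refine ⟨Empty, inferInstance, Empty.elim, 0, ?_⟩
  intro y' x' hrel _ _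
  have h1 : Rel y y' := st2_comp hrel Sum.inl (fun _ => rfl) (fun _ => rfl)
  exact h1 f h

theorem ST2_mem {y : ι → P} (i : ι) (h : y i ∈ maximalIdeal P) :
    Stb (fun y' => y' i ∈ maximalIdeal P) y := by
  refine ⟨Empty, inferInstance, Empty.elim, 1, ?_⟩
  intro y' x' _ hy _
  have h1 := hy i
  rw [pow_one] at h1
  have h2 := Ideal.add_mem _ h1 h
  rwa [sub_add_cancel] at h2

/-- adding any finite family of auxiliary elements to `y`. -/
theorem ST2_aux {κ : Type} [Finite κ] {y : ι → P} (x : κ → P) {Q : (ι → P) → Prop}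
    (h : Stb (fun yx : ι ⊕ κ → P => Q (fun i => yx (Sum.inl i))) (Sum.elim y x)) : Stb Q y := by
  obtain ⟨κ', hκ', x₂, c, h⟩ := h
  refine ⟨κ ⊕ κ', inferInstance, Sum.elim x x₂, c, ?_⟩
  intro y' z hrel hy hz
  refine h (Sum.elim y' (fun k => z (Sum.inl k))) (fun k => z (Sum.inr k)) ?_ ?_ ?_
  · refine st2_comp hrel (Equiv.sumAssoc ι κ κ') ?_ ?_ <;> rintro ((i | i) | i) <;> rfl
  · rintro (i | i)
    · exact hy i
    · exact hz (Sum.inl i)
  · exact fun k => hz (Sum.inr k)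

end Pool.Agent.Lib.H61E
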