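import Pool.Agent.Lib.H61E.AA
import Pool.Agent.Lib.H61E.ST2

/-!
# ST3: stable properties and approximation

PROOF.  `hQ : Stb Q y` gives `κ`, `x`, `c₀`; AA_main for `Sum.elim y x` and `max c c₀`.  The relations
between the members of `z : ι ⊕ κ → B` go to relations between their images in `P` (apply the ring
homomorphism `algebraMap B P`: `MvPolynomial.aeval` commutes, `MvPolynomial.map_aeval` or
`MvPolynomial.aeval_algebraMap_apply`), so `Q` holds for the images of `z ∘ inl`.
-/

set_option autoImplicit false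
open IsLocalRing

namespace Pool.Agent.Lib.H61E
universe u

theorem ST3_main {k : Type u} [Field k] [CharZero k] (n : ℕ) {ι : Type} [Finite ι]
    (y : ι → MvPowerSeries (Fin n) k) (Q : (ι → MvPowerSeries (Fin n) k) → Prop) (hQ : Stb Q y)
    (c : ℕ) :
    ∃ (B : Type u) (_ : CommRing B) (_ : IsLocalRing B) (_ : Algebra k B)
      (_ : Algebra.EssFiniteType k B) (_ : Algebra B (MvPowerSeries (Fin n) k))
      (_ : Module.FaithfullyFlat B (MvPowerSeries (Fin n) k))
      (_ : IsLocalHom (algebraMap B (MvPowerSeries (Fin n) k))) (z : ι → B),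
      Q (fun i => algebraMap B (MvPowerSeries (Fin n) k) (z i)) ∧
      (∀ f : MvPolynomial ι ℤ, MvPolynomial.aeval y f = 0 → MvPolynomial.aeval z f = 0) ∧
      Cg c (fun i => algebraMap B (MvPowerSeries (Fin n) k) (z i)) y := by
  obtain ⟨κ, hκ, x, c₀, h⟩ := hQ
  obtain ⟨B, i1, i2, i3, i4, i5, i6, i7, z, hz1, hz2⟩ := AA_main n (Sum.elim y x) (max c c₀)
  refine ⟨B, i1, i2, i3, i4, i5, i6, i7, fun i => z (Sum.inl i), ?_, ?_, ?_⟩
  · refine h _ (fun j => algebraMap B (MvPowerSeries (Fin n) k) (z (Sum.inr j))) ?_ ?_ ?_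
    · intro f hf
      have h1 := hz1 f ((aa_aeval _ _ _ f).trans hf)
      have h2 := PA_map (algebraMap B (MvPowerSeries (Fin n) k)) z f
      rw [h1, map_zero] at h2
      have h3 : (Sum.elim (fun i => algebraMap B (MvPowerSeries (Fin n) k) (z (Sum.inl i)))
          (fun j => algebraMap B (MvPowerSeries (Fin n) k) (z (Sum.inr j)))) =
          fun i => algebraMap B (MvPowerSeries (Fin n) k) (z i) := by
        funext i
        rcases i with i | i <;> rfl
      rw [h3]
      exact (aa_aeval _ _ _ f).trans h2.symm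
    · exact fun i => Ideal.pow_le_pow_right (le_max_right _ _) (hz2 (Sum.inl i))
    · exact fun i => Ideal.pow_le_pow_right (le_max_right _ _) (hz2 (Sum.inr i))
  · intro f hf
    have h1 := hz1 (MvPolynomial.rename Sum.inl f)
    rw [MvPolynomial.aeval_rename, MvPolynomial.aeval_rename] at h1
    exact h1 hf
  · exact fun i => Ideal.pow_le_pow_right (le_max_left _ _) (hz2 (Sum.inl i))

end Pool.Agent.Lib.H61E
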