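import Pool.Agent.Lib.H61E.Defs

/-!
# TR0: evaluation of triangular systems

PROOF.  `TR0_up`: both sides are ring homomorphisms in `g` (`up` is the inverse of
`MvPolynomial.finSuccEquiv ℤ N`); or use `MvPolynomial.eval₂_... finSuccEquiv` lemmas from Mathlib
(`MvPolynomial.eval_eq_eval_mv_eval'`, `MvPolynomial.finSuccEquiv_apply`), or `Polynomial.induction_on`
with `MvPolynomial.finSuccEquiv_X_zero`, `finSuccEquiv_X_succ`, `finSuccEquiv_comp_C_eq_C`.
`TR0_ren`: `MvPolynomial.aeval_rename`.  The rest unfolds `Tri.eq`, `Tri.dl`, `Tri.lc` with these.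
`TR0_mem`: `MvPolynomial.induction_on`.
-/

set_option autoImplicit false
open IsLocalRing

namespace Pool.Agent.Lib.H61E
universe u

variable {R : Type u} [CommRing R] {N : ℕ}

private theorem TR0_fse (p : MvPolynomial (Fin N) ℤ) :
    MvPolynomial.finSuccEquiv ℤ N (MvPolynomial.rename Fin.succ p) = Polynomial.C p := by
  induction p using MvPolynomial.induction_on with
  | C a =>
    rw [MvPolynomial.rename_C]
    exact MvPolynomial.finSuccEquiv_apply .. |>.trans (by simp)
  | add p q hp hq => rw [map_add, map_add, map_add, hp, hq]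
  | mul_X p i hp =>
    rw [map_mul, map_mul, map_mul, hp, MvPolynomial.rename_X, MvPolynomial.finSuccEquiv_X_succ]

private theorem TR0_upC (p : MvPolynomial (Fin N) ℤ) :
    up (Polynomial.C p) = MvPolynomial.rename Fin.succ p := by
  unfold up
  rw [AlgEquiv.symm_apply_eq, TR0_fse]

private theorem TR0_upX :
    up (Polynomial.X : Polynomial (MvPolynomial (Fin N) ℤ)) = MvPolynomial.X 0 := by
  unfold up
  rw [AlgEquiv.symm_apply_eq, MvPolynomial.finSuccEquiv_X_zero]

theorem TR0_ren (p : MvPolynomial (Fin N) ℤ) (y : Fin (N + 1) → R) :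
    MvPolynomial.aeval y (MvPolynomial.rename Fin.succ p) =
      MvPolynomial.aeval (fun i : Fin N => y i.succ) p := by
  rw [MvPolynomial.aeval_rename]
  rfl

theorem TR0_up (g : Polynomial (MvPolynomial (Fin N) ℤ)) (y : Fin (N + 1) → R) :
    MvPolynomial.aeval y (up g) = (sp (fun i : Fin N => y i.succ) g).eval (y 0) := by
  induction g using Polynomial.induction_on' with
  | add p q hp hq =>
    have h1 : up (p + q) = up p + up q := by
      unfold up
      rw [map_add]
    have h2 : sp (fun i : Fin N => y i.succ) (p + q) =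
        sp (fun i : Fin N => y i.succ) p + sp (fun i : Fin N => y i.succ) q := by
      unfold sp
      rw [Polynomial.map_add]
    rw [h1, h2, map_add, hp, hq, Polynomial.eval_add]
  | monomial n a =>
    have h1 : up (Polynomial.monomial n a) =
        MvPolynomial.rename Fin.succ a * MvPolynomial.X 0 ^ n := by
      rw [← Polynomial.C_mul_X_pow_eq_monomial, ← TR0_upC, ← TR0_upX]
      unfold up
      rw [map_mul, map_pow]
    rw [h1, map_mul, map_pow, TR0_ren, MvPolynomial.aeval_X]
    unfold sp
    rw [Polynomial.map_monomial, Polynomial.eval_monomial]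
    rfl

theorem TR0_surj (F : MvPolynomial (Fin (N + 1)) ℤ) :
    up (MvPolynomial.finSuccEquiv ℤ N F) = F := by
  unfold up
  exact AlgEquiv.symm_apply_apply _ _

theorem TR0_eq_free (T : Tri N) (y : Fin (N + 1) → R) :
    (∀ j, MvPolynomial.aeval y (T.free.eq j) = 0) ↔
      ∀ j, MvPolynomial.aeval (fun i : Fin N => y i.succ) (T.eq j) = 0 := by
  rw [Fin.forall_fin_succ]
  simp only [Tri.eq, Fin.cons_zero, Fin.cons_succ, map_zero, true_and, TR0_ren]

theorem TR0_eq_alg (T : Tri N) (g : Polynomial (MvPolynomial (Fin N) ℤ)) (y : Fin (N + 1) → R) :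
    (∀ j, MvPolynomial.aeval y ((T.alg g).eq j) = 0) ↔
      (∀ j, MvPolynomial.aeval (fun i : Fin N => y i.succ) (T.eq j) = 0) ∧
      (sp (fun i : Fin N => y i.succ) g).eval (y 0) = 0 := by
  rw [Fin.forall_fin_succ]
  simp only [Tri.eq, Fin.cons_zero, Fin.cons_succ, TR0_ren, TR0_up]
  exact and_comm

theorem TR0_dl_free (T : Tri N) (y : Fin (N + 1) → R) :
    MvPolynomial.aeval y T.free.dl = MvPolynomial.aeval (fun i : Fin N => y i.succ) T.dl := by
  simp only [Tri.dl, TR0_ren]

theorem TR0_dl_alg (T : Tri N) (g : Polynomial (MvPolynomial (Fin N) ℤ)) (y : Fin (N + 1) → R) :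
    MvPolynomial.aeval y (T.alg g).dl = MvPolynomial.aeval (fun i : Fin N => y i.succ) T.dl *
      (sp (fun i : Fin N => y i.succ) g).derivative.eval (y 0) := by
  simp only [Tri.dl, map_mul, TR0_ren, TR0_up]
  unfold sp
  rw [Polynomial.derivative_map]

theorem TR0_lc_free (T : Tri N) (y : Fin (N + 1) → R) :
    MvPolynomial.aeval y T.free.lc = MvPolynomial.aeval (fun i : Fin N => y i.succ) T.lc := by
  simp only [Tri.lc, TR0_ren]

theorem TR0_lc_alg (T : Tri N) (g : Polynomial (MvPolynomial (Fin N) ℤ)) (y : Fin (N + 1) → R) :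
    MvPolynomial.aeval y (T.alg g).lc = MvPolynomial.aeval (fun i : Fin N => y i.succ) T.lc *
      MvPolynomial.aeval (fun i : Fin N => y i.succ) g.leadingCoeff := by
  simp only [Tri.lc, map_mul, TR0_ren]

theorem TR0_mem {ι : Type*} (E : Subring R) (y : ι → R) (hy : ∀ i, y i ∈ E)
    (f : MvPolynomial ι ℤ) : MvPolynomial.aeval y f ∈ E := by
  induction f using MvPolynomial.induction_on with
  | C a =>
    rw [MvPolynomial.aeval_C]
    exact intCast_mem E a
  | add p q hp hq => rw [map_add]; exact E.add_mem hp hq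
  | mul_X p i hp =>
    rw [map_mul, MvPolynomial.aeval_X]
    exact E.mul_mem hp (hy i)

theorem TR0_sp_mem {ι : Type*} (E : Subring R) (y : ι → R) (hy : ∀ i, y i ∈ E)
    (g : Polynomial (MvPolynomial ι ℤ)) (i : ℕ) : (sp y g).coeff i ∈ E := by
  unfold sp
  rw [Polynomial.coeff_map]
  exact TR0_mem E y hy _

end Pool.Agent.Lib.H61E
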