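import Pool.Agent.Lib.H61E.Defs

/-!
# UH: the univariate Newton step

PROOF.  Write `δ = g'(t)` and `g(t + s) = ∑_j c_j s^j` (`Polynomial.taylor t g`, coefficients in `E`;
`c_0 = g(t)`, `c_1 = δ`: `Polynomial.taylor_coeff_zero`, `taylor_coeff_one`; `taylor_eval`).  Let
`G = C w + X + ∑_{j ≥ 2} C (c_j δ^(j-2) h^(j-1)) X^j` (sum over `j ∈ Finset.Icc 2 (natDegree g)`);
its coefficients are in `E`, `G.coeff 0 = w ∈ m`, `G.coeff 1 = 1`.  By `HN` there is `u ∈ E ∩ m` with
`G(u) = 0`, and
`g(t + δ h u) = c_0 + δ² h u + ∑_{j ≥ 2} c_j δ^j h^j u^j = δ² h (w + u + ∑_{j ≥ 2} c_j δ^(j-2) h^(j-1) u^j)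
= δ² h G(u) = 0`.
-/

set_option autoImplicit false
open IsLocalRing

namespace Pool.Agent.Lib.H61E
universe u

theorem UH_main {R : Type u} [CommRing R] [IsLocalRing R] {E : Subring R} (hN : HN E)
    (g : Polynomial R) (hg : ∀ i, g.coeff i ∈ E) (t h w : R) (ht : t ∈ E) (hh : h ∈ E)
    (hw : w ∈ E) (hwm : w ∈ maximalIdeal R)
    (e : g.eval t = (g.derivative.eval t) ^ 2 * h * w) :
    ∃ u ∈ E, u ∈ maximalIdeal R ∧ g.eval (t + g.derivative.eval t * h * u) = 0 := by
  classical
  set δ := g.derivative.eval t with hδ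
  set n := g.natDegree with hn
  set c : ℕ → R := fun j => (Polynomial.taylor t g).coeff j with hc
  have hcE : ∀ j, c j ∈ E := by
    intro j
    rw [hc]
    simp only
    rw [Polynomial.taylor_coeff, Polynomial.eval_eq_sum_range]
    refine Subring.sum_mem _ (fun i _ => Subring.mul_mem _ ?_ (Subring.pow_mem _ ht _))
    rw [Polynomial.hasseDeriv_coeff]
    exact Subring.mul_mem _ (natCast_mem E _) (hg _)
  have hδE : δ ∈ E := by
    have h1 : c 1 = δ := by
      rw [hc, hδ]; simp only; rw [Polynomial.taylor_coeff_one]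
    rw [← h1]; exact hcE 1
  set G : Polynomial R := Polynomial.C w + Polynomial.X +
    ∑ j ∈ Finset.range n, Polynomial.C (c (j + 2) * δ ^ j * h ^ (j + 1)) * Polynomial.X ^ (j + 2)
    with hG
  have hGc : ∀ i, G.coeff i = (if i = 0 then w else 0) + (if 1 = i then 1 else 0) +
      ∑ j ∈ Finset.range n, (if i = j + 2 then c (j + 2) * δ ^ j * h ^ (j + 1) else 0) := by
    intro i
    rw [hG, Polynomial.coeff_add, Polynomial.coeff_add, Polynomial.coeff_C, Polynomial.coeff_X,
      Polynomial.finsetSum_coeff]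
    simp only [Polynomial.coeff_C_mul_X_pow]
  have hGE : ∀ i, G.coeff i ∈ E := by
    intro i
    rw [hGc]
    refine Subring.add_mem _ (Subring.add_mem _ ?_ ?_) (Subring.sum_mem _ (fun j _ => ?_))
    · split_ifs
      · exact hw
      · exact Subring.zero_mem _
    · split_ifs
      · exact Subring.one_mem _
      · exact Subring.zero_mem _
    · split_ifs
      · exact Subring.mul_mem _ (Subring.mul_mem _ (hcE _) (Subring.pow_mem _ hδE _))
          (Subring.pow_mem _ hh _)
      · exact Subring.zero_mem _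
  have hG0 : G.coeff 0 = w := by
    rw [hGc]
    simp
  have hG1 : G.coeff 1 = 1 := by
    rw [hGc]
    have : ∀ j ∈ Finset.range n,
        (if 1 = j + 2 then c (j + 2) * δ ^ j * h ^ (j + 1) else 0) = 0 := by
      intro j _
      rw [if_neg (by omega)]
    rw [Finset.sum_eq_zero this]
    simp
  obtain ⟨u, huE, hum, hu0⟩ := hN G hGE (by rw [hG0]; exact hwm) (by rw [hG1]; exact isUnit_one)
  refine ⟨u, huE, hum, ?_⟩
  have hGu : G.eval u = w + u + ∑ j ∈ Finset.range n,
      c (j + 2) * δ ^ j * h ^ (j + 1) * u ^ (j + 2) := by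
    rw [hG, Polynomial.eval_add, Polynomial.eval_add, Polynomial.eval_C, Polynomial.eval_X,
      Polynomial.eval_finset_sum]
    simp only [Polynomial.eval_mul, Polynomial.eval_C, Polynomial.eval_pow, Polynomial.eval_X]
  have hev : g.eval (t + δ * h * u) = ∑ i ∈ Finset.range (n + 2), c i * (δ * h * u) ^ i := by
    have h1 : g.eval (t + δ * h * u) = (Polynomial.taylor t g).eval (δ * h * u) := by
      rw [Polynomial.taylor_eval, add_comm]
    rw [h1]
    apply Polynomial.eval_eq_sum_range'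
    rw [Polynomial.natDegree_taylor]
    omega
  have hc0 : c 0 = δ ^ 2 * h * w := by
    rw [hc]; simp only; rw [Polynomial.taylor_coeff_zero, e]
  have hc1 : c 1 = δ := by
    rw [hc, hδ]; simp only; rw [Polynomial.taylor_coeff_one]
  rw [hev, Finset.sum_range_succ', Finset.sum_range_succ', hc0, pow_zero, mul_one]
  have hz : (0 : R) = δ ^ 2 * h * G.eval u := by rw [hu0, mul_zero]
  rw [hz, hGu, zero_add, hc1, pow_one, mul_add, mul_add, Finset.mul_sum]
  have hs : ∑ k ∈ Finset.range n, c (k + 1 + 1) * (δ * h * u) ^ (k + 1 + 1) =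
      ∑ i ∈ Finset.range n, δ ^ 2 * h * (c (i + 2) * δ ^ i * h ^ (i + 1) * u ^ (i + 2)) := by
    refine Finset.sum_congr rfl (fun k _ => ?_)
    have : k + 1 + 1 = k + 2 := rfl
    rw [this]
    ring
  rw [hs]
  ring

end Pool.Agent.Lib.H61E
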