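import Pool.Agent.Lib.H61E.Defs

/-!
# WR0: division by a distinguished polynomial in `P[X]` and in `P⟦X⟧`

PROOF.  Divide in `P[X]` by the monic polynomial `a`: `p = a q' + r'`, `deg r' < deg a`
(`Polynomial.modByMonic_add_div`, `degree_modByMonic_lt`).  In `P⟦X⟧`, `p = a q' + r'` and `p = a s + 0` are
two Weierstrass divisions of `p` by `a` (the order of `a` modulo the maximal ideal is `natDegree a`:
`Polynomial.IsDistinguishedAt` API, `degree_eq_coe_lift_order_map`-like lemmas in Mathlib
`RingTheory/Polynomial/Eisenstein/Distinguished.lean`), so `s = q'` by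
`PowerSeries.IsWeierstrassDivision.elim` (or `IsWeierstrassDivisorAt.eq_of_mul_add_eq_mul_add` with
`Polynomial.IsDistinguishedAt.isWeierstrassDivisorAt'`).
-/

set_option autoImplicit false
open IsLocalRing

namespace Pool.Agent.Lib.H61E
universe u

theorem WR0_quot {P : Type u} [CommRing P] [IsLocalRing P] [IsAdicComplete (maximalIdeal P) P]
    (a p : Polynomial P) (ha : a.IsDistinguishedAt (maximalIdeal P)) (s : PowerSeries P)
    (h : (p : PowerSeries P) = (a : PowerSeries P) * s) :
    ∃ q : Polynomial P, (q : PowerSeries P) = s ∧ p = a * q := by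
  have H := ha.isWeierstrassDivisorAt'
  have hord : (a.natDegree : ℕ∞) =
      ((a : PowerSeries P).map (Ideal.Quotient.mk (maximalIdeal P))).order :=
    ha.coe_natDegree_eq_order_map (a : PowerSeries P) 1 (by simp) (by simp)
  have hnat : ((a : PowerSeries P).map (Ideal.Quotient.mk (maximalIdeal P))).order.toNat =
      a.natDegree := by
    rw [← hord]; simp
  have hdiv := Polynomial.modByMonic_add_div p a
  have hdeg : (p %ₘ a).degree <
      (((a : PowerSeries P).map (Ideal.Quotient.mk (maximalIdeal P))).order.toNat : WithBot ℕ) := by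
    rw [hnat, ← Polynomial.degree_eq_natDegree ha.monic.ne_zero]
    exact Polynomial.degree_modByMonic_lt p ha.monic
  have h0 : (0 : Polynomial P).degree <
      (((a : PowerSeries P).map (Ideal.Quotient.mk (maximalIdeal P))).order.toNat : WithBot ℕ) := by
    rw [Polynomial.degree_zero]
    exact WithBot.bot_lt_coe _
  have heq : (a : PowerSeries P) * s + ((0 : Polynomial P) : PowerSeries P) =
      (a : PowerSeries P) * ((p /ₘ a : Polynomial P) : PowerSeries P) +
        ((p %ₘ a : Polynomial P) : PowerSeries P) := by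
    rw [← h]
    have h2 : (p : PowerSeries P) =
        ((p %ₘ a + a * (p /ₘ a) : Polynomial P) : PowerSeries P) := by rw [hdiv]
    rw [h2, Polynomial.coe_add, Polynomial.coe_mul, Polynomial.coe_zero]
    ring
  obtain ⟨h3, h4⟩ := H.eq_of_mul_add_eq_mul_add h0 hdeg heq
  refine ⟨p /ₘ a, h3.symm, ?_⟩
  rw [← h4, zero_add] at hdiv
  exact hdiv.symm

end Pool.Agent.Lib.H61E
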