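import Pool.Agent.Lib.H61E.WR0

/-!
# WR1: Weierstrass reduction of a solution in `P⟦X⟧` to polynomial data over `P`

PROOF.  `Δ = aeval y D` is `X`-regular.  Weierstrass preparation
(`PowerSeries.exists_isWeierstrassFactorization`): `Δ = a U`, `a` distinguished (monic), `U` a unit.
`b := X^(c+1) a` is distinguished (monic; modulo the maximal ideal it is a power of `X`).  Weierstrass
division by `b` (`b` is `X`-regular; `PowerSeries.exists_isWeierstrassDivision`): `y i = b s_i + r i`,
`r i ∈ P[X]`.  So `y i - r i = X^(c+1) (a s_i)`.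
For every `F : MvPolynomial ι ℤ`: `aeval (coe ∘ r) F ≡ aeval y F` modulo `b` (congruence modulo the ideal
`(b)`: `Ideal.Quotient.mk` is a ring homomorphism, `MvPolynomial.aeval` commutes with it), and
`aeval (coe ∘ r) F = ((aeval r F : P[X]) : P⟦X⟧)`.
* `F = f j`: `((aeval r (f j) : P[X]) : P⟦X⟧) = b t_j`; WR0_quot gives `q j` with
  `aeval r (f j) = X^(c+1) a q j`.
* `F = D`: `aeval r D = a U + b t = a (U + X^(c+1) t)`; WR0_quot gives `u` with `u = U + X^(c+1) t` in
  `P⟦X⟧`, `aeval r D = a u`; `u.coeff 0` = constant coefficient of `U`, a unit.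
-/

set_option autoImplicit false
open IsLocalRing

namespace Pool.Agent.Lib.H61E
universe u

private theorem wr1_xpow {P : Type u} [CommRing P] [IsLocalRing P] (m : ℕ) :
    (Polynomial.X ^ m : Polynomial P).IsDistinguishedAt (maximalIdeal P) := by
  refine ⟨⟨?_⟩, Polynomial.monic_X_pow m⟩
  intro n hn
  rw [Polynomial.natDegree_X_pow] at hn
  rw [Polynomial.coeff_X_pow, if_neg (by omega)]
  exact Ideal.zero_mem _

private theorem wr1_coe {P : Type u} [CommRing P] {ι : Type} (r : ι → Polynomial P)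
    (F : MvPolynomial ι ℤ) :
    ((MvPolynomial.aeval r F : Polynomial P) : PowerSeries P) =
      MvPolynomial.aeval (fun i => (r i : PowerSeries P)) F := by
  induction F using MvPolynomial.induction_on with
  | C n =>
    rw [MvPolynomial.aeval_C, MvPolynomial.aeval_C, eq_intCast (algebraMap ℤ (Polynomial P)),
      eq_intCast (algebraMap ℤ (PowerSeries P))]
    exact map_intCast (Polynomial.coeToPowerSeries.ringHom (R := P)) n
  | add p q hp hq =>
    rw [map_add, map_add, Polynomial.coe_add, hp, hq]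
  | mul_X p i hp =>
    rw [map_mul, map_mul, Polynomial.coe_mul, hp, MvPolynomial.aeval_X, MvPolynomial.aeval_X]

private theorem wr1_cong {P : Type u} [CommRing P] {ι : Type} (y z : ι → PowerSeries P)
    (b : PowerSeries P) (s : ι → PowerSeries P) (h : ∀ i, y i = b * s i + z i)
    (F : MvPolynomial ι ℤ) : ∃ t, MvPolynomial.aeval z F = MvPolynomial.aeval y F + b * t := by
  induction F using MvPolynomial.induction_on with
  | C n =>
    refine ⟨0, ?_⟩
    rw [MvPolynomial.aeval_C, MvPolynomial.aeval_C, mul_zero, add_zero]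
  | add p q hp hq =>
    obtain ⟨t₁, h₁⟩ := hp
    obtain ⟨t₂, h₂⟩ := hq
    refine ⟨t₁ + t₂, ?_⟩
    rw [map_add, map_add, h₁, h₂]
    ring
  | mul_X p i hp =>
    obtain ⟨t, ht⟩ := hp
    refine ⟨t * z i - MvPolynomial.aeval y p * s i, ?_⟩
    rw [map_mul, map_mul, ht, MvPolynomial.aeval_X, MvPolynomial.aeval_X, h i]
    ring

theorem WR1_main {P : Type u} [CommRing P] [IsLocalRing P] [IsAdicComplete (maximalIdeal P) P]
    {ι κ : Type} (y : ι → PowerSeries P) (f : κ → MvPolynomial ι ℤ)
    (hf : ∀ j, MvPolynomial.aeval y (f j) = 0) (D : MvPolynomial ι ℤ)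
    (hD : XReg (MvPolynomial.aeval y D)) (c : ℕ) :
    ∃ (a : Polynomial P) (r : ι → Polynomial P) (q : κ → Polynomial P) (v : Polynomial P),
      IsUnit (v.coeff 0) ∧
      (∀ j, MvPolynomial.aeval r (f j) = Polynomial.X ^ (c + 1) * a * q j) ∧
      MvPolynomial.aeval r D = a * v ∧
      ∀ i, ∃ s : PowerSeries P, y i - (r i : PowerSeries P) = PowerSeries.X ^ (c + 1) * s := by
  obtain ⟨a, U, H⟩ := PowerSeries.exists_isWeierstrassFactorization hD
  have hadist : a.IsDistinguishedAt (maximalIdeal P) := H.isDistinguishedAt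
  have haU : MvPolynomial.aeval y D = (a : PowerSeries P) * U := H.eq_mul
  have hbdist : (Polynomial.X ^ (c + 1) * a : Polynomial P).IsDistinguishedAt (maximalIdeal P) :=
    (wr1_xpow (c + 1)).mul hadist
  have hb : PowerSeries.map (residue P)
      ((Polynomial.X ^ (c + 1) * a : Polynomial P) : PowerSeries P) ≠ 0 := by
    refine Polynomial.IsDistinguishedAt.map_ne_zero_of_eq_mul _ 1 hbdist ?_ (mul_one _).symm
    rw [map_one]
    intro h
    exact (IsLocalRing.mem_maximalIdeal _ |>.mp h) isUnit_one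
  choose s r hr using fun i => PowerSeries.exists_isWeierstrassDivision (y i) hb
  have hy : ∀ i, y i = ((Polynomial.X ^ (c + 1) * a : Polynomial P) : PowerSeries P) * s i +
      (r i : PowerSeries P) := fun i => (hr i).eq_mul_add
  have hq : ∀ j, ∃ q : Polynomial P,
      MvPolynomial.aeval r (f j) = Polynomial.X ^ (c + 1) * a * q := by
    intro j
    obtain ⟨t, ht⟩ := wr1_cong y (fun i => (r i : PowerSeries P)) _ s hy (f j)
    rw [hf j, zero_add, ← wr1_coe] at ht
    obtain ⟨q, _, hq⟩ := WR0_quot _ _ hbdist t ht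
    exact ⟨q, hq⟩
  choose q hq using hq
  obtain ⟨t, ht⟩ := wr1_cong y (fun i => (r i : PowerSeries P)) _ s hy D
  rw [← wr1_coe, haU] at ht
  have ht2 : ((MvPolynomial.aeval r D : Polynomial P) : PowerSeries P) =
      (a : PowerSeries P) * (U + PowerSeries.X ^ (c + 1) * t) := by
    rw [ht, Polynomial.coe_mul, Polynomial.coe_pow, Polynomial.coe_X]
    ring
  obtain ⟨v, hv, hv2⟩ := WR0_quot _ _ hadist _ ht2
  refine ⟨a, r, q, v, ?_, hq, hv2, ?_⟩
  · have h1 : v.coeff 0 = PowerSeries.constantCoeff U := by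
      rw [← Polynomial.coeff_coe, hv]
      simp
    rw [h1]
    exact H.isUnit.map PowerSeries.constantCoeff
  · intro i
    refine ⟨(a : PowerSeries P) * s i, ?_⟩
    rw [hy i, Polynomial.coe_mul, Polynomial.coe_pow, Polynomial.coe_X]
    ring

end Pool.Agent.Lib.H61E
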