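import Pool.Agent.Lib.H61E.PA

/-!
# WR2: approximation of the polynomial data

PROOF.  PA_main for the family of polynomials indexed by `Option (Option (Option (ι ⊕ κ)))` (or any
similar finite type): `X`, `a`, `v`, `r i`, `q j`, with exponent `c + 1`.  The approximation of `X` is `X`
(zero and one coefficients).  The identities are relations over `ℤ` between the members of the family:
for `aeval r (f j) - X^(c+1) a q j` take `rename (f j) - X_{X}^(c+1) X_a X_{q j}` (`MvPolynomial.aeval_rename`).
`v'.coeff 0 - v.coeff 0 ∈ m^(c+1) ⊂ m`, so `v'.coeff 0` is a unit.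
-/

set_option autoImplicit false
open IsLocalRing

namespace Pool.Agent.Lib.H61E
universe u

/-- the family `X, a, v, r i, q j`. -/
noncomputable def WR2_fam {P : Type u} [CommRing P] {ι κ : Type} (a v : Polynomial P)
    (r : ι → Polynomial P) (q : κ → Polynomial P) :
    Option (Option (Option (ι ⊕ κ))) → Polynomial P
  | none => Polynomial.X
  | some none => a
  | some (some none) => v
  | some (some (some (Sum.inl i))) => r i
  | some (some (some (Sum.inr j))) => q j

theorem WR2_main {P : Type u} [CommRing P] [IsLocalRing P] {E : Subring P} (hA : AZ P E)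
    {ι κ : Type} [Finite ι] [Finite κ] (f : κ → MvPolynomial ι ℤ) (D : MvPolynomial ι ℤ) (c : ℕ)
    (a : Polynomial P) (r : ι → Polynomial P) (q : κ → Polynomial P) (v : Polynomial P)
    (hv : IsUnit (v.coeff 0))
    (hq : ∀ j, MvPolynomial.aeval r (f j) = Polynomial.X ^ (c + 1) * a * q j)
    (hD : MvPolynomial.aeval r D = a * v) :
    ∃ (a' : Polynomial P) (r' : ι → Polynomial P) (q' : κ → Polynomial P) (v' : Polynomial P),
      (∀ n, a'.coeff n ∈ E) ∧ (∀ i n, (r' i).coeff n ∈ E) ∧ (∀ j n, (q' j).coeff n ∈ E) ∧
      (∀ n, v'.coeff n ∈ E) ∧ IsUnit (v'.coeff 0) ∧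
      (∀ j, MvPolynomial.aeval r' (f j) = Polynomial.X ^ (c + 1) * a' * q' j) ∧
      MvPolynomial.aeval r' D = a' * v' ∧
      ∀ i n, (r' i).coeff n - (r i).coeff n ∈ maximalIdeal P ^ (c + 1) := by
  obtain ⟨p', hE, hR, hC, h0, h1⟩ := PA_main hA (WR2_fam a v r q) (c + 1)
  let ir : ι → Option (Option (Option (ι ⊕ κ))) := fun i => some (some (some (Sum.inl i)))
  let iq : κ → Option (Option (Option (ι ⊕ κ))) := fun j => some (some (some (Sum.inr j)))
  have hX : p' none = Polynomial.X := by
    ext n
    rw [Polynomial.coeff_X]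
    split_ifs with hn
    · apply h1
      change (Polynomial.X : Polynomial P).coeff n = 1
      rw [Polynomial.coeff_X, if_pos hn]
    · apply h0
      change (Polynomial.X : Polynomial P).coeff n = 0
      rw [Polynomial.coeff_X, if_neg hn]
  have hr : (WR2_fam a v r q) ∘ ir = r := rfl
  refine ⟨p' (some none), fun i => p' (ir i), fun j => p' (iq j), p' (some (some none)),
    fun n => hE _ n, fun i n => hE _ n, fun j n => hE _ n, fun n => hE _ n, ?_, ?_, ?_,
    fun i n => hC (ir i) n⟩
  · have h2 : (p' (some (some none))).coeff 0 - v.coeff 0 ∈ maximalIdeal P :=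
      Ideal.pow_le_self (Nat.succ_ne_zero c) (hC (some (some none)) 0)
    by_contra hcon
    have h3 : (p' (some (some none))).coeff 0 ∈ maximalIdeal P :=
      (IsLocalRing.mem_maximalIdeal _).2 hcon
    have h4 : v.coeff 0 ∈ maximalIdeal P := by
      have h5 := (maximalIdeal P).sub_mem h3 h2
      rwa [sub_sub_cancel] at h5
    exact (IsLocalRing.mem_maximalIdeal _).1 h4 hv
  · intro j
    have h2 := hR (MvPolynomial.rename ir (f j) -
      MvPolynomial.X none ^ (c + 1) * MvPolynomial.X (some none) * MvPolynomial.X (iq j)) (by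
        rw [map_sub, MvPolynomial.aeval_rename, map_mul, map_mul, map_pow, MvPolynomial.aeval_X,
          MvPolynomial.aeval_X, MvPolynomial.aeval_X, hr]
        change MvPolynomial.aeval r (f j) - Polynomial.X ^ (c + 1) * a * q j = 0
        rw [hq j, sub_self])
    rw [map_sub, MvPolynomial.aeval_rename, map_mul, map_mul, map_pow, MvPolynomial.aeval_X,
      MvPolynomial.aeval_X, MvPolynomial.aeval_X, hX, sub_eq_zero] at h2
    exact h2
  · have h2 := hR (MvPolynomial.rename ir D -
      MvPolynomial.X (some none) * MvPolynomial.X (some (some none))) (by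
        rw [map_sub, MvPolynomial.aeval_rename, map_mul, MvPolynomial.aeval_X,
          MvPolynomial.aeval_X, hr]
        change MvPolynomial.aeval r D - a * v = 0
        rw [hD, sub_self])
    rw [map_sub, MvPolynomial.aeval_rename, map_mul, MvPolynomial.aeval_X,
      MvPolynomial.aeval_X, sub_eq_zero] at h2
    exact h2

end Pool.Agent.Lib.H61E
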