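import Pool.Agent.Lib.H61E.Defs

/-!
# WR3: powers of the maximal ideal of `P⟦X⟧`

PROOF.  An element of `P⟦X⟧` is a unit iff its constant coefficient is (`PowerSeries.isUnit_iff_constantCoeff`),
so the maximal ideal of `P⟦X⟧` consists of the series with constant coefficient in `m`; it contains `X` and
`C x`, `x ∈ m`.  WR3_C: `C` maps `m^c` into the `c`-th power (`Ideal.map_pow`, `Ideal.mem_map_of_mem`).
WR3_X: `X^c s`.  WR3_poly: a polynomial with all coefficients in `m^c` is a finite sum of
`C (x_n) * X^n`.  WR3_mem: the constant coefficient criterion.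
-/

set_option autoImplicit false
open IsLocalRing

namespace Pool.Agent.Lib.H61E
universe u

variable {P : Type u} [CommRing P] [IsLocalRing P]

theorem WR3_mem {f : PowerSeries P} :
    f ∈ maximalIdeal (PowerSeries P) ↔ PowerSeries.constantCoeff f ∈ maximalIdeal P := by
  rw [mem_maximalIdeal, mem_maximalIdeal, mem_nonunits_iff, mem_nonunits_iff,
    PowerSeries.isUnit_iff_constantCoeff]

theorem WR3_C (c : ℕ) {x : P} (hx : x ∈ maximalIdeal P ^ c) :
    PowerSeries.C x ∈ maximalIdeal (PowerSeries P) ^ c := by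
  have h1 : (maximalIdeal P).map (PowerSeries.C (R := P)) ≤ maximalIdeal (PowerSeries P) := by
    rw [Ideal.map_le_iff_le_comap]
    intro y hy
    rw [Ideal.mem_comap, WR3_mem, PowerSeries.constantCoeff_C]
    exact hy
  have h2 : PowerSeries.C x ∈ (maximalIdeal P ^ c).map (PowerSeries.C (R := P)) :=
    Ideal.mem_map_of_mem _ hx
  rw [Ideal.map_pow] at h2
  exact Ideal.pow_right_mono h1 c h2

theorem WR3_X (c : ℕ) (s : PowerSeries P) :
    PowerSeries.X ^ c * s ∈ maximalIdeal (PowerSeries P) ^ c := by
  apply Ideal.mul_mem_right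
  apply Ideal.pow_mem_pow
  rw [WR3_mem, PowerSeries.constantCoeff_X]
  exact Ideal.zero_mem _

theorem WR3_poly (c : ℕ) (p p' : Polynomial P)
    (h : ∀ n, p'.coeff n - p.coeff n ∈ maximalIdeal P ^ c) :
    (p' : PowerSeries P) - (p : PowerSeries P) ∈ maximalIdeal (PowerSeries P) ^ c := by
  have h0 : (p' : PowerSeries P) - (p : PowerSeries P) = ((p' - p : Polynomial P) : PowerSeries P) := by
    ext n
    simp
  have h1 : ((p' - p : Polynomial P) : PowerSeries P)
      = ∑ n ∈ (p' - p).support, PowerSeries.C ((p' - p).coeff n) * PowerSeries.X ^ n := by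
    ext k
    rw [Polynomial.coeff_coe, map_sum]
    simp only [PowerSeries.coeff_C_mul, PowerSeries.coeff_X_pow, mul_ite, mul_one, mul_zero]
    rw [Finset.sum_ite_eq]
    split_ifs with hk
    · rfl
    · exact Polynomial.notMem_support_iff.mp hk
  rw [h0, h1]
  refine Ideal.sum_mem _ fun n _ => ?_
  apply Ideal.mul_mem_right
  apply WR3_C
  rw [Polynomial.coeff_sub]
  exact h n

end Pool.Agent.Lib.H61E
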