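import Pool.Agent.Lib.H61E.WR1
import Pool.Agent.Lib.H61E.WR2
import Pool.Agent.Lib.H61E.WR3
import Pool.Agent.Lib.H61E.TR0

/-!
# WR4: approximate solutions in `E'`

PROOF.  WR1 for `y`, then WR2: `a'`, `r'`, `q'`, `v'`.  Put `y' i = (r' i : P⟦X⟧)`.  A polynomial with
coefficients in `E` lies in `E'` (sum of `C e * X^n`).  `v'` is a unit of `P⟦X⟧` with inverse `η ∈ E'`
(`HC.inv`).  Coercing the identities to `P⟦X⟧` (`Polynomial.coeToPowerSeries.ringHom` commutes with
`aeval`): `aeval y' (f j) = X^(c+1) a' q'_j` and `aeval y' D = a' v'`, so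
`aeval y' (f j) = X^c (aeval y' D) w`, `w = X η q'_j ∈ E' ∩ m`.
`y' i - y i = (r' i - r i) - (y i - r i) ∈ m^c` by WR3_poly (exponent `c + 1 ≥ c`) and WR3_X.
-/

set_option autoImplicit false
open IsLocalRing

namespace Pool.Agent.Lib.H61E
universe u

theorem WR4_mem {P : Type u} [CommRing P] {E : Subring P} {E' : Subring (PowerSeries P)}
    (hE : ∀ x ∈ E, PowerSeries.C x ∈ E') (hX : PowerSeries.X ∈ E') (p : Polynomial P)
    (hp : ∀ n, p.coeff n ∈ E) : (p : PowerSeries P) ∈ E' := by
  have h1 : (p : PowerSeries P) = ∑ i ∈ Finset.range (p.natDegree + 1),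
      PowerSeries.C (p.coeff i) * PowerSeries.X ^ i := by
    conv_lhs => rw [p.as_sum_range_C_mul_X_pow]
    rw [← Polynomial.coeToPowerSeries.ringHom_apply, map_sum]
    refine Finset.sum_congr rfl fun i _ => ?_
    rw [Polynomial.coeToPowerSeries.ringHom_apply, Polynomial.coe_mul, Polynomial.coe_C,
      Polynomial.coe_pow, Polynomial.coe_X]
  rw [h1]
  exact sum_mem fun i _ => mul_mem (hE _ (hp i)) (pow_mem hX i)

theorem WR4_aeval {P : Type u} [CommRing P] {ι : Type} (r : ι → Polynomial P)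
    (F : MvPolynomial ι ℤ) :
    MvPolynomial.aeval (fun i => (r i : PowerSeries P)) F =
      ((MvPolynomial.aeval r F : Polynomial P) : PowerSeries P) := by
  induction F using MvPolynomial.induction_on with
  | C a =>
    rw [MvPolynomial.aeval_C, MvPolynomial.aeval_C, ← Polynomial.coeToPowerSeries.ringHom_apply]
    simp only [algebraMap_int_eq, eq_intCast, map_intCast]
  | add p q hp hq => rw [map_add, map_add, hp, hq, Polynomial.coe_add]
  | mul_X p i hp => rw [map_mul, map_mul, hp, MvPolynomial.aeval_X, MvPolynomial.aeval_X,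
      Polynomial.coe_mul]

theorem WR4_main {P : Type u} [CommRing P] [IsLocalRing P] [IsAdicComplete (maximalIdeal P) P]
    {E : Subring P} (hA : AZ P E) {E' : Subring (PowerSeries P)}
    (hE : ∀ x ∈ E, PowerSeries.C x ∈ E') (hX : PowerSeries.X ∈ E') (hC : HC E')
    {ι κ : Type} [Finite ι] [Finite κ] (y : ι → PowerSeries P) (f : κ → MvPolynomial ι ℤ)
    (hf : ∀ j, MvPolynomial.aeval y (f j) = 0) (D : MvPolynomial ι ℤ)
    (hD : XReg (MvPolynomial.aeval y D)) (c : ℕ) :
    ∃ y' : ι → PowerSeries P, (∀ i, y' i ∈ E') ∧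
      (∀ j, ∃ w ∈ E', w ∈ maximalIdeal (PowerSeries P) ∧
        MvPolynomial.aeval y' (f j) = PowerSeries.X ^ c * MvPolynomial.aeval y' D * w) ∧
      Cg c y' y := by
  obtain ⟨a, r, q, v, hv, hq, hDv, hs⟩ := WR1_main y f hf D hD c
  obtain ⟨a', r', q', v', ha', hr', hq', hv', hu, h1, h2, h3⟩ := WR2_main hA f D c a r q v hv hq hDv
  have hvu : IsUnit (v' : PowerSeries P) := by
    rw [PowerSeries.isUnit_iff_constantCoeff, ← PowerSeries.coeff_zero_eq_constantCoeff_apply,
      Polynomial.coeff_coe]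
    exact hu
  obtain ⟨η, hη⟩ := hvu.exists_right_inv
  have hηE : η ∈ E' := hC.inv _ (WR4_mem hE hX v' hv') η hη
  refine ⟨fun i => (r' i : PowerSeries P), fun i => WR4_mem hE hX _ (hr' i), fun j => ?_,
    fun i => ?_⟩
  · refine ⟨PowerSeries.X ^ 1 * (η * (q' j : PowerSeries P)), ?_, ?_, ?_⟩
    · exact mul_mem (pow_mem hX 1) (mul_mem hηE (WR4_mem hE hX _ (hq' j)))
    · have h4 := WR3_X (P := P) 1 (η * (q' j : PowerSeries P))
      rwa [pow_one (maximalIdeal (PowerSeries P))] at h4
    · rw [WR4_aeval, WR4_aeval, h1, h2]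
      simp only [Polynomial.coe_mul, Polynomial.coe_pow, Polynomial.coe_X]
      have h5 : PowerSeries.X ^ c * ((a' : PowerSeries P) * (v' : PowerSeries P)) *
          (PowerSeries.X ^ 1 * (η * (q' j : PowerSeries P))) =
          PowerSeries.X ^ (c + 1) * (a' : PowerSeries P) * (q' j : PowerSeries P) *
            ((v' : PowerSeries P) * η) := by ring
      rw [h5, hη, mul_one]
  · obtain ⟨s, hs⟩ := hs i
    have h4 := WR3_poly c (r i) (r' i) fun n => Ideal.pow_le_pow_right (Nat.le_succ c) (h3 i n)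
    have h5 := WR3_X (P := P) c (PowerSeries.X * s)
    have h6 : (r' i : PowerSeries P) - y i = ((r' i : PowerSeries P) - (r i : PowerSeries P)) -
        PowerSeries.X ^ c * (PowerSeries.X * s) := by
      rw [← mul_assoc, ← pow_succ, ← hs]
      ring
    show (r' i : PowerSeries P) - y i ∈ _
    rw [h6]
    exact sub_mem h4 h5

end Pool.Agent.Lib.H61E
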